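import Pool.Agent.Helper852.Counting

set_option autoImplicit false

/-!
A greedy choice of an independent system of partners with bounded loads.
-/

namespace Pool.Agent.Helper852.Grd

open Finset Classical Pool.Agent.Helper852.Cnt

variable {n : ℕ}

theorem greedy_aux (H : SimpleGraph (Fin n)) (X : Finset (Fin n)) (d : Fin n → ℕ)
    (Forb : Fin n → Finset (Fin n)) (Bg : Finset (Fin n)) (D' : ℕ)
    (T W dmax dl F hi : ℝ) (hT : 0 < T) (hdm : 0 ≤ dmax)
    (hd : ∀ x ∈ X, (d x : ℝ) ≤ dmax) (hW : ∑ x ∈ X, (d x : ℝ) ≤ W)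
    (hdl0 : 0 ≤ dl) (hdl : ∀ t, t ∉ Bg → (dg H t : ℝ) ≤ dl)
    (hF : ∀ x ∈ X, ((Forb x).card : ℝ) ≤ F)
    (hhi : ((univ.filter (fun t => D' < dg H t)).card : ℝ) ≤ hi)
    (hnum : F + hi + X.card * (D' + 1) + (D' * W / T) * dl < n) :
    ∀ X' : Finset (Fin n), X' ⊆ X → ∃ y : Fin n → Fin n,
      (∀ x ∈ X', y x ∉ Forb x ∧ dg H (y x) ≤ D') ∧
      (∀ x ∈ X', ∀ x' ∈ X', x ≠ x' → y x ≠ y x' ∧ ¬ H.Adj (y x) (y x')) ∧
      ∀ t, t ∉ Bg → ∑ x ∈ X', (if H.Adj (y x) t then (d x : ℝ) else 0) ≤ T + dmax := by
  intro X'
  induction X' using Finset.induction_on with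
  | empty =>
    intro _
    refine ⟨id, ?_, ?_, ?_⟩
    · intro x hx
      exact absurd hx (Finset.notMem_empty x)
    · intro x hx
      exact absurd hx (Finset.notMem_empty x)
    · intro t _
      rw [Finset.sum_empty]
      linarith
  | insert x0 X' hx0 ih =>
    intro hsub
    have hx0X : x0 ∈ X := hsub (Finset.mem_insert_self _ _)
    have hsub' : X' ⊆ X := (Finset.subset_insert _ _).trans hsub
    obtain ⟨y, hy1, hy2, hy3⟩ := ih hsub'
    -- overloaded vertices
    set O : Finset (Fin n) := univ.filter (fun t => t ∉ Bg ∧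
      T < ∑ x ∈ X', (if H.Adj (y x) t then (d x : ℝ) else 0)) with hO
    have hOc : (O.card : ℝ) ≤ D' * W / T := by
      rw [le_div_iff₀ hT]
      calc (O.card : ℝ) * T = ∑ _t ∈ O, T := by rw [Finset.sum_const, nsmul_eq_mul]
        _ ≤ ∑ t ∈ O, ∑ x ∈ X', (if H.Adj (y x) t then (d x : ℝ) else 0) :=
            Finset.sum_le_sum (fun t ht => (Finset.mem_filter.mp ht).2.2.le)
        _ ≤ ∑ t : Fin n, ∑ x ∈ X', (if H.Adj (y x) t then (d x : ℝ) else 0) := by
            apply Finset.sum_le_sum_of_subset_of_nonneg (Finset.subset_univ _)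
            intro t _ _
            apply Finset.sum_nonneg
            intro x _
            split_ifs
            · exact Nat.cast_nonneg _
            · exact le_refl _
        _ = ∑ x ∈ X', ∑ t : Fin n, (if H.Adj (y x) t then (d x : ℝ) else 0) := Finset.sum_comm
        _ = ∑ x ∈ X', (dg H (y x) : ℝ) * (d x : ℝ) := by
            apply Finset.sum_congr rfl
            intro x _
            rw [← Finset.sum_filter, Finset.sum_const, nsmul_eq_mul]
            rfl
        _ ≤ ∑ x ∈ X', (D' : ℝ) * (d x : ℝ) := by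
            apply Finset.sum_le_sum
            intro x hx
            apply mul_le_mul_of_nonneg_right _ (Nat.cast_nonneg _)
            exact_mod_cast (hy1 x hx).2
        _ = D' * ∑ x ∈ X', (d x : ℝ) := by rw [Finset.mul_sum]
        _ ≤ D' * ∑ x ∈ X, (d x : ℝ) := by
            apply mul_le_mul_of_nonneg_left _ (Nat.cast_nonneg _)
            apply Finset.sum_le_sum_of_subset_of_nonneg hsub'
            intro _ _ _
            exact Nat.cast_nonneg _
        _ ≤ D' * W := mul_le_mul_of_nonneg_left hW (Nat.cast_nonneg _)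
    -- excluded set
    set Ex : Finset (Fin n) := ((Forb x0 ∪ univ.filter (fun t => D' < dg H t)) ∪
      X'.biUnion (fun x => insert (y x) (univ.filter (fun t => H.Adj (y x) t)))) ∪
      O.biUnion (fun t => univ.filter (fun u => H.Adj t u)) with hEx
    have hExc : (Ex.card : ℝ) < n := by
      have h1 : (Ex.card : ℝ) ≤ (Forb x0).card + (univ.filter (fun t => D' < dg H t)).card +
          (X'.biUnion (fun x => insert (y x) (univ.filter (fun t => H.Adj (y x) t)))).card +
          (O.biUnion (fun t => univ.filter (fun u => H.Adj t u))).card := by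
        have e1 := Finset.card_union_le ((Forb x0 ∪ univ.filter (fun t => D' < dg H t)) ∪
          X'.biUnion (fun x => insert (y x) (univ.filter (fun t => H.Adj (y x) t))))
          (O.biUnion (fun t => univ.filter (fun u => H.Adj t u)))
        have e2 := Finset.card_union_le (Forb x0 ∪ univ.filter (fun t => D' < dg H t))
          (X'.biUnion (fun x => insert (y x) (univ.filter (fun t => H.Adj (y x) t))))
        have e3 := Finset.card_union_le (Forb x0) (univ.filter (fun t => D' < dg H t))
        have e4 : Ex.card ≤ (Forb x0).card + (univ.filter (fun t => D' < dg H t)).card +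
          (X'.biUnion (fun x => insert (y x) (univ.filter (fun t => H.Adj (y x) t)))).card +
          (O.biUnion (fun t => univ.filter (fun u => H.Adj t u))).card := by
          rw [hEx]
          omega
        exact_mod_cast e4
      have h2 : ((X'.biUnion (fun x => insert (y x)
          (univ.filter (fun t => H.Adj (y x) t)))).card : ℝ) ≤ X.card * (D' + 1) := by
        have e1 : (X'.biUnion (fun x => insert (y x)
          (univ.filter (fun t => H.Adj (y x) t)))).card ≤ X.card * (D' + 1) := by
          calc (X'.biUnion (fun x => insert (y x) (univ.filter (fun t => H.Adj (y x) t)))).card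
              ≤ ∑ x ∈ X', (insert (y x) (univ.filter (fun t => H.Adj (y x) t))).card :=
                Finset.card_biUnion_le
            _ ≤ ∑ _x ∈ X', (D' + 1) := by
                apply Finset.sum_le_sum
                intro x hx
                refine (Finset.card_insert_le _ _).trans ?_
                have := (hy1 x hx).2
                unfold dg at this
                omega
            _ = X'.card * (D' + 1) := by rw [Finset.sum_const, smul_eq_mul]
            _ ≤ X.card * (D' + 1) := Nat.mul_le_mul_right _ (Finset.card_le_card hsub')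
        exact_mod_cast e1
      have h3 : ((O.biUnion (fun t => univ.filter (fun u => H.Adj t u))).card : ℝ) ≤
          (D' * W / T) * dl := by
        calc ((O.biUnion (fun t => univ.filter (fun u => H.Adj t u))).card : ℝ)
            ≤ ∑ t ∈ O, ((univ.filter (fun u => H.Adj t u)).card : ℝ) := by
              exact_mod_cast Finset.card_biUnion_le
          _ ≤ ∑ _t ∈ O, dl := Finset.sum_le_sum
              (fun t ht => hdl t (Finset.mem_filter.mp ht).2.1)
          _ = (O.card : ℝ) * dl := by rw [Finset.sum_const, nsmul_eq_mul]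
          _ ≤ _ := mul_le_mul_of_nonneg_right hOc hdl0
      have h4 := hF x0 hx0X
      linarith
    have hex : ∃ c, c ∉ Ex := by
      by_contra hcon
      push Not at hcon
      have h1 : Ex = univ := Finset.eq_univ_iff_forall.mpr hcon
      rw [h1, Finset.card_univ, Fintype.card_fin] at hExc
      exact lt_irrefl _ hExc
    obtain ⟨c, hc⟩ := hex
    rw [hEx] at hc
    simp only [Finset.mem_union, not_or] at hc
    obtain ⟨⟨⟨hc1, hc2⟩, hc3⟩, hc4⟩ := hc
    have hc2' : dg H c ≤ D' := by
      by_contra hcon
      exact hc2 (Finset.mem_filter.mpr ⟨Finset.mem_univ _, by omega⟩)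
    have hc3' : ∀ x ∈ X', y x ≠ c ∧ ¬ H.Adj (y x) c := by
      intro x hx
      constructor
      · intro h
        exact hc3 (Finset.mem_biUnion.mpr ⟨x, hx, Finset.mem_insert.mpr (Or.inl h.symm)⟩)
      · intro h
        exact hc3 (Finset.mem_biUnion.mpr ⟨x, hx, Finset.mem_insert.mpr
          (Or.inr (Finset.mem_filter.mpr ⟨Finset.mem_univ _, h⟩))⟩)
    have hne : ∀ x ∈ X', x ≠ x0 := fun x hx h => hx0 (h ▸ hx)
    have hup : ∀ x ∈ X', Function.update y x0 c x = y x :=
      fun x hx => Function.update_of_ne (hne x hx) _ _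
    have hself : Function.update y x0 c x0 = c := Function.update_self _ _ _
    refine ⟨Function.update y x0 c, ?_, ?_, ?_⟩
    · intro x hx
      rcases Finset.mem_insert.mp hx with rfl | hx
      · rw [hself]
        exact ⟨hc1, hc2'⟩
      · rw [hup x hx]
        exact hy1 x hx
    · intro x hx x' hx' hxx
      rcases Finset.mem_insert.mp hx with rfl | hx
      · rcases Finset.mem_insert.mp hx' with h | hx'
        · exact absurd h.symm hxx
        · rw [hself, hup x' hx']
          exact ⟨(hc3' x' hx').1.symm, fun h => (hc3' x' hx').2 h.symm⟩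
      · rcases Finset.mem_insert.mp hx' with h | hx'
        · rw [h, hself, hup x hx]
          exact hc3' x hx
        · rw [hup x hx, hup x' hx']
          exact hy2 x hx x' hx' hxx
    · intro t ht
      rw [Finset.sum_insert hx0, hself]
      have e1 : ∑ x ∈ X', (if H.Adj (Function.update y x0 c x) t then (d x : ℝ) else 0) =
          ∑ x ∈ X', (if H.Adj (y x) t then (d x : ℝ) else 0) :=
        Finset.sum_congr rfl (fun x hx => by rw [hup x hx])
      rw [e1]
      by_cases hadj : H.Adj c t
      · rw [if_pos hadj]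
        have htO : t ∉ O := by
          intro htO
          exact hc4 (Finset.mem_biUnion.mpr ⟨t, htO, Finset.mem_filter.mpr
            ⟨Finset.mem_univ _, hadj.symm⟩⟩)
        have h1 : ∑ x ∈ X', (if H.Adj (y x) t then (d x : ℝ) else 0) ≤ T := by
          by_contra hcon
          push Not at hcon
          exact htO (Finset.mem_filter.mpr ⟨Finset.mem_univ _, ht, hcon⟩)
        have h2 := hd x0 hx0X
        linarith
      · rw [if_neg hadj, zero_add]
        exact hy3 t ht

theorem greedy (H : SimpleGraph (Fin n)) (X : Finset (Fin n)) (d : Fin n → ℕ)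
    (Forb : Fin n → Finset (Fin n)) (Bg : Finset (Fin n)) (D' : ℕ)
    (T W dmax dl F hi : ℝ) (hT : 0 < T) (hdm : 0 ≤ dmax)
    (hd : ∀ x ∈ X, (d x : ℝ) ≤ dmax) (hW : ∑ x ∈ X, (d x : ℝ) ≤ W)
    (hdl0 : 0 ≤ dl) (hdl : ∀ t, t ∉ Bg → (dg H t : ℝ) ≤ dl)
    (hF : ∀ x ∈ X, ((Forb x).card : ℝ) ≤ F)
    (hhi : ((univ.filter (fun t => D' < dg H t)).card : ℝ) ≤ hi)
    (hnum : F + hi + X.card * (D' + 1) + (D' * W / T) * dl < n) :
    ∃ y : Fin n → Fin n,
      (∀ x ∈ X, y x ∉ Forb x ∧ dg H (y x) ≤ D') ∧
      (∀ x ∈ X, ∀ x' ∈ X, x ≠ x' → y x ≠ y x' ∧ ¬ H.Adj (y x) (y x')) ∧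
      ∀ t, t ∉ Bg → ∑ x ∈ X, (if H.Adj (y x) t then (d x : ℝ) else 0) ≤ T + dmax :=
  greedy_aux H X d Forb Bg D' T W dmax dl F hi hT hdm hd hW hdl0 hdl hF hhi hnum X
    (Finset.Subset.refl _)

end Pool.Agent.Helper852.Grd
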