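import Pool.Agent.Helper852.Extend
import Pool.Agent.Helper852.Greedy

set_option autoImplicit false

/-!
Assembling the core and finishing the packing.
-/

namespace Pool.Agent.Helper852.Grd

open Finset Classical Pool.Agent.Helper852.Cnt Pool.Agent.Helper852.LLL

variable {n : ℕ}

/-- A conflict-free matching between vertices of `G` (first) and `H` (second). -/
structure Core (G H : SimpleGraph (Fin n)) (C : Finset (Fin n × Fin n)) : Prop where
  fst : ∀ p ∈ C, ∀ p' ∈ C, p.1 = p'.1 → p = p'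
  snd : ∀ p ∈ C, ∀ p' ∈ C, p.2 = p'.2 → p = p'
  conf : ∀ p ∈ C, ∀ p' ∈ C, G.Adj p.1 p'.1 → ¬ H.Adj p.2 p'.2

theorem Core.union {G H : SimpleGraph (Fin n)} {C S : Finset (Fin n × Fin n)}
    (hC : Core G H C) (hS : Core G H S)
    (hx : ∀ p ∈ C, ∀ p' ∈ S, p.1 ≠ p'.1 ∧ p.2 ≠ p'.2 ∧ ¬ (G.Adj p.1 p'.1 ∧ H.Adj p.2 p'.2)) :
    Core G H (C ∪ S) := by
  refine ⟨?_, ?_, ?_⟩
  · intro p hp p' hp' he
    rcases Finset.mem_union.mp hp with h | h
    · rcases Finset.mem_union.mp hp' with h' | h'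
      · exact hC.fst p h p' h' he
      · exact absurd he (hx p h p' h').1
    · rcases Finset.mem_union.mp hp' with h' | h'
      · exact absurd he.symm (hx p' h' p h).1
      · exact hS.fst p h p' h' he
  · intro p hp p' hp' he
    rcases Finset.mem_union.mp hp with h | h
    · rcases Finset.mem_union.mp hp' with h' | h'
      · exact hC.snd p h p' h' he
      · exact absurd he (hx p h p' h').2.1
    · rcases Finset.mem_union.mp hp' with h' | h'
      · exact absurd he.symm (hx p' h' p h).2.1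
      · exact hS.snd p h p' h' he
  · intro p hp p' hp' hg hh
    rcases Finset.mem_union.mp hp with h | h
    · rcases Finset.mem_union.mp hp' with h' | h'
      · exact hC.conf p h p' h' hg hh
      · exact (hx p h p' h').2.2 ⟨hg, hh⟩
    · rcases Finset.mem_union.mp hp' with h' | h'
      · exact (hx p' h' p h).2.2 ⟨hg.symm, hh.symm⟩
      · exact hS.conf p h p' h' hg hh

theorem card_biUnion_nbr_le {ι : Type} (G : SimpleGraph (Fin n)) (s : Finset ι) (f : ι → Fin n) :
    (((s.biUnion (fun i => univ.filter (fun t => G.Adj (f i) t))).card : ℕ) : ℝ) ≤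
      ∑ i ∈ s, (dg G (f i) : ℝ) := by
  have h : (s.biUnion (fun i => univ.filter (fun t => G.Adj (f i) t))).card ≤
      ∑ i ∈ s, dg G (f i) := Finset.card_biUnion_le
  exact_mod_cast h

theorem assemble (G H : SimpleGraph (Fin n)) (A B : Finset (Fin n)) (z : B → Fin n)
    (v : A → Fin n) (D D' : ℕ) (L T W dl hi cA M : ℝ)
    (hzA : ∀ w, z w ∉ A) (hvB : ∀ u, v u ∉ B)
    (hzD : ∀ w, dg G (z w) ≤ D) (hvD : ∀ u, dg H (v u) ≤ D)
    (hz : ∀ w w', w ≠ w' → z w ≠ z w' ∧ ¬ G.Adj (z w) (z w'))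
    (hv : ∀ u u', u ≠ u' → v u ≠ v u' ∧ ¬ H.Adj (v u) (v u'))
    (hLG : ∀ x, x ∉ A → ∑ w ∈ univ.filter (fun w => G.Adj (z w) x), (dg H w.1 : ℝ) ≤ L)
    (hLH : ∀ x, x ∉ B → ∑ u ∈ univ.filter (fun u => H.Adj (v u) x), (dg G u.1 : ℝ) ≤ L)
    (hcross : ∀ (u : A) (w : B), ¬ (G.Adj (z w) u.1 ∧ H.Adj (v u) w.1))
    (hAdl : ∀ x, x ∉ A → (dg G x : ℝ) ≤ dl) (hBdl : ∀ x, x ∉ B → (dg H x : ℝ) ≤ dl)
    (hWG : ((∑ x, dg G x : ℕ) : ℝ) ≤ W) (hWH : ((∑ x, dg H x : ℕ) : ℝ) ≤ W)
    (hhG : ((univ.filter (fun t => D' < dg G t)).card : ℝ) ≤ hi)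
    (hhH : ((univ.filter (fun t => D' < dg H t)).card : ℝ) ≤ hi)
    (hA : (A.card : ℝ) ≤ cA) (hB : (B.card : ℝ) ≤ cA)
    (hT : 0 < T) (hdl : 0 ≤ dl) (hM : 0 < M)
    (hnum1 : (2 * cA + cA * D + L + (T + dl)) + hi + (cA * D) * (D' + 1) + (D' * W / T) * dl < n)
    (hnum2 : M ≤ n - (2 * cA + 2 * (cA * D)) - 3)
    (hnum3 : (T + dl + cA * D * D') / M + 2 * (dl * W) / (M * M) ≤ 1 / 16) :
    ∃ σ : Fin n ≃ Fin n, ∀ u v, H.Adj u v → ¬ G.Adj (σ u) (σ v) := by
  have hcA : 0 ≤ cA := le_trans (Nat.cast_nonneg _) hA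
  -- neighbourhoods
  set NZ : Finset (Fin n) := (univ : Finset B).biUnion
    (fun w => univ.filter (fun t => G.Adj (z w) t)) with hNZ
  set NV : Finset (Fin n) := (univ : Finset A).biUnion
    (fun u => univ.filter (fun t => H.Adj (v u) t)) with hNV
  set X : Finset (Fin n) := NZ \ A with hX
  set XH : Finset (Fin n) := NV \ B with hXH
  have hNZc : (NZ.card : ℝ) ≤ cA * D := by
    calc (NZ.card : ℝ) ≤ ∑ w : B, (dg G (z w) : ℝ) := card_biUnion_nbr_le G univ z
      _ ≤ ∑ _w : B, (D : ℝ) := Finset.sum_le_sum (fun w _ => by exact_mod_cast hzD w)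
      _ = (B.card : ℝ) * D := by
          rw [Finset.sum_const, nsmul_eq_mul, Finset.card_univ, Fintype.card_coe]
      _ ≤ cA * D := mul_le_mul_of_nonneg_right hB (Nat.cast_nonneg _)
  have hNVc : (NV.card : ℝ) ≤ cA * D := by
    calc (NV.card : ℝ) ≤ ∑ u : A, (dg H (v u) : ℝ) := card_biUnion_nbr_le H univ v
      _ ≤ ∑ _u : A, (D : ℝ) := Finset.sum_le_sum (fun u _ => by exact_mod_cast hvD u)
      _ = (A.card : ℝ) * D := by
          rw [Finset.sum_const, nsmul_eq_mul, Finset.card_univ, Fintype.card_coe]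
      _ ≤ cA * D := mul_le_mul_of_nonneg_right hA (Nat.cast_nonneg _)
  have hXc : (X.card : ℝ) ≤ cA * D := by
    refine le_trans ?_ hNZc
    exact_mod_cast Finset.card_le_card Finset.sdiff_subset
  have hXHc : (XH.card : ℝ) ≤ cA * D := by
    refine le_trans ?_ hNVc
    exact_mod_cast Finset.card_le_card Finset.sdiff_subset
  have memNZ : ∀ t, t ∈ NZ ↔ ∃ w, G.Adj (z w) t := by
    intro t
    simp [hNZ]
  have memNV : ∀ t, t ∈ NV ↔ ∃ u, H.Adj (v u) t := by
    intro t
    simp [hNV]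
  have hVc : ((((univ : Finset A).image v).card : ℕ) : ℝ) ≤ cA := by
    refine le_trans ?_ hA
    have : ((univ : Finset A).image v).card ≤ A.card := by
      refine Finset.card_image_le.trans ?_
      rw [Finset.card_univ, Fintype.card_coe]
    exact_mod_cast this
  have hZc : ((((univ : Finset B).image z).card : ℕ) : ℝ) ≤ cA := by
    refine le_trans ?_ hB
    have : ((univ : Finset B).image z).card ≤ B.card := by
      refine Finset.card_image_le.trans ?_
      rw [Finset.card_univ, Fintype.card_coe]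
    exact_mod_cast this
  -- first greedy choice
  set Forb1 : Fin n → Finset (Fin n) := fun x => ((B ∪ (univ : Finset A).image v) ∪ NV) ∪
    (univ.filter (fun w : B => G.Adj (z w) x)).biUnion
      (fun w => univ.filter (fun t => H.Adj w.1 t)) with hForb1
  have card_union4 : ∀ s1 s2 s3 s4 : Finset (Fin n), ((((s1 ∪ s2) ∪ s3) ∪ s4).card : ℝ) ≤
      s1.card + s2.card + s3.card + s4.card := by
    intro s1 s2 s3 s4
    have e1 := Finset.card_union_le ((s1 ∪ s2) ∪ s3) s4
    have e2 := Finset.card_union_le (s1 ∪ s2) s3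
    have e3 := Finset.card_union_le s1 s2
    have e4 : (((s1 ∪ s2) ∪ s3) ∪ s4).card ≤ s1.card + s2.card + s3.card + s4.card := by omega
    exact_mod_cast e4
  have hsumX : ∀ (K : SimpleGraph (Fin n)) (S : Finset (Fin n)),
      ∑ x ∈ S, (dg K x : ℝ) ≤ ((∑ x, dg K x : ℕ) : ℝ) := by
    intro K S
    rw [Nat.cast_sum]
    exact Finset.sum_le_sum_of_subset_of_nonneg (Finset.subset_univ _)
      (fun _ _ _ => Nat.cast_nonneg _)
  have hxA : ∀ x ∈ X, x ∉ A := fun x hx => (Finset.mem_sdiff.mp hx).2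
  have hsB : ∀ s ∈ XH, s ∉ B := fun s hs => (Finset.mem_sdiff.mp hs).2
  obtain ⟨y, hy1, hy2, hy3⟩ := greedy H X (fun x => dg G x) Forb1 B D' T W dl dl
    (2 * cA + cA * D + L) hi hT hdl (fun x hx => hAdl x (hxA x hx))
    ((hsumX G X).trans hWG) hdl hBdl
    (by
      intro x hx
      have h1 := card_union4 B ((univ : Finset A).image v) NV
        ((univ.filter (fun w : B => G.Adj (z w) x)).biUnion
          (fun w => univ.filter (fun t => H.Adj w.1 t)))
      have h2 := card_biUnion_nbr_le H (univ.filter (fun w : B => G.Adj (z w) x)) (fun w => w.1)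
      have h3 := hLG x (hxA x hx)
      simp only [hForb1]
      linarith)
    hhH
    (by
      have h1 : (X.card : ℝ) * (D' + 1) ≤ (cA * D) * (D' + 1) :=
        mul_le_mul_of_nonneg_right hXc (by positivity)
      linarith)
  -- second greedy choice
  set Forb2 : Fin n → Finset (Fin n) := fun s => (((A ∪ (univ : Finset B).image z) ∪ NZ) ∪
    (univ.filter (fun u : A => H.Adj (v u) s)).biUnion
      (fun u => univ.filter (fun t => G.Adj u.1 t))) ∪
    (X.filter (fun x => H.Adj (y x) s)).biUnion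
      (fun x => univ.filter (fun t => G.Adj x t)) with hForb2
  obtain ⟨r, hr1, hr2, hr3⟩ := greedy G XH (fun s => dg H s) Forb2 A D' T W dl dl
    (2 * cA + cA * D + L + (T + dl)) hi hT hdl (fun s hs => hBdl s (hsB s hs))
    ((hsumX H XH).trans hWH) hdl hAdl
    (by
      intro s hs
      have h1 := card_union4 A ((univ : Finset B).image z) NZ
        ((univ.filter (fun u : A => H.Adj (v u) s)).biUnion
          (fun u => univ.filter (fun t => G.Adj u.1 t)))
      have h2 := card_biUnion_nbr_le G (univ.filter (fun u : A => H.Adj (v u) s)) (fun u => u.1)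
      have h3 := hLH s (hsB s hs)
      have h4 := card_biUnion_nbr_le G (X.filter (fun x => H.Adj (y x) s)) (fun x => x)
      have h5 := hy3 s (hsB s hs)
      rw [← Finset.sum_filter] at h5
      have h6 : (((((A ∪ (univ : Finset B).image z) ∪ NZ) ∪
        (univ.filter (fun u : A => H.Adj (v u) s)).biUnion
          (fun u => univ.filter (fun t => G.Adj u.1 t))) ∪
        (X.filter (fun x => H.Adj (y x) s)).biUnion
          (fun x => univ.filter (fun t => G.Adj x t))).card : ℝ) ≤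
        ((((A ∪ (univ : Finset B).image z) ∪ NZ) ∪
        (univ.filter (fun u : A => H.Adj (v u) s)).biUnion
          (fun u => univ.filter (fun t => G.Adj u.1 t))).card : ℝ) +
        (((X.filter (fun x => H.Adj (y x) s)).biUnion
          (fun x => univ.filter (fun t => G.Adj x t))).card : ℝ) := by
        exact_mod_cast Finset.card_union_le _ _
      simp only [hForb2]
      linarith)
    hhG
    (by
      have h1 : (XH.card : ℝ) * (D' + 1) ≤ (cA * D) * (D' + 1) :=
        mul_le_mul_of_nonneg_right hXHc (by positivity)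
      linarith)
  -- unpack forbidden sets
  have y_B : ∀ x ∈ X, y x ∉ B := by
    intro x hx h
    apply (hy1 x hx).1
    simp only [hForb1, Finset.mem_union]
    exact Or.inl (Or.inl (Or.inl h))
  have y_v : ∀ x ∈ X, ∀ u, y x ≠ v u := by
    intro x hx u h
    apply (hy1 x hx).1
    simp only [hForb1, Finset.mem_union]
    exact Or.inl (Or.inl (Or.inr (Finset.mem_image.mpr ⟨u, Finset.mem_univ _, h.symm⟩)))
  have y_NV : ∀ x ∈ X, y x ∉ NV := by
    intro x hx h
    apply (hy1 x hx).1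
    simp only [hForb1, Finset.mem_union]
    exact Or.inl (Or.inr h)
  have y_w : ∀ x ∈ X, ∀ w : B, G.Adj (z w) x → ¬ H.Adj w.1 (y x) := by
    intro x hx w hw h
    apply (hy1 x hx).1
    simp only [hForb1, Finset.mem_union]
    refine Or.inr (Finset.mem_biUnion.mpr ⟨w, Finset.mem_filter.mpr ⟨Finset.mem_univ _, hw⟩,
      Finset.mem_filter.mpr ⟨Finset.mem_univ _, h⟩⟩)
  have r_A : ∀ s ∈ XH, r s ∉ A := by
    intro s hs h
    apply (hr1 s hs).1
    simp only [hForb2, Finset.mem_union]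
    exact Or.inl (Or.inl (Or.inl (Or.inl h)))
  have r_z : ∀ s ∈ XH, ∀ w, r s ≠ z w := by
    intro s hs w h
    apply (hr1 s hs).1
    simp only [hForb2, Finset.mem_union]
    exact Or.inl (Or.inl (Or.inl (Or.inr (Finset.mem_image.mpr ⟨w, Finset.mem_univ _, h.symm⟩))))
  have r_NZ : ∀ s ∈ XH, r s ∉ NZ := by
    intro s hs h
    apply (hr1 s hs).1
    simp only [hForb2, Finset.mem_union]
    exact Or.inl (Or.inl (Or.inr h))
  have r_u : ∀ s ∈ XH, ∀ u : A, H.Adj (v u) s → ¬ G.Adj u.1 (r s) := by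
    intro s hs u hu h
    apply (hr1 s hs).1
    simp only [hForb2, Finset.mem_union]
    exact Or.inl (Or.inr (Finset.mem_biUnion.mpr ⟨u, Finset.mem_filter.mpr
      ⟨Finset.mem_univ _, hu⟩, Finset.mem_filter.mpr ⟨Finset.mem_univ _, h⟩⟩))
  have r_x : ∀ s ∈ XH, ∀ x ∈ X, H.Adj (y x) s → ¬ G.Adj x (r s) := by
    intro s hs x hx hys h
    apply (hr1 s hs).1
    simp only [hForb2, Finset.mem_union]
    exact Or.inr (Finset.mem_biUnion.mpr ⟨x, Finset.mem_filter.mpr ⟨hx, hys⟩,
      Finset.mem_filter.mpr ⟨Finset.mem_univ _, h⟩⟩)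
  have X_z : ∀ w, z w ∉ X := by
    intro w h
    obtain ⟨w', hw'⟩ := (memNZ _).mp (Finset.mem_sdiff.mp h).1
    by_cases he : w' = w
    · rw [he] at hw'
      exact G.irrefl hw'
    · exact (hz w' w he).2 hw'
  have XH_v : ∀ u, v u ∉ XH := by
    intro u h
    obtain ⟨u', hu'⟩ := (memNV _).mp (Finset.mem_sdiff.mp h).1
    by_cases he : u' = u
    · rw [he] at hu'
      exact H.irrefl hu'
    · exact (hv u' u he).2 hu'
  -- the four families
  set S1 : Finset (Fin n × Fin n) := (univ : Finset A).image (fun u => (u.1, v u)) with hS1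
  set S2 : Finset (Fin n × Fin n) := (univ : Finset B).image (fun w => (z w, w.1)) with hS2
  set S3 : Finset (Fin n × Fin n) := X.image (fun x => (x, y x)) with hS3
  set S4 : Finset (Fin n × Fin n) := XH.image (fun s => (r s, s)) with hS4
  have m1 : ∀ p ∈ S1, ∃ u : A, p = (u.1, v u) := by
    intro p hp
    obtain ⟨u, _, he⟩ := Finset.mem_image.mp hp
    exact ⟨u, he.symm⟩
  have m2 : ∀ p ∈ S2, ∃ w : B, p = (z w, w.1) := by
    intro p hp
    obtain ⟨u, _, he⟩ := Finset.mem_image.mp hp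
    exact ⟨u, he.symm⟩
  have m3 : ∀ p ∈ S3, ∃ x ∈ X, p = (x, y x) := by
    intro p hp
    obtain ⟨u, hu, he⟩ := Finset.mem_image.mp hp
    exact ⟨u, hu, he.symm⟩
  have m4 : ∀ p ∈ S4, ∃ s ∈ XH, p = (r s, s) := by
    intro p hp
    obtain ⟨u, hu, he⟩ := Finset.mem_image.mp hp
    exact ⟨u, hu, he.symm⟩
  have c1 : Core G H S1 := by
    refine ⟨?_, ?_, ?_⟩
    · intro p hp p' hp' he
      obtain ⟨u, rfl⟩ := m1 p hp
      obtain ⟨u', rfl⟩ := m1 p' hp'
      have : u = u' := Subtype.ext he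
      rw [this]
    · intro p hp p' hp' he
      obtain ⟨u, rfl⟩ := m1 p hp
      obtain ⟨u', rfl⟩ := m1 p' hp'
      by_cases h : u = u'
      · rw [h]
      · exact absurd he (hv u u' h).1
    · intro p hp p' hp' hg hh
      obtain ⟨u, rfl⟩ := m1 p hp
      obtain ⟨u', rfl⟩ := m1 p' hp'
      by_cases h : u = u'
      · rw [h] at hh
        exact H.irrefl hh
      · exact (hv u u' h).2 hh
  have c2 : Core G H S2 := by
    refine ⟨?_, ?_, ?_⟩
    · intro p hp p' hp' he
      obtain ⟨w, rfl⟩ := m2 p hp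
      obtain ⟨w', rfl⟩ := m2 p' hp'
      by_cases h : w = w'
      · rw [h]
      · exact absurd he (hz w w' h).1
    · intro p hp p' hp' he
      obtain ⟨w, rfl⟩ := m2 p hp
      obtain ⟨w', rfl⟩ := m2 p' hp'
      have : w = w' := Subtype.ext he
      rw [this]
    · intro p hp p' hp' hg hh
      obtain ⟨w, rfl⟩ := m2 p hp
      obtain ⟨w', rfl⟩ := m2 p' hp'
      by_cases h : w = w'
      · rw [h] at hg
        exact G.irrefl hg
      · exact (hz w w' h).2 hg
  have c3 : Core G H S3 := by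
    refine ⟨?_, ?_, ?_⟩
    · intro p hp p' hp' he
      obtain ⟨x, hx, rfl⟩ := m3 p hp
      obtain ⟨x', hx', rfl⟩ := m3 p' hp'
      have : x = x' := he
      rw [this]
    · intro p hp p' hp' he
      obtain ⟨x, hx, rfl⟩ := m3 p hp
      obtain ⟨x', hx', rfl⟩ := m3 p' hp'
      by_cases h : x = x'
      · rw [h]
      · exact absurd he (hy2 x hx x' hx' h).1
    · intro p hp p' hp' hg hh
      obtain ⟨x, hx, rfl⟩ := m3 p hp
      obtain ⟨x', hx', rfl⟩ := m3 p' hp'
      by_cases h : x = x'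
      · rw [h] at hh
        exact H.irrefl hh
      · exact (hy2 x hx x' hx' h).2 hh
  have c4 : Core G H S4 := by
    refine ⟨?_, ?_, ?_⟩
    · intro p hp p' hp' he
      obtain ⟨s, hs, rfl⟩ := m4 p hp
      obtain ⟨s', hs', rfl⟩ := m4 p' hp'
      by_cases h : s = s'
      · rw [h]
      · exact absurd he (hr2 s hs s' hs' h).1
    · intro p hp p' hp' he
      obtain ⟨s, hs, rfl⟩ := m4 p hp
      obtain ⟨s', hs', rfl⟩ := m4 p' hp'
      have : s = s' := he
      rw [this]
    · intro p hp p' hp' hg hh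
      obtain ⟨s, hs, rfl⟩ := m4 p hp
      obtain ⟨s', hs', rfl⟩ := m4 p' hp'
      by_cases h : s = s'
      · rw [h] at hg
        exact G.irrefl hg
      · exact (hr2 s hs s' hs' h).2 hg
  have c12 : Core G H (S1 ∪ S2) := by
    apply c1.union c2
    intro p hp p' hp'
    obtain ⟨u, rfl⟩ := m1 p hp
    obtain ⟨w, rfl⟩ := m2 p' hp'
    refine ⟨?_, ?_, ?_⟩
    · intro h
      simp only at h
      exact hzA w (by rw [← h]; exact u.2)
    · intro h
      simp only at h
      exact hvB u (by rw [h]; exact w.2)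
    · rintro ⟨h1, h2⟩
      exact hcross u w ⟨h1.symm, h2⟩
  have c123 : Core G H ((S1 ∪ S2) ∪ S3) := by
    apply c12.union c3
    intro p hp p' hp'
    obtain ⟨x, hx, rfl⟩ := m3 p' hp'
    rcases Finset.mem_union.mp hp with hp | hp
    · obtain ⟨u, rfl⟩ := m1 p hp
      refine ⟨?_, ?_, ?_⟩
      · intro h
        simp only at h
        exact hxA x hx (by rw [← h]; exact u.2)
      · intro h
        simp only at h
        exact y_v x hx u h.symm
      · rintro ⟨_, h2⟩
        exact y_NV x hx ((memNV _).mpr ⟨u, h2⟩)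
    · obtain ⟨w, rfl⟩ := m2 p hp
      refine ⟨?_, ?_, ?_⟩
      · intro h
        simp only at h
        exact X_z w (by rw [h]; exact hx)
      · intro h
        simp only at h
        exact y_B x hx (by rw [← h]; exact w.2)
      · rintro ⟨h1, h2⟩
        exact y_w x hx w h1 h2
  have c1234 : Core G H (((S1 ∪ S2) ∪ S3) ∪ S4) := by
    apply c123.union c4
    intro p hp p' hp'
    obtain ⟨s, hs, rfl⟩ := m4 p' hp'
    rcases Finset.mem_union.mp hp with hp | hp
    · rcases Finset.mem_union.mp hp with hp | hp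
      · obtain ⟨u, rfl⟩ := m1 p hp
        refine ⟨?_, ?_, ?_⟩
        · intro h
          simp only at h
          exact r_A s hs (by rw [← h]; exact u.2)
        · intro h
          simp only at h
          exact XH_v u (by rw [h]; exact hs)
        · rintro ⟨h1, h2⟩
          exact r_u s hs u h2 h1
      · obtain ⟨w, rfl⟩ := m2 p hp
        refine ⟨?_, ?_, ?_⟩
        · intro h
          simp only at h
          exact r_z s hs w h.symm
        · intro h
          simp only at h
          exact hsB s hs (by rw [← h]; exact w.2)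
        · rintro ⟨h1, _⟩
          exact r_NZ s hs ((memNZ _).mpr ⟨w, h1⟩)
    · obtain ⟨x, hx, rfl⟩ := m3 p hp
      refine ⟨?_, ?_, ?_⟩
      · intro h
        simp only at h
        apply r_NZ s hs
        rw [← h]
        exact (Finset.mem_sdiff.mp hx).1
      · intro h
        simp only at h
        apply y_NV x hx
        rw [h]
        exact (Finset.mem_sdiff.mp hs).1
      · rintro ⟨h1, h2⟩
        exact r_x s hs x hx h2 h1
  -- images
  set C : Finset (Fin n × Fin n) := ((S1 ∪ S2) ∪ S3) ∪ S4 with hC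
  have i1 : ∀ u ∈ A, u ∈ C.image Prod.fst := by
    intro u hu
    refine Finset.mem_image.mpr ⟨(u, v ⟨u, hu⟩), ?_, rfl⟩
    simp only [hC, hS1, Finset.mem_union]
    exact Or.inl (Or.inl (Or.inl (Finset.mem_image.mpr ⟨⟨u, hu⟩, Finset.mem_univ _, rfl⟩)))
  have i2 : ∀ w ∈ B, w ∈ C.image Prod.snd := by
    intro w hw
    refine Finset.mem_image.mpr ⟨(z ⟨w, hw⟩, w), ?_, rfl⟩
    simp only [hC, hS2, Finset.mem_union]
    exact Or.inl (Or.inl (Or.inr (Finset.mem_image.mpr ⟨⟨w, hw⟩, Finset.mem_univ _, rfl⟩)))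
  have i3 : ∀ x ∈ X, x ∈ C.image Prod.fst := by
    intro x hx
    refine Finset.mem_image.mpr ⟨(x, y x), ?_, rfl⟩
    simp only [hC, hS3, Finset.mem_union]
    exact Or.inl (Or.inr (Finset.mem_image.mpr ⟨x, hx, rfl⟩))
  have i4 : ∀ s ∈ XH, s ∈ C.image Prod.snd := by
    intro s hs
    refine Finset.mem_image.mpr ⟨(r s, s), ?_, rfl⟩
    simp only [hC, hS4, Finset.mem_union]
    exact Or.inr (Finset.mem_image.mpr ⟨s, hs, rfl⟩)
  have hCc : (C.card : ℝ) ≤ 2 * cA + 2 * (cA * D) := by
    have e1 := Finset.card_union_le ((S1 ∪ S2) ∪ S3) S4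
    have e2 := Finset.card_union_le (S1 ∪ S2) S3
    have e3 := Finset.card_union_le S1 S2
    have f1 : S1.card ≤ A.card := by
      refine Finset.card_image_le.trans ?_
      rw [Finset.card_univ, Fintype.card_coe]
    have f2 : S2.card ≤ B.card := by
      refine Finset.card_image_le.trans ?_
      rw [Finset.card_univ, Fintype.card_coe]
    have f3 : S3.card ≤ X.card := Finset.card_image_le
    have f4 : S4.card ≤ XH.card := Finset.card_image_le
    have e4 : C.card ≤ A.card + B.card + X.card + XH.card := by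
      rw [hC]
      omega
    have e5 : (C.card : ℝ) ≤ A.card + B.card + X.card + XH.card := by exact_mod_cast e4
    linarith
  have hcov : ∀ r0 t0 : Fin n, r0 ∉ C.image Prod.fst → t0 ∉ C.image Prod.snd →
      (∃ p ∈ C, G.Adj p.1 r0 ∧ H.Adj p.2 t0) →
      (∃ x ∈ X, G.Adj x r0 ∧ H.Adj (y x) t0) ∨ (∃ s ∈ XH, G.Adj (r s) r0 ∧ H.Adj s t0) := by
    rintro r0 t0 hr0 ht0 ⟨p, hp, hg, hh⟩
    simp only [hC, Finset.mem_union] at hp
    rcases hp with ((hp | hp) | hp) | hp
    · exfalso
      obtain ⟨u, rfl⟩ := m1 p hp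
      apply ht0
      apply i4
      refine Finset.mem_sdiff.mpr ⟨(memNV _).mpr ⟨u, hh⟩, fun h => ht0 (i2 _ h)⟩
    · exfalso
      obtain ⟨w, rfl⟩ := m2 p hp
      apply hr0
      apply i3
      refine Finset.mem_sdiff.mpr ⟨(memNZ _).mpr ⟨w, hg⟩, fun h => hr0 (i1 _ h)⟩
    · obtain ⟨x, hx, rfl⟩ := m3 p hp
      exact Or.inl ⟨x, hx, hg, hh⟩
    · obtain ⟨s, hs, rfl⟩ := m4 p hp
      exact Or.inr ⟨s, hs, hg, hh⟩
  have hMC : M ≤ ((n - C.card : ℕ) : ℝ) - 3 := by
    have h1 : (n : ℝ) - C.card ≤ ((n - C.card : ℕ) : ℝ) := by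
      rw [sub_le_iff_le_add]
      have : n ≤ (n - C.card) + C.card := by omega
      exact_mod_cast this
    linarith
  have hn3 : 3 ≤ n - C.card := by
    have h1 : (3 : ℝ) < ((n - C.card : ℕ) : ℝ) := by linarith
    have h2 : 3 < n - C.card := by exact_mod_cast h1
    omega
  apply extend G H C c1234.fst c1234.snd c1234.conf (T + dl + cA * D * D') dl W hdl
  · intro t ht
    have htB : t ∉ B := fun h => ht (i2 _ h)
    have hsub : univ.filter (fun r0 => r0 ∉ C.image Prod.fst ∧
        ∃ p ∈ C, G.Adj p.1 r0 ∧ H.Adj p.2 t) ⊆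
        ((X.filter (fun x => H.Adj (y x) t)).biUnion
          (fun x => univ.filter (fun r0 => G.Adj x r0))) ∪
        (XH.biUnion (fun s => univ.filter (fun r0 => G.Adj (r s) r0))) := by
      intro r0 hr0
      obtain ⟨_, h1, h2⟩ := Finset.mem_filter.mp hr0
      rcases hcov r0 t h1 ht h2 with ⟨x, hx, hg, hh⟩ | ⟨s, hs, hg, hh⟩
      · exact Finset.mem_union_left _ (Finset.mem_biUnion.mpr ⟨x, Finset.mem_filter.mpr
          ⟨hx, hh⟩, Finset.mem_filter.mpr ⟨Finset.mem_univ _, hg⟩⟩)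
      · exact Finset.mem_union_right _ (Finset.mem_biUnion.mpr ⟨s, hs, Finset.mem_filter.mpr
          ⟨Finset.mem_univ _, hg⟩⟩)
    have h1 := Finset.card_le_card hsub
    have h2 := h1.trans (Finset.card_union_le _ _)
    have h3 : ((univ.filter (fun r0 => r0 ∉ C.image Prod.fst ∧
        ∃ p ∈ C, G.Adj p.1 r0 ∧ H.Adj p.2 t)).card : ℝ) ≤
        (((X.filter (fun x => H.Adj (y x) t)).biUnion
          (fun x => univ.filter (fun r0 => G.Adj x r0))).card : ℝ) +
        ((XH.biUnion (fun s => univ.filter (fun r0 => G.Adj (r s) r0))).card : ℝ) := by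
      exact_mod_cast h2
    have h4 := card_biUnion_nbr_le G (X.filter (fun x => H.Adj (y x) t)) (fun x => x)
    have h5 := hy3 t htB
    rw [← Finset.sum_filter] at h5
    have h6 := card_biUnion_nbr_le G XH r
    have h7 : ∑ s ∈ XH, (dg G (r s) : ℝ) ≤ cA * D * D' := by
      calc ∑ s ∈ XH, (dg G (r s) : ℝ) ≤ ∑ _s ∈ XH, (D' : ℝ) :=
            Finset.sum_le_sum (fun s hs => by exact_mod_cast (hr1 s hs).2)
        _ = (XH.card : ℝ) * D' := by rw [Finset.sum_const, nsmul_eq_mul]
        _ ≤ _ := mul_le_mul_of_nonneg_right hXHc (Nat.cast_nonneg _)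
    linarith
  · intro r0 hr0
    have hrA : r0 ∉ A := fun h => hr0 (i1 _ h)
    have hsub : univ.filter (fun t => t ∉ C.image Prod.snd ∧
        ∃ p ∈ C, G.Adj p.1 r0 ∧ H.Adj p.2 t) ⊆
        ((XH.filter (fun s => G.Adj (r s) r0)).biUnion
          (fun s => univ.filter (fun t => H.Adj s t))) ∪
        (X.biUnion (fun x => univ.filter (fun t => H.Adj (y x) t))) := by
      intro t ht
      obtain ⟨_, h1, h2⟩ := Finset.mem_filter.mp ht
      rcases hcov r0 t hr0 h1 h2 with ⟨x, hx, hg, hh⟩ | ⟨s, hs, hg, hh⟩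
      · exact Finset.mem_union_right _ (Finset.mem_biUnion.mpr ⟨x, hx, Finset.mem_filter.mpr
          ⟨Finset.mem_univ _, hh⟩⟩)
      · exact Finset.mem_union_left _ (Finset.mem_biUnion.mpr ⟨s, Finset.mem_filter.mpr
          ⟨hs, hg⟩, Finset.mem_filter.mpr ⟨Finset.mem_univ _, hh⟩⟩)
    have h1 := Finset.card_le_card hsub
    have h2 := h1.trans (Finset.card_union_le _ _)
    have h3 : ((univ.filter (fun t => t ∉ C.image Prod.snd ∧
        ∃ p ∈ C, G.Adj p.1 r0 ∧ H.Adj p.2 t)).card : ℝ) ≤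
        (((XH.filter (fun s => G.Adj (r s) r0)).biUnion
          (fun s => univ.filter (fun t => H.Adj s t))).card : ℝ) +
        ((X.biUnion (fun x => univ.filter (fun t => H.Adj (y x) t))).card : ℝ) := by
      exact_mod_cast h2
    have h4 := card_biUnion_nbr_le H (XH.filter (fun s => G.Adj (r s) r0)) (fun x => x)
    have h5 := hr3 r0 hrA
    rw [← Finset.sum_filter] at h5
    have h6 := card_biUnion_nbr_le H X y
    have h7 : ∑ x ∈ X, (dg H (y x) : ℝ) ≤ cA * D * D' := by
      calc ∑ x ∈ X, (dg H (y x) : ℝ) ≤ ∑ _x ∈ X, (D' : ℝ) :=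
            Finset.sum_le_sum (fun x hx => by exact_mod_cast (hy1 x hx).2)
        _ = (X.card : ℝ) * D' := by rw [Finset.sum_const, nsmul_eq_mul]
        _ ≤ _ := mul_le_mul_of_nonneg_right hXc (Nat.cast_nonneg _)
    linarith
  · intro t ht
    exact hBdl t (fun h => ht (i2 _ h))
  · intro r0 hr0
    exact hAdl r0 (fun h => hr0 (i1 _ h))
  · exact hWH
  · exact hWG
  · omega
  · have hM1 : M ≤ ((n - C.card : ℕ) : ℝ) := by linarith
    have hM2 : M * M ≤ (((n - C.card) * (n - C.card - 1) : ℕ) : ℝ) := by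
      have h1 : ((n - C.card - 1 : ℕ) : ℝ) = ((n - C.card : ℕ) : ℝ) - 1 := by
        rw [Nat.cast_sub (by omega)]
        norm_num
      rw [Nat.cast_mul, h1]
      apply mul_le_mul hM1 (by linarith) hM.le (by linarith)
    have hF0 : 0 ≤ T + dl + cA * D * D' := by positivity
    have hW0 : 0 ≤ W := le_trans (Nat.cast_nonneg _) hWG
    have h3 : (T + dl + cA * D * D') / ((n - C.card : ℕ) : ℝ) ≤ (T + dl + cA * D * D') / M :=
      div_le_div_of_nonneg_left hF0 hM hM1
    have h4 : 2 * (dl * W) / (((n - C.card) * (n - C.card - 1) : ℕ) : ℝ) ≤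
        2 * (dl * W) / (M * M) :=
      div_le_div_of_nonneg_left (by positivity) (by positivity) hM2
    linarith

end Pool.Agent.Helper852.Grd
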