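import Pool.Agent.Helper852.Counting

set_option autoImplicit false

/-!
Averaging over the bipartite patterns between a fixed set and its complement.
-/

namespace Pool.Agent.Helper852.Cnt

open Finset Classical

variable {n : ℕ}

/-- The vertices outside of the range of `ι`. -/
abbrev Out {A : Finset (Fin n)} (ι : A → Fin n) : Type := {y : Fin n // y ∉ Set.range ι}

/-- The adjacency pattern of `y` towards the image of `ι`. -/
noncomputable def pat {A : Finset (Fin n)} (ι : A → Fin n) (K : SimpleGraph (Fin n))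
    (y : Out ι) (u : A) : Bool := decide (K.Adj y.1 (ι u))

/-- The bipartite graph with prescribed patterns. -/
def cross {A : Finset (Fin n)} (ι : A → Fin n) (φ : Out ι → A → Bool) :
    SimpleGraph (Fin n) where
  Adj x y := ∃ (u : A) (z : Out ι), ((x = ι u ∧ y = z.1) ∨ (y = ι u ∧ x = z.1)) ∧ φ z u = true
  symm := ⟨by
    rintro x y ⟨u, z, h, hφ⟩
    exact ⟨u, z, h.symm, hφ⟩⟩
  loopless := ⟨by
    rintro x ⟨u, z, h, hφ⟩
    rcases h with ⟨h1, h2⟩ | ⟨h1, h2⟩
    · exact z.2 ⟨u, by rw [← h1, h2]⟩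
    · exact z.2 ⟨u, by rw [← h1, h2]⟩⟩

theorem cross_adj {A : Finset (Fin n)} (ι : A → Fin n) (hι : Function.Injective ι)
    (φ : Out ι → A → Bool) (y : Out ι) (u : A) :
    (cross ι φ).Adj y.1 (ι u) ↔ φ y u = true := by
  constructor
  · rintro ⟨u', z, h, hφ⟩
    rcases h with ⟨h1, h2⟩ | ⟨h1, h2⟩
    · exact absurd ⟨u', h1.symm⟩ y.2
    · have : u = u' := hι h1
      have h3 : y = z := Subtype.ext h2
      rw [this, h3]
      exact hφ
  · intro h
    exact ⟨u, y, Or.inr ⟨rfl, rfl⟩, h⟩

theorem pat_symmDiff {A : Finset (Fin n)} (ι : A → Fin n) (hι : Function.Injective ι)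
    (φ : Out ι → A → Bool) (K : SimpleGraph (Fin n)) (y : Out ι) (u : A) :
    pat ι (symmDiff K (cross ι φ)) y u = xor (pat ι K y u) (φ y u) := by
  have h1 : (symmDiff K (cross ι φ)).Adj y.1 (ι u) ↔
      (K.Adj y.1 (ι u) ∧ ¬ (cross ι φ).Adj y.1 (ι u)) ∨
        ((cross ι φ).Adj y.1 (ι u) ∧ ¬ K.Adj y.1 (ι u)) := by
    rw [symmDiff_def, SimpleGraph.sup_adj, SimpleGraph.sdiff_adj, SimpleGraph.sdiff_adj]
  rw [cross_adj ι hι] at h1
  unfold pat
  by_cases hK : K.Adj y.1 (ι u)
  · by_cases hφ : φ y u = true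
    · have : ¬ (symmDiff K (cross ι φ)).Adj y.1 (ι u) := by
        rw [h1]; simp [hK, hφ]
      simp [this, hK, hφ]
    · have : (symmDiff K (cross ι φ)).Adj y.1 (ι u) := by
        rw [h1]; simp [hK, hφ]
      simp [this, hK, hφ]
  · by_cases hφ : φ y u = true
    · have : (symmDiff K (cross ι φ)).Adj y.1 (ι u) := by
        rw [h1]; simp [hK, hφ]
      simp [this, hK, hφ]
    · have : ¬ (symmDiff K (cross ι φ)).Adj y.1 (ι u) := by
        rw [h1]; simp [hK, hφ]
      simp [this, hK, hφ]

theorem avg {A : Finset (Fin n)} (ι : A → Fin n) (hι : Function.Injective ι)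
    (F : (Out ι → A → Bool) → ℝ) :
    (Fintype.card (Out ι → A → Bool) : ℝ) * ∑ K : SimpleGraph (Fin n), F (pat ι K) =
      (Fintype.card (SimpleGraph (Fin n)) : ℝ) * ∑ ψ : Out ι → A → Bool, F ψ := by
  have h1 : ∀ φ : Out ι → A → Bool, ∑ K : SimpleGraph (Fin n), F (pat ι K) =
      ∑ K : SimpleGraph (Fin n), F (fun y u => xor (pat ι K y u) (φ y u)) := by
    intro φ
    have hinv : Function.Involutive (fun K : SimpleGraph (Fin n) => symmDiff K (cross ι φ)) := by
      intro K
      exact symmDiff_symmDiff_cancel_right _ _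
    rw [← Equiv.sum_comp hinv.toPerm (fun K => F (pat ι K))]
    apply Finset.sum_congr rfl
    intro K _
    congr 1
    funext y u
    exact pat_symmDiff ι hι φ K y u
  have h2 : ∀ K : SimpleGraph (Fin n),
      ∑ φ : Out ι → A → Bool, F (fun y u => xor (pat ι K y u) (φ y u)) =
      ∑ ψ : Out ι → A → Bool, F ψ := by
    intro K
    have hinv : Function.Involutive
        (fun φ : Out ι → A → Bool => fun y u => xor (pat ι K y u) (φ y u)) := by
      intro φ
      funext y u
      simp
    exact Equiv.sum_comp hinv.toPerm F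
  calc (Fintype.card (Out ι → A → Bool) : ℝ) * ∑ K : SimpleGraph (Fin n), F (pat ι K)
      = ∑ _φ : Out ι → A → Bool, ∑ K : SimpleGraph (Fin n), F (pat ι K) := by
        rw [Finset.sum_const, nsmul_eq_mul, Finset.card_univ]
    _ = ∑ φ : Out ι → A → Bool, ∑ K : SimpleGraph (Fin n),
          F (fun y u => xor (pat ι K y u) (φ y u)) :=
        Finset.sum_congr rfl (fun φ _ => h1 φ)
    _ = ∑ K : SimpleGraph (Fin n), ∑ φ : Out ι → A → Bool,
          F (fun y u => xor (pat ι K y u) (φ y u)) := Finset.sum_comm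
    _ = ∑ _K : SimpleGraph (Fin n), ∑ ψ : Out ι → A → Bool, F ψ :=
        Finset.sum_congr rfl (fun K _ => h2 K)
    _ = _ := by rw [Finset.sum_const, nsmul_eq_mul, Finset.card_univ]

theorem card_out {A : Finset (Fin n)} (ι : A → Fin n) (hι : Function.Injective ι) :
    Fintype.card (Out ι) = n - A.card := by
  have h := Fintype.card_subtype_compl (fun y : Fin n => y ∈ Set.range ι)
  rw [Fintype.card_fin] at h
  have h2 : Fintype.card {y : Fin n // y ∈ Set.range ι} = A.card := by
    have := Set.card_range_of_injective hι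
    rw [Fintype.card_coe] at this
    rw [← this]
  rw [h2] at h
  exact h

/-- Weighted count of graphs, for a product weight. -/
theorem avg_prod {A : Finset (Fin n)} (ι : A → Fin n) (hι : Function.Injective ι)
    (w : (A → Bool) → ℝ) :
    ((2 : ℝ) ^ A.card) ^ (n - A.card) * ∑ K : SimpleGraph (Fin n), ∏ y, w (pat ι K y) =
      (Fintype.card (SimpleGraph (Fin n)) : ℝ) * (∑ S : A → Bool, w S) ^ (n - A.card) := by
  have h := avg ι hι (fun ψ => ∏ y, w (ψ y))
  have h1 : ∑ ψ : Out ι → A → Bool, ∏ y, w (ψ y) = (∑ S : A → Bool, w S) ^ (n - A.card) := by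
    have := Finset.prod_univ_sum (fun _ : Out ι => (univ : Finset (A → Bool)))
      (fun _ S => w S)
    rw [Fintype.piFinset_univ] at this
    rw [← this, Finset.prod_const, Finset.card_univ, card_out ι hι]
  rw [h1] at h
  rw [← h]
  congr 1
  rw [Fintype.card_fun, Fintype.card_fun, Fintype.card_bool, card_out ι hι, Fintype.card_coe]
  push_cast
  rfl

/-- The bad patterns. -/
noncomputable def Bad (G : SimpleGraph (Fin n)) (A X : Finset (Fin n)) : Finset (A → Bool) :=
  univ.filter (fun S => ∀ z, z ∉ A → z ∉ X → ∃ u : A, G.Adj z u.1 ∧ S u = false)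

/-- For a fixed placement of `A`, count the graphs with few bad vertices. -/
theorem few_bad {A : Finset (Fin n)} (ι : A → Fin n) (hι : Function.Injective ι)
    (B : Finset (A → Bool)) (s : ℕ) :
    ((univ.filter (fun K : SimpleGraph (Fin n) =>
      (univ.filter (fun y : Out ι => pat ι K y ∈ B)).card ≤ s)).card : ℝ) ≤
      2 ^ s * ((Fintype.card (SimpleGraph (Fin n)) : ℝ) *
        (1 - (B.card : ℝ) / (2 * 2 ^ A.card)) ^ (n - A.card)) := by
  set w : (A → Bool) → ℝ := fun S => if S ∈ B then 1 / 2 else 1 with hw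
  have hwpos : ∀ S, 0 < w S := by
    intro S
    simp only [hw]
    split_ifs <;> norm_num
  have h1 : ∀ K : SimpleGraph (Fin n),
      (univ.filter (fun y : Out ι => pat ι K y ∈ B)).card ≤ s →
      (1 : ℝ) ≤ 2 ^ s * ∏ y, w (pat ι K y) := by
    intro K hK
    have h2 : ∏ y, w (pat ι K y) =
        (1 / 2 : ℝ) ^ (univ.filter (fun y : Out ι => pat ι K y ∈ B)).card := by
      simp only [hw]
      rw [Finset.prod_ite, Finset.prod_const, Finset.prod_const_one, mul_one]
    rw [h2]
    have h3 : (1 / 2 : ℝ) ^ s ≤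
        (1 / 2 : ℝ) ^ (univ.filter (fun y : Out ι => pat ι K y ∈ B)).card :=
      pow_le_pow_of_le_one (by norm_num) (by norm_num) hK
    calc (1 : ℝ) = 2 ^ s * (1 / 2) ^ s := by rw [← mul_pow]; norm_num
      _ ≤ _ := mul_le_mul_of_nonneg_left h3 (by positivity)
  have h4 : ((univ.filter (fun K : SimpleGraph (Fin n) =>
      (univ.filter (fun y : Out ι => pat ι K y ∈ B)).card ≤ s)).card : ℝ) ≤
      2 ^ s * ∑ K : SimpleGraph (Fin n), ∏ y, w (pat ι K y) := by
    rw [Finset.mul_sum]
    calc ((univ.filter (fun K : SimpleGraph (Fin n) =>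
          (univ.filter (fun y : Out ι => pat ι K y ∈ B)).card ≤ s)).card : ℝ)
        = ∑ _K ∈ univ.filter (fun K : SimpleGraph (Fin n) =>
          (univ.filter (fun y : Out ι => pat ι K y ∈ B)).card ≤ s), (1 : ℝ) := by
            rw [Finset.sum_const, nsmul_eq_mul, mul_one]
      _ ≤ ∑ K ∈ univ.filter (fun K : SimpleGraph (Fin n) =>
          (univ.filter (fun y : Out ι => pat ι K y ∈ B)).card ≤ s),
            2 ^ s * ∏ y, w (pat ι K y) :=
          Finset.sum_le_sum (fun K hK => h1 K (Finset.mem_filter.mp hK).2)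
      _ ≤ ∑ K : SimpleGraph (Fin n), 2 ^ s * ∏ y, w (pat ι K y) := by
          apply Finset.sum_le_sum_of_subset_of_nonneg (Finset.filter_subset _ _)
          intro K _ _
          exact mul_nonneg (by positivity) (Finset.prod_nonneg (fun y _ => (hwpos _).le))
  refine h4.trans ?_
  apply mul_le_mul_of_nonneg_left _ (by positivity)
  have h5 := avg_prod ι hι w
  have h6 : ∑ S : A → Bool, w S = 2 ^ A.card * (1 - (B.card : ℝ) / (2 * 2 ^ A.card)) := by
    have h7 : ∀ S, w S = 1 - (if S ∈ B then (1 / 2 : ℝ) else 0) := by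
      intro S
      simp only [hw]
      split_ifs <;> norm_num
    rw [Finset.sum_congr rfl (fun S _ => h7 S), Finset.sum_sub_distrib, Finset.sum_const,
      nsmul_eq_mul, mul_one, Finset.card_univ, Fintype.card_fun, Fintype.card_bool,
      Fintype.card_coe, Finset.sum_ite_mem, Finset.univ_inter, Finset.sum_const, nsmul_eq_mul]
    have : (2 : ℝ) ^ A.card ≠ 0 := by positivity
    push_cast
    field_simp
  rw [h6, mul_pow] at h5
  have h8 : (0 : ℝ) < ((2 : ℝ) ^ A.card) ^ (n - A.card) := by positivity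
  have h9 : ((2 : ℝ) ^ A.card) ^ (n - A.card) * ∑ K : SimpleGraph (Fin n), ∏ y, w (pat ι K y) =
      ((2 : ℝ) ^ A.card) ^ (n - A.card) * ((Fintype.card (SimpleGraph (Fin n)) : ℝ) *
        (1 - (B.card : ℝ) / (2 * 2 ^ A.card)) ^ (n - A.card)) := by
    rw [h5]; ring
  exact (mul_left_cancel₀ h8.ne' h9).le

/-- The general counting bound. -/
theorem cont_bad (G : SimpleGraph (Fin n)) (A X : Finset (Fin n)) :
    ((Cont G).card : ℝ) ≤ (n : ℝ) ^ A.card * (2 ^ X.card *
      ((Fintype.card (SimpleGraph (Fin n)) : ℝ) *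
        (1 - ((Bad G A X).card : ℝ) / (2 * 2 ^ A.card)) ^ (n - A.card))) := by
  have h1 : Cont G ⊆ (univ.filter (fun ι : A → Fin n => Function.Injective ι)).biUnion
      (fun ι => univ.filter (fun K : SimpleGraph (Fin n) =>
        (univ.filter (fun y : Out ι => pat ι K y ∈ Bad G A X)).card ≤ X.card)) := by
    intro K hK
    obtain ⟨f, hf, hK⟩ := (Finset.mem_filter.mp hK).2
    refine Finset.mem_biUnion.mpr ⟨fun u : A => f u.1, Finset.mem_filter.mpr
      ⟨Finset.mem_univ _, fun u v h => Subtype.ext (hf h)⟩,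
      Finset.mem_filter.mpr ⟨Finset.mem_univ _, ?_⟩⟩
    -- map bad vertices to X
    have hsurj : Function.Surjective f := Finite.surjective_of_injective hf
    have hsub : (univ.filter (fun y : Out (fun u : A => f u.1) =>
        pat (fun u : A => f u.1) K y ∈ Bad G A X)).image (fun y => y.1) ⊆ X.image f := by
      intro y hy
      rw [Finset.mem_image] at hy
      obtain ⟨y', hy', rfl⟩ := hy
      have hbad := (Finset.mem_filter.mp hy').2
      obtain ⟨z, hz⟩ := hsurj y'.1
      have hzA : z ∉ A := by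
        intro hzA
        exact y'.2 ⟨⟨z, hzA⟩, hz⟩
      rw [Finset.mem_image]
      refine ⟨z, ?_, hz⟩
      by_contra hzX
      obtain ⟨u, hu1, hu2⟩ := (Finset.mem_filter.mp hbad).2 z hzA hzX
      have h3 := hK z u.1 hu1
      rw [hz] at h3
      unfold pat at hu2
      rw [decide_eq_false_iff_not] at hu2
      exact hu2 h3
    have h2 := Finset.card_le_card hsub
    rw [Finset.card_image_of_injective _ Subtype.val_injective] at h2
    exact h2.trans Finset.card_image_le
  have h2 : ((Cont G).card : ℝ) ≤ ∑ ι ∈ univ.filter (fun ι : A → Fin n => Function.Injective ι),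
      ((univ.filter (fun K : SimpleGraph (Fin n) =>
        (univ.filter (fun y : Out ι => pat ι K y ∈ Bad G A X)).card ≤ X.card)).card : ℝ) := by
    have := (Finset.card_le_card h1).trans Finset.card_biUnion_le
    exact_mod_cast this
  refine h2.trans ?_
  have hbc : ((Bad G A X).card : ℝ) ≤ 2 ^ A.card := by
    have := Finset.card_le_univ (Bad G A X)
    rw [Fintype.card_fun, Fintype.card_bool, Fintype.card_coe] at this
    exact_mod_cast this
  have hnn : (0 : ℝ) ≤ 1 - ((Bad G A X).card : ℝ) / (2 * 2 ^ A.card) := by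
    have h3 : (0 : ℝ) < 2 ^ A.card := by positivity
    rw [sub_nonneg, div_le_one (by positivity)]
    linarith
  calc ∑ ι ∈ univ.filter (fun ι : A → Fin n => Function.Injective ι),
      ((univ.filter (fun K : SimpleGraph (Fin n) =>
        (univ.filter (fun y : Out ι => pat ι K y ∈ Bad G A X)).card ≤ X.card)).card : ℝ)
      ≤ ∑ _ι ∈ univ.filter (fun ι : A → Fin n => Function.Injective ι), (2 ^ X.card *
      ((Fintype.card (SimpleGraph (Fin n)) : ℝ) *
        (1 - ((Bad G A X).card : ℝ) / (2 * 2 ^ A.card)) ^ (n - A.card))) :=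
        Finset.sum_le_sum (fun ι hι =>
          few_bad ι (Finset.mem_filter.mp hι).2 (Bad G A X) X.card)
    _ ≤ ∑ _ι : A → Fin n, (2 ^ X.card *
      ((Fintype.card (SimpleGraph (Fin n)) : ℝ) *
        (1 - ((Bad G A X).card : ℝ) / (2 * 2 ^ A.card)) ^ (n - A.card))) := by
        apply Finset.sum_le_sum_of_subset_of_nonneg (Finset.filter_subset _ _)
        intro _ _ _
        positivity
    _ = _ := by
        rw [Finset.sum_const, nsmul_eq_mul, Finset.card_univ, Fintype.card_fun,
          Fintype.card_fin, Fintype.card_coe]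
        push_cast
        rfl

end Pool.Agent.Helper852.Cnt
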