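import Pool.Agent.Helper852.Averaging

set_option autoImplicit false

/-!
Consequences of the counting bounds for graphs which are likely to be contained in the
random graph.
-/

namespace Pool.Agent.Helper852.Cnt

open Finset Classical

variable {n : ℕ}

/-- The deterministic properties that we use. -/
structure Good (q : ℕ) (G : SimpleGraph (Fin n)) : Prop where
  edges : ∑ v, dg G v ≤ 2 * (q * (n + 1))
  bad : ∀ A X : Finset (Fin n), 10 * ((Bad G A X).card * (n - A.card)) ≤
    2 ^ A.card * (14 * X.card + 20 * ((A.card + 1) * q))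

theorem good_of_likely (G : SimpleGraph (Fin n)) (q : ℕ) (α : ℝ) (hα : 0 < α)
    (hn : n ≤ 2 ^ q) (hq : 1 ≤ α * 2 ^ q)
    (h : α ≤ ((Cont G).card : ℝ) / (Fintype.card (SimpleGraph (Fin n)) : ℝ)) : Good q G := by
  have hN : (0 : ℝ) < (Fintype.card (SimpleGraph (Fin n)) : ℝ) := by
    exact_mod_cast Fintype.card_pos
  have h1 : α * (Fintype.card (SimpleGraph (Fin n)) : ℝ) ≤ ((Cont G).card : ℝ) := by
    rwa [le_div_iff₀ hN] at h
  have hn' : (n : ℝ) ≤ 2 ^ q := by exact_mod_cast hn
  constructor
  · rw [sum_dg]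
    apply Nat.mul_le_mul_left
    have h2 : ((Cont G).card : ℝ) * 2 ^ (G.edgeFinset.card) ≤
        (n : ℝ) ^ n * (Fintype.card (SimpleGraph (Fin n)) : ℝ) := by
      exact_mod_cast cont_bound G
    have h3 : α * 2 ^ (G.edgeFinset.card) ≤ (n : ℝ) ^ n := by
      have h4 : (α * 2 ^ (G.edgeFinset.card)) * (Fintype.card (SimpleGraph (Fin n)) : ℝ) ≤
          (n : ℝ) ^ n * (Fintype.card (SimpleGraph (Fin n)) : ℝ) := by
        calc (α * 2 ^ (G.edgeFinset.card)) * (Fintype.card (SimpleGraph (Fin n)) : ℝ)
            = (α * (Fintype.card (SimpleGraph (Fin n)) : ℝ)) * 2 ^ (G.edgeFinset.card) := by ring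
          _ ≤ ((Cont G).card : ℝ) * 2 ^ (G.edgeFinset.card) :=
              mul_le_mul_of_nonneg_right h1 (by positivity)
          _ ≤ _ := h2
      exact le_of_mul_le_mul_right h4 hN
    have h5 : (2 : ℝ) ^ (G.edgeFinset.card) ≤ 2 ^ (q * (n + 1)) := by
      calc (2 : ℝ) ^ (G.edgeFinset.card) = 1 * 2 ^ (G.edgeFinset.card) := (one_mul _).symm
        _ ≤ (α * 2 ^ q) * 2 ^ (G.edgeFinset.card) :=
            mul_le_mul_of_nonneg_right hq (by positivity)
        _ = 2 ^ q * (α * 2 ^ (G.edgeFinset.card)) := by ring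
        _ ≤ 2 ^ q * (n : ℝ) ^ n := mul_le_mul_of_nonneg_left h3 (by positivity)
        _ ≤ 2 ^ q * (2 ^ q) ^ n := by
            apply mul_le_mul_of_nonneg_left _ (by positivity)
            exact pow_le_pow_left₀ (Nat.cast_nonneg _) hn' n
        _ = 2 ^ (q * (n + 1)) := by rw [← pow_mul, ← pow_add]; ring_nf
    exact (pow_le_pow_iff_right₀ (by norm_num : (1 : ℝ) < 2)).mp h5
  · intro A X
    set a := A.card with ha
    set s := X.card with hs
    set m := n - a with hm
    set b := (Bad G A X).card with hb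
    have h2 := cont_bad G A X
    rw [← ha, ← hs, ← hm, ← hb] at h2
    have hbc : (b : ℝ) ≤ 2 ^ a := by
      have := Finset.card_le_univ (Bad G A X)
      rw [Fintype.card_fun, Fintype.card_bool, Fintype.card_coe] at this
      exact_mod_cast this
    have h2a : (0 : ℝ) < 2 ^ a := by positivity
    set x : ℝ := (b : ℝ) / (2 * 2 ^ a) with hx
    have hx1 : x ≤ 1 := by
      rw [hx, div_le_one (by positivity)]
      linarith
    have h3 : α ≤ (n : ℝ) ^ a * (2 ^ s * (1 - x) ^ m) := by
      have h4 : α * (Fintype.card (SimpleGraph (Fin n)) : ℝ) ≤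
          ((n : ℝ) ^ a * (2 ^ s * (1 - x) ^ m)) *
            (Fintype.card (SimpleGraph (Fin n)) : ℝ) := by
        refine h1.trans (h2.trans (le_of_eq ?_))
        ring
      exact le_of_mul_le_mul_right h4 hN
    have h4 : (1 - x) ^ m ≤ Real.exp (-(x * m)) := by
      have h5 : 1 - x ≤ Real.exp (-x) := by
        have := Real.add_one_le_exp (-x)
        linarith
      calc (1 - x) ^ m ≤ (Real.exp (-x)) ^ m := pow_le_pow_left₀ (by linarith) h5 m
        _ = Real.exp (-(x * m)) := by
            rw [← Real.exp_nat_mul]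
            congr 1
            ring
    have h6 : Real.exp (x * m) ≤ Real.exp (Real.log 2 * (q * (a + 1) + s)) := by
      have h7 : (1 : ℝ) ≤ 2 ^ q * (2 ^ (q * a) * (2 ^ s * Real.exp (-(x * m)))) := by
        calc (1 : ℝ) ≤ α * 2 ^ q := hq
          _ = 2 ^ q * α := mul_comm _ _
          _ ≤ 2 ^ q * ((n : ℝ) ^ a * (2 ^ s * (1 - x) ^ m)) :=
              mul_le_mul_of_nonneg_left h3 (by positivity)
          _ ≤ 2 ^ q * (2 ^ (q * a) * (2 ^ s * Real.exp (-(x * m)))) := by
              apply mul_le_mul_of_nonneg_left _ (by positivity)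
              apply mul_le_mul
              · rw [pow_mul]
                exact pow_le_pow_left₀ (Nat.cast_nonneg _) hn' a
              · exact mul_le_mul_of_nonneg_left h4 (by positivity)
              · apply mul_nonneg (by positivity)
                exact pow_nonneg (by linarith) _
              · positivity
      have h8 : Real.exp (Real.log 2 * (q * (a + 1) + s)) = 2 ^ q * (2 ^ (q * a) * 2 ^ s) := by
        rw [← pow_add, ← pow_add, mul_comm]
        have : ((q : ℝ) * (a + 1) + s) = ((q + (q * a + s) : ℕ) : ℝ) := by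
          push_cast; ring
        rw [this, Real.exp_nat_mul, Real.exp_log (by norm_num)]
      rw [h8]
      have h9 : Real.exp (x * m) * Real.exp (-(x * m)) = 1 := by
        rw [← Real.exp_add]; simp
      have h10 : 0 < Real.exp (x * m) := Real.exp_pos _
      calc Real.exp (x * m) = Real.exp (x * m) * 1 := (mul_one _).symm
        _ ≤ Real.exp (x * m) * (2 ^ q * (2 ^ (q * a) * (2 ^ s * Real.exp (-(x * m))))) :=
            mul_le_mul_of_nonneg_left h7 h10.le
        _ = (Real.exp (x * m) * Real.exp (-(x * m))) * (2 ^ q * (2 ^ (q * a) * 2 ^ s)) := by ring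
        _ = _ := by rw [h9, one_mul]
    have h11 : x * m ≤ Real.log 2 * (q * (a + 1) + s) := Real.exp_le_exp.mp h6
    have h12 : Real.log 2 ≤ 0.7 := by
      have := Real.log_two_lt_d9
      norm_num at this ⊢
      linarith
    have h13 : x * m ≤ 0.7 * (q * (a + 1) + s) := by
      refine h11.trans (mul_le_mul_of_nonneg_right h12 (by positivity))
    have h14 : (b : ℝ) * m ≤ 2 ^ a * (1.4 * (q * (a + 1) + s)) := by
      have h15 : x * (2 * 2 ^ a) = b := by
        rw [hx]; field_simp
      calc (b : ℝ) * m = (x * m) * (2 * 2 ^ a) := by rw [← h15]; ring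
        _ ≤ (0.7 * (q * (a + 1) + s)) * (2 * 2 ^ a) :=
            mul_le_mul_of_nonneg_right h13 (by positivity)
        _ = _ := by ring
    have h16 : (10 * ((b : ℝ) * m)) ≤ 2 ^ a * (14 * s + 20 * ((a + 1) * q)) := by
      calc (10 * ((b : ℝ) * m)) ≤ 10 * (2 ^ a * (1.4 * (q * (a + 1) + s))) := by linarith
        _ = 2 ^ a * (14 * s + 14 * ((a + 1) * q)) := by ring
        _ ≤ 2 ^ a * (14 * s + 20 * ((a + 1) * q)) := by
            apply mul_le_mul_of_nonneg_left _ (by positivity)
            have : (0 : ℝ) ≤ (a + 1) * q := by positivity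
            linarith
    exact_mod_cast h16

/-- The maximum degree of a good graph. -/
theorem Good.maxdeg {q : ℕ} {G : SimpleGraph (Fin n)} (hG : Good q G) (v : Fin n) :
    14 * dg G v ≤ 9 * n + 40 * q := by
  have h := hG.bad {v} (univ.filter (fun z => z ≠ v ∧ ¬ G.Adj z v))
  rw [Finset.card_singleton] at h
  have h1 : 1 ≤ (Bad G {v} (univ.filter (fun z => z ≠ v ∧ ¬ G.Adj z v))).card := by
    rw [Nat.one_le_iff_ne_zero, ← Nat.pos_iff_ne_zero, Finset.card_pos]
    refine ⟨fun _ => false, Finset.mem_filter.mpr ⟨Finset.mem_univ _, ?_⟩⟩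
    intro z hz1 hz2
    refine ⟨⟨v, Finset.mem_singleton_self v⟩, ?_, rfl⟩
    by_contra hadj
    apply hz2
    rw [Finset.mem_filter]
    exact ⟨Finset.mem_univ _, fun h => hz1 (by rw [h]; exact Finset.mem_singleton_self v), hadj⟩
  have h2 : (univ.filter (fun z => z ≠ v ∧ ¬ G.Adj z v)).card + dg G v + 1 = n := by
    have h3 : (univ.filter (fun z => z ≠ v ∧ ¬ G.Adj z v)) ∪
        ((univ.filter (fun z => G.Adj v z)) ∪ {v}) = univ := by
      ext z
      simp only [Finset.mem_union, Finset.mem_filter, Finset.mem_univ, true_and,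
        Finset.mem_singleton, iff_true]
      by_cases hz : z = v
      · exact Or.inr (Or.inr hz)
      · by_cases ha : G.Adj z v
        · exact Or.inr (Or.inl ha.symm)
        · exact Or.inl ⟨hz, ha⟩
    have h4 : Disjoint (univ.filter (fun z => G.Adj v z)) {v} := by
      rw [Finset.disjoint_singleton_right]
      simp
    have h5 : Disjoint (univ.filter (fun z => z ≠ v ∧ ¬ G.Adj z v))
        ((univ.filter (fun z => G.Adj v z)) ∪ {v}) := by
      rw [Finset.disjoint_left]
      intro z hz hz'
      rw [Finset.mem_filter] at hz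
      rw [Finset.mem_union, Finset.mem_filter, Finset.mem_singleton] at hz'
      rcases hz' with h | h
      · exact hz.2.2 h.2.symm
      · exact hz.2.1 h
    have h6 := congrArg Finset.card h3
    rw [Finset.card_union_of_disjoint h5, Finset.card_union_of_disjoint h4,
      Finset.card_singleton, Finset.card_univ, Fintype.card_fin] at h6
    unfold dg
    omega
  have h7 : 10 * (1 * (n - 1)) ≤ 2 ^ 1 *
      (14 * (univ.filter (fun z => z ≠ v ∧ ¬ G.Adj z v)).card + 20 * ((1 + 1) * q)) := by
    refine le_trans ?_ h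
    apply Nat.mul_le_mul_left
    exact Nat.mul_le_mul_right _ h1
  omega

end Pool.Agent.Helper852.Cnt
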