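import Pool.Agent.Helper852.Select

set_option autoImplicit false

/-!
Combining the two selections through one random relation.
-/

namespace Pool.Agent.Helper852.Sel

open Finset Classical Pool.Agent.Helper852.Cnt

variable {n : ℕ}

theorem count_fst {Ω Ω1 T1 : Type} [Fintype Ω] [Fintype Ω1] [Fintype T1] (e : Ω ≃ Ω1 × T1)
    (g1 : Ω1 → Prop) :
    (univ.filter (fun ω : Ω => g1 (e ω).1)).card =
      (univ.filter (fun x : Ω1 => g1 x)).card * Fintype.card T1 := by
  have h1 : (univ.filter (fun ω : Ω => g1 (e ω).1)).card =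
      ((univ.filter (fun x : Ω1 => g1 x)) ×ˢ (univ : Finset T1)).card := by
    apply Finset.card_bij (fun ω _ => e ω)
    · intro ω hω
      rw [Finset.mem_product]
      exact ⟨Finset.mem_filter.mpr ⟨Finset.mem_univ _, (Finset.mem_filter.mp hω).2⟩,
        Finset.mem_univ _⟩
    · intro ω _ ω' _ h
      exact e.injective h
    · intro x hx
      refine ⟨e.symm x, ?_, e.apply_symm_apply x⟩
      rw [Finset.mem_filter, e.apply_symm_apply]
      exact ⟨Finset.mem_univ _, (Finset.mem_filter.mp (Finset.mem_product.mp hx).1).2⟩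
  rw [h1, Finset.card_product, Finset.card_univ]

theorem exists_both {Ω Ω1 Ω2 T1 T2 : Type} [Fintype Ω] [Fintype Ω1] [Fintype Ω2]
    [Fintype T1] [Fintype T2] [Nonempty T1] [Nonempty T2]
    (e : Ω ≃ Ω1 × T1) (f : Ω ≃ Ω2 × T2) (g1 : Ω1 → Prop) (g2 : Ω2 → Prop)
    (h1 : 2 * (univ.filter (fun x => ¬ g1 x)).card < Fintype.card Ω1)
    (h2 : 2 * (univ.filter (fun x => ¬ g2 x)).card < Fintype.card Ω2) :
    ∃ ω, g1 (e ω).1 ∧ g2 (f ω).1 := by
  by_contra hcon
  push Not at hcon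
  have hcov : (univ : Finset Ω) ⊆ univ.filter (fun ω => ¬ g1 (e ω).1) ∪
      univ.filter (fun ω => ¬ g2 (f ω).1) := by
    intro ω _
    rw [Finset.mem_union]
    by_cases h : g1 (e ω).1
    · exact Or.inr (Finset.mem_filter.mpr ⟨Finset.mem_univ _, hcon ω h⟩)
    · exact Or.inl (Finset.mem_filter.mpr ⟨Finset.mem_univ _, h⟩)
  have h3 := (Finset.card_le_card hcov).trans (Finset.card_union_le _ _)
  have c1 : (univ.filter (fun ω : Ω => ¬ g1 (e ω).1)).card =
      (univ.filter (fun x : Ω1 => ¬ g1 x)).card * Fintype.card T1 := by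
    convert count_fst e (fun x => ¬ g1 x)
  have c2 : (univ.filter (fun ω : Ω => ¬ g2 (f ω).1)).card =
      (univ.filter (fun x : Ω2 => ¬ g2 x)).card * Fintype.card T2 := by
    convert count_fst f (fun x => ¬ g2 x)
  rw [c1, c2, Finset.card_univ] at h3
  have h4 : Fintype.card Ω = Fintype.card Ω1 * Fintype.card T1 := by
    rw [Fintype.card_congr e, Fintype.card_prod]
  have h5 : Fintype.card Ω = Fintype.card Ω2 * Fintype.card T2 := by
    rw [Fintype.card_congr f, Fintype.card_prod]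
  have p1 : 0 < Fintype.card T1 := Fintype.card_pos
  have p2 : 0 < Fintype.card T2 := Fintype.card_pos
  have h6 := Nat.mul_lt_mul_of_pos_right h1 p1
  have h7 := Nat.mul_lt_mul_of_pos_right h2 p2
  rw [← h4] at h6
  rw [← h5] at h7
  have e1 : 2 * (univ.filter (fun x => ¬ g1 x)).card * Fintype.card T1 =
    2 * ((univ.filter (fun x => ¬ g1 x)).card * Fintype.card T1) := by ring
  have e2 : 2 * (univ.filter (fun x => ¬ g2 x)).card * Fintype.card T2 =
    2 * ((univ.filter (fun x => ¬ g2 x)).card * Fintype.card T2) := by ring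
  omega

/-- Splitting the sample space, first side. -/
def eG {A B : Finset (Fin n)} (m m' : ℕ) :
    ((A → B → Bool) × (B → Fin m) × (A → Fin m')) ≃
      (B → (A → Bool) × Fin m) × (A → Fin m') where
  toFun x := (fun w => (fun u => x.1 u w, x.2.1 w), x.2.2)
  invFun y := (fun u w => (y.1 w).1 u, fun w => (y.1 w).2, y.2)
  left_inv _ := rfl
  right_inv _ := rfl

/-- Splitting the sample space, second side. -/
def eH {A B : Finset (Fin n)} (m m' : ℕ) :
    ((A → B → Bool) × (B → Fin m) × (A → Fin m')) ≃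
      (A → (B → Bool) × Fin m') × (B → Fin m) where
  toFun x := (fun u => (fun w => !(x.1 u w), x.2.2 u), x.2.1)
  invFun y := (fun u w => !((y.1 u).1 w), y.2, fun u => (y.1 u).2)
  left_inv x := by
    ext <;> simp
  right_inv y := by
    obtain ⟨y1, y2⟩ := y
    apply Prod.ext
    · funext u
      apply Prod.ext
      · funext w
        simp
      · rfl
    · rfl

theorem core_select (G H : SimpleGraph (Fin n)) (A B : Finset (Fin n)) (m m' : ℕ)
    (hm : 0 < m) (hm' : 0 < m')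
    (κ : (A → Bool) × Fin m → Option (Fin n)) (κ' : (B → Bool) × Fin m' → Option (Fin n))
    (hκ : ∀ p z, κ p = some z → z ∉ A ∧ ∀ u : A, G.Adj z u.1 → p.1 u = true)
    (hκ' : ∀ p z, κ' p = some z → z ∉ B ∧ ∀ u : B, H.Adj z u.1 → p.1 u = true)
    (mw : B → ℕ) (mu : A → ℕ) (D : ℕ) (L : ℝ)
    (h1 : 2 * ((univ.filter (fun ω : B → (A → Bool) × Fin m =>
      ¬ GoodSel G κ mw A D L ω)).card : ℝ) < Fintype.card (B → (A → Bool) × Fin m))
    (h2 : 2 * ((univ.filter (fun ω : A → (B → Bool) × Fin m' =>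
      ¬ GoodSel H κ' mu B D L ω)).card : ℝ) < Fintype.card (A → (B → Bool) × Fin m')) :
    ∃ (z : B → Fin n) (v : A → Fin n),
      (∀ w, z w ∉ A) ∧ (∀ u, v u ∉ B) ∧
      (∀ w, dg G (z w) ≤ D) ∧ (∀ u, dg H (v u) ≤ D) ∧
      (∀ w w', w ≠ w' → z w ≠ z w' ∧ ¬ G.Adj (z w) (z w')) ∧
      (∀ u u', u ≠ u' → v u ≠ v u' ∧ ¬ H.Adj (v u) (v u')) ∧
      (∀ x, x ∉ A → ∑ w ∈ univ.filter (fun w => G.Adj (z w) x), (mw w : ℝ) ≤ L) ∧
      (∀ x, x ∉ B → ∑ u ∈ univ.filter (fun u => H.Adj (v u) x), (mu u : ℝ) ≤ L) ∧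
      (∀ (u : A) (w : B), ¬ (G.Adj (z w) u.1 ∧ H.Adj (v u) w.1)) := by
  have : Nonempty (Fin m) := ⟨⟨0, hm⟩⟩
  have : Nonempty (Fin m') := ⟨⟨0, hm'⟩⟩
  have h1' : 2 * (univ.filter (fun ω : B → (A → Bool) × Fin m =>
      ¬ GoodSel G κ mw A D L ω)).card < Fintype.card (B → (A → Bool) × Fin m) := by
    exact_mod_cast h1
  have h2' : 2 * (univ.filter (fun ω : A → (B → Bool) × Fin m' =>
      ¬ GoodSel H κ' mu B D L ω)).card < Fintype.card (A → (B → Bool) × Fin m') := by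
    exact_mod_cast h2
  obtain ⟨ω, g1, g2⟩ := exists_both (eG (A := A) (B := B) m m') (eH (A := A) (B := B) m m')
    (fun ω => GoodSel G κ mw A D L ω) (fun ω => GoodSel H κ' mu B D L ω) h1' h2'
  obtain ⟨z, hz1, hz2, hz3, hz4⟩ := g1
  obtain ⟨v, hv1, hv2, hv3, hv4⟩ := g2
  refine ⟨z, v, fun w => (hκ _ _ (hz1 w)).1, fun u => (hκ' _ _ (hv1 u)).1, hz2, hv2, hz3, hv3,
    hz4, hv4, ?_⟩
  rintro u w ⟨ha, hb⟩
  have e1 := (hκ _ _ (hz1 w)).2 u ha
  have e2 := (hκ' _ _ (hv1 u)).2 w hb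
  change ω.1 u w = true at e1
  change (!(ω.1 u w)) = true at e2
  rw [e1] at e2
  exact absurd e2 (by decide)

end Pool.Agent.Helper852.Sel
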