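import Mathlib

set_option autoImplicit false

/-!
Counting host graphs that contain a copy of a given graph.
-/

namespace Pool.Agent.Helper852.Cnt

open Finset Classical

variable {n : ℕ}

/-- The degree, with classical decidability. -/
noncomputable def dg (G : SimpleGraph (Fin n)) (v : Fin n) : ℕ :=
  (univ.filter (fun u => G.Adj v u)).card

theorem dg_eq_degree (G : SimpleGraph (Fin n)) (v : Fin n) : dg G v = G.degree v := by
  unfold dg
  rw [← SimpleGraph.card_neighborFinset_eq_degree, SimpleGraph.neighborFinset_eq_filter]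

theorem sum_dg (G : SimpleGraph (Fin n)) : ∑ v, dg G v = 2 * G.edgeFinset.card := by
  rw [← SimpleGraph.sum_degrees_eq_twice_card_edges]
  exact Finset.sum_congr rfl (fun v _ => dg_eq_degree G v)

/-- The number of graphs containing a fixed copy of `G`. -/
theorem copies_bound (G : SimpleGraph (Fin n)) (f : Fin n → Fin n) (hf : Function.Injective f) :
    (univ.filter (fun K : SimpleGraph (Fin n) =>
      ∀ u v, G.Adj u v → K.Adj (f u) (f v))).card * 2 ^ (G.edgeFinset.card) ≤
      Fintype.card (SimpleGraph (Fin n)) := by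
  set G' := G.map (⟨f, hf⟩ : Fin n ↪ Fin n) with hG'
  have hE : G'.edgeFinset.card = G.edgeFinset.card := by
    have h := SimpleGraph.card_edgeFinset_map (⟨f, hf⟩ : Fin n ↪ Fin n) G
    convert h
  have hle : ∀ K : SimpleGraph (Fin n), (∀ u v, G.Adj u v → K.Adj (f u) (f v)) ↔ G' ≤ K := by
    intro K
    rw [hG', SimpleGraph.map_le_iff_le_comap]
    constructor
    · intro h u v huv
      exact h u v huv
    · intro h u v huv
      exact h huv
  rw [← hE, ← Finset.card_powerset, ← Finset.card_product, ← Finset.card_univ]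
  apply Finset.card_le_card_of_injOn
    (fun p : SimpleGraph (Fin n) × Finset (Sym2 (Fin n)) => p.1.deleteEdges (p.2 : Set (Sym2 (Fin n))))
  · intro _ _
    exact Finset.mem_coe.mpr (Finset.mem_univ _)
  · rintro ⟨K1, T1⟩ h1 ⟨K2, T2⟩ h2 heq
    simp only [Finset.coe_product, Set.mem_prod, Finset.mem_coe, Finset.mem_filter,
      Finset.mem_univ, true_and, Finset.mem_powerset, hle] at h1 h2
    simp only at heq
    obtain ⟨hK1, hT1⟩ := h1
    obtain ⟨hK2, hT2⟩ := h2
    have key : ∀ (K : SimpleGraph (Fin n)) (T : Finset (Sym2 (Fin n))), G' ≤ K →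
        T ⊆ G'.edgeFinset → ∀ e, e ∈ T ↔ e ∈ G'.edgeFinset ∧
          e ∉ (K.deleteEdges (T : Set (Sym2 (Fin n)))).edgeSet := by
      intro K T hK hT e
      induction e with
      | _ x y =>
        constructor
        · intro he
          refine ⟨hT he, ?_⟩
          rw [SimpleGraph.mem_edgeSet, SimpleGraph.deleteEdges_adj]
          intro h
          exact h.2 (Finset.mem_coe.mpr he)
        · rintro ⟨h1, h2⟩
          rw [SimpleGraph.mem_edgeSet, SimpleGraph.deleteEdges_adj] at h2
          have h3 : K.Adj x y := by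
            apply hK
            rw [SimpleGraph.mem_edgeFinset, SimpleGraph.mem_edgeSet] at h1
            exact h1
          by_contra hne
          exact h2 ⟨h3, fun hc => hne (Finset.mem_coe.mp hc)⟩
    have hT : T1 = T2 := by
      ext e
      rw [key K1 T1 hK1 hT1 e, key K2 T2 hK2 hT2 e, heq]
    subst hT
    have hK : K1 = K2 := by
      ext x y
      by_cases he : s(x, y) ∈ T1
      · have h3 : G'.Adj x y := by
          have := hT1 he
          rw [SimpleGraph.mem_edgeFinset, SimpleGraph.mem_edgeSet] at this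
          exact this
        exact ⟨fun _ => hK2 h3, fun _ => hK1 h3⟩
      · have h4 : (K1.deleteEdges (T1 : Set (Sym2 (Fin n)))).Adj x y ↔
            (K2.deleteEdges (T1 : Set (Sym2 (Fin n)))).Adj x y := by rw [heq]
        rw [SimpleGraph.deleteEdges_adj, SimpleGraph.deleteEdges_adj] at h4
        have h5 : s(x, y) ∉ (T1 : Set (Sym2 (Fin n))) := fun hc => he (Finset.mem_coe.mp hc)
        exact ⟨fun h => (h4.mp ⟨h, h5⟩).1, fun h => (h4.mpr ⟨h, h5⟩).1⟩
    rw [hK]

/-- The graphs containing some copy of `G`. -/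
noncomputable def Cont (G : SimpleGraph (Fin n)) : Finset (SimpleGraph (Fin n)) :=
  univ.filter (fun K => ∃ f : Fin n → Fin n, Function.Injective f ∧
    ∀ u v, G.Adj u v → K.Adj (f u) (f v))

/-- First moment bound. -/
theorem cont_bound (G : SimpleGraph (Fin n)) :
    (Cont G).card * 2 ^ (G.edgeFinset.card) ≤ n ^ n * Fintype.card (SimpleGraph (Fin n)) := by
  have h1 : Cont G ⊆ (univ.filter (fun f : Fin n → Fin n => Function.Injective f)).biUnion
      (fun f => univ.filter (fun K : SimpleGraph (Fin n) =>
        ∀ u v, G.Adj u v → K.Adj (f u) (f v))) := by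
    intro K hK
    obtain ⟨f, hf, hK⟩ := (Finset.mem_filter.mp hK).2
    exact Finset.mem_biUnion.mpr ⟨f, Finset.mem_filter.mpr ⟨Finset.mem_univ _, hf⟩,
      Finset.mem_filter.mpr ⟨Finset.mem_univ _, hK⟩⟩
  calc (Cont G).card * 2 ^ (G.edgeFinset.card)
      ≤ (∑ f ∈ univ.filter (fun f : Fin n → Fin n => Function.Injective f),
          (univ.filter (fun K : SimpleGraph (Fin n) =>
            ∀ u v, G.Adj u v → K.Adj (f u) (f v))).card) * 2 ^ (G.edgeFinset.card) :=
        Nat.mul_le_mul_right _ ((Finset.card_le_card h1).trans Finset.card_biUnion_le)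
    _ = ∑ f ∈ univ.filter (fun f : Fin n → Fin n => Function.Injective f),
          (univ.filter (fun K : SimpleGraph (Fin n) =>
            ∀ u v, G.Adj u v → K.Adj (f u) (f v))).card * 2 ^ (G.edgeFinset.card) := by
        rw [Finset.sum_mul]
    _ ≤ ∑ f ∈ univ.filter (fun f : Fin n → Fin n => Function.Injective f),
          Fintype.card (SimpleGraph (Fin n)) :=
        Finset.sum_le_sum (fun f hf => copies_bound G f (Finset.mem_filter.mp hf).2)
    _ ≤ ∑ f : Fin n → Fin n, Fintype.card (SimpleGraph (Fin n)) :=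
        Finset.sum_le_sum_of_subset (Finset.filter_subset _ _)
    _ = n ^ n * Fintype.card (SimpleGraph (Fin n)) := by
        simp

end Pool.Agent.Helper852.Cnt
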