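import Pool.Agent.Helper852.Conseq

set_option autoImplicit false

/-!
The selection kernel obtained from the marriage theorem.
-/

namespace Pool.Agent.Helper852.Cnt

open Finset Classical

variable {n : ℕ}

theorem kernel (G : SimpleGraph (Fin n)) (q : ℕ) (hG : Good q G) (A : Finset (Fin n)) :
    ∃ κ : (A → Bool) × Fin (n - A.card) → Option (Fin n),
      (∀ p z, κ p = some z → z ∉ A ∧ ∀ u : A, G.Adj z u.1 → p.1 u = true) ∧
      (∀ z, (univ.filter (fun p => κ p = some z)).card ≤ 2 ^ (A.card + 1)) ∧
      (univ.filter (fun p => κ p = none)).card ≤ 2 ^ (A.card + 1) * ((A.card + 1) * q) := by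
  set a := A.card with ha
  set m := n - a with hm
  set c := 2 ^ (a + 1) with hc
  set d := 2 ^ (a + 1) * ((a + 1) * q) with hd
  let ok : (A → Bool) → Fin n → Prop := fun S z => z ∉ A ∧ ∀ u : A, G.Adj z u.1 → S u = true
  let t : (A → Bool) × Fin m → Finset ((Fin n × Fin c) ⊕ Fin d) := fun p =>
    (((univ : Finset (Fin n)).filter (ok p.1)) ×ˢ (univ : Finset (Fin c))).disjSum univ
  have hall : ∀ s : Finset ((A → Bool) × Fin m), s.card ≤ (s.biUnion t).card := by
    intro s
    rcases s.eq_empty_or_nonempty with rfl | ⟨p0, hp0⟩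
    · simp
    set F := s.image Prod.fst with hF
    set Y : Finset (Fin n) := univ.filter (fun z => ∃ S ∈ F, ok S z) with hY
    have h1 : s.card ≤ F.card * m := by
      have : s ⊆ F ×ˢ (univ : Finset (Fin m)) := by
        intro p hp
        rw [Finset.mem_product]
        exact ⟨Finset.mem_image_of_mem _ hp, Finset.mem_univ _⟩
      have h := Finset.card_le_card this
      rwa [Finset.card_product, Finset.card_univ, Fintype.card_fin] at h
    have h2 : F ⊆ Bad G A Y := by
      intro S hS
      refine Finset.mem_filter.mpr ⟨Finset.mem_univ _, ?_⟩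
      intro z hzA hzY
      by_contra hcon
      push Not at hcon
      apply hzY
      refine Finset.mem_filter.mpr ⟨Finset.mem_univ _, S, hS, hzA, ?_⟩
      intro u hu
      have := hcon u hu
      simpa using this
    have h3 := hG.bad A Y
    rw [← ha, ← hm] at h3
    have h4 : F.card * m ≤ (Bad G A Y).card * m := Nat.mul_le_mul_right _ (Finset.card_le_card h2)
    have h5 : c * Y.card + d ≤ (s.biUnion t).card := by
      have h6 : (Y ×ˢ (univ : Finset (Fin c))).disjSum (univ : Finset (Fin d)) ⊆ s.biUnion t := by
        intro r hr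
        rw [Finset.mem_biUnion]
        rcases r with ⟨z, i⟩ | j
        · rw [Finset.inl_mem_disjSum, Finset.mem_product] at hr
          obtain ⟨S, hS, hok⟩ := (Finset.mem_filter.mp hr.1).2
          obtain ⟨p, hp, rfl⟩ := Finset.mem_image.mp hS
          refine ⟨p, hp, ?_⟩
          rw [Finset.inl_mem_disjSum, Finset.mem_product]
          exact ⟨Finset.mem_filter.mpr ⟨Finset.mem_univ _, hok⟩, Finset.mem_univ _⟩
        · refine ⟨p0, hp0, ?_⟩
          rw [Finset.inr_mem_disjSum]
          exact Finset.mem_univ _
      have h7 := Finset.card_le_card h6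
      rw [Finset.card_disjSum, Finset.card_product, Finset.card_univ, Finset.card_univ,
        Fintype.card_fin, Fintype.card_fin] at h7
      rw [mul_comm]
      exact h7
    have h8 : 10 * (F.card * m) ≤ 2 ^ a * (14 * Y.card + 20 * ((a + 1) * q)) :=
      (Nat.mul_le_mul_left _ h4).trans h3
    have h9 : 2 ^ a * (14 * Y.card + 20 * ((a + 1) * q)) ≤ 10 * (c * Y.card + d) := by
      rw [hc, hd, pow_succ]
      have : 2 ^ a * (14 * Y.card + 20 * ((a + 1) * q)) + 6 * (2 ^ a * Y.card) =
        10 * (2 ^ a * 2 * Y.card + 2 ^ a * 2 * ((a + 1) * q)) := by ring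
      omega
    omega
  obtain ⟨f, hfinj, hf⟩ := (Finset.all_card_le_biUnion_card_iff_exists_injective t).mp hall
  refine ⟨fun p => Sum.elim (fun x => some x.1) (fun _ => none) (f p), ?_, ?_, ?_⟩
  · intro p z hpz
    have h1 := hf p
    rcases hfp : f p with ⟨z', i⟩ | j
    · rw [hfp] at h1
      simp only [hfp, Sum.elim_inl, Option.some.injEq] at hpz
      subst hpz
      rw [Finset.inl_mem_disjSum, Finset.mem_product] at h1
      exact (Finset.mem_filter.mp h1.1).2
    · simp [hfp] at hpz
  · intro z
    have h1 : ((univ : Finset ((A → Bool) × Fin m)).filter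
        (fun p => Sum.elim (fun x : Fin n × Fin c => some x.1) (fun _ : Fin d => none) (f p) =
          some z)).card ≤
        ((univ : Finset (Fin c)).image (fun i => (Sum.inl (z, i) : (Fin n × Fin c) ⊕ Fin d))).card := by
      apply Finset.card_le_card_of_injOn f
      · intro p hp
        have hp' := (Finset.mem_filter.mp (Finset.mem_coe.mp hp)).2
        rcases hfp : f p with ⟨z', i⟩ | j
        · simp only [hfp, Sum.elim_inl, Option.some.injEq] at hp'
          subst hp'
          exact Finset.mem_coe.mpr (Finset.mem_image_of_mem _ (Finset.mem_univ i))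
        · simp [hfp] at hp'
      · exact hfinj.injOn
    refine h1.trans (Finset.card_image_le.trans ?_)
    rw [Finset.card_univ, Fintype.card_fin]
  · have h1 : ((univ : Finset ((A → Bool) × Fin m)).filter
        (fun p => Sum.elim (fun x : Fin n × Fin c => some x.1) (fun _ : Fin d => none) (f p) =
          none)).card ≤
        ((univ : Finset (Fin d)).image (fun i => (Sum.inr i : (Fin n × Fin c) ⊕ Fin d))).card := by
      apply Finset.card_le_card_of_injOn f
      · intro p hp
        have hp' := (Finset.mem_filter.mp (Finset.mem_coe.mp hp)).2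
        rcases hfp : f p with ⟨z', i⟩ | j
        · simp [hfp] at hp'
        · exact Finset.mem_coe.mpr (Finset.mem_image_of_mem _ (Finset.mem_univ j))
      · exact hfinj.injOn
    refine h1.trans (Finset.card_image_le.trans ?_)
    rw [Finset.card_univ, Fintype.card_fin]

end Pool.Agent.Helper852.Cnt
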