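import Mathlib

set_option autoImplicit false

/-!
A counting form of the lopsided local lemma for uniform random bijections between two
finite types.
-/

namespace Pool.Agent.Helper852.LLL

open Finset Classical

variable {α β : Type} [Fintype α] [Fintype β]

/-- A pair of assignments `a ↦ b`, `a' ↦ b'`. -/
abbrev Ix (α β : Type) := (α × β) × (α × β)

/-- The event that the bijection makes both assignments. -/
def Ev (i : Ix α β) (σ : α ≃ β) : Prop := σ i.1.1 = i.1.2 ∧ σ i.2.1 = i.2.2

/-- Two single assignments clash. -/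
def Clash (p q : α × β) : Prop := (p.1 = q.1 ∧ p.2 ≠ q.2) ∨ (p.1 ≠ q.1 ∧ p.2 = q.2)

/-- Conflicting pairs of assignments. -/
def Conf (i j : Ix α β) : Prop := Clash i.1 j.1 ∨ Clash i.1 j.2 ∨ Clash i.2 j.1 ∨ Clash i.2 j.2

/-- A valid index: either the same assignment twice, or two compatible assignments. -/
def Valid (i : Ix α β) : Prop :=
  (i.1.1 = i.2.1 ∧ i.1.2 = i.2.2) ∨ (i.1.1 ≠ i.2.1 ∧ i.1.2 ≠ i.2.2)

/-- The number of ways of reassigning the targets. -/
noncomputable def wt (i : Ix α β) : ℕ :=
  if i.1.1 = i.2.1 then Fintype.card β else Fintype.card β * (Fintype.card β - 1)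

/-- The bijections avoiding all events indexed by `S`. -/
noncomputable def Av (S : Finset (Ix α β)) : Finset (α ≃ β) :=
  univ.filter (fun σ => ∀ j ∈ S, ¬ Ev j σ)

theorem mem_Av {S : Finset (Ix α β)} {σ : α ≃ β} : σ ∈ Av S ↔ ∀ j ∈ S, ¬ Ev j σ := by
  simp [Av]

/-- A permutation moving `p ↦ p'`, `q ↦ q'` and only touching these points. -/
theorem exists_perm (p q p' q' : β) (h : p ≠ q) (h' : p' ≠ q') :
    ∃ ρ : Equiv.Perm β, ρ p = p' ∧ ρ q = q' ∧
      ∀ y, y ≠ p → y ≠ q → ρ y ≠ p → ρ y ≠ q → ρ y = y := by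
  set ρ1 := Equiv.swap p p' with hρ1
  set ρ2 := Equiv.swap (ρ1 q) q' with hρ2
  have e1 : ρ1 p = p' := Equiv.swap_apply_left _ _
  have hp'q : ρ1 q ≠ p' := fun hc => h (ρ1.injective (e1.trans hc.symm))
  refine ⟨ρ1.trans ρ2, ?_, ?_, ?_⟩
  · show ρ2 (ρ1 p) = p'
    rw [e1, hρ2, Equiv.swap_apply_of_ne_of_ne hp'q.symm h']
  · show ρ2 (ρ1 q) = q'
    rw [hρ2, Equiv.swap_apply_left]
  · intro y hyp hyq hyp' hyq'
    change ρ2 (ρ1 y) ≠ p at hyp'
    change ρ2 (ρ1 y) ≠ q at hyq'
    show ρ2 (ρ1 y) = y
    by_cases h1 : y = p'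
    · -- then ρ1 y = p
      subst h1
      have h2 : ρ1 y = p := Equiv.swap_apply_right _ _
      rw [h2] at hyp' hyq' ⊢
      -- ρ2 p ≠ p so p ∈ {ρ1 q, q'}
      by_cases h3 : p = ρ1 q
      · rw [hρ2, ← h3, Equiv.swap_apply_left] at hyp' hyq' ⊢
        exfalso
        -- ρ1 q = p means q = p' = y
        have : ρ1 q = ρ1 y := by rw [h2, h3]
        exact hyq (ρ1.injective this).symm
      · by_cases h4 : p = q'
        · rw [hρ2, h4, Equiv.swap_apply_right] at hyp' hyq' ⊢
          exfalso
          by_cases h5 : q = p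
          · exact h h5.symm
          · by_cases h6 : q = y
            · exact hyq h6.symm
            · exact hyq' (by rw [hρ1, Equiv.swap_apply_of_ne_of_ne h5 h6])
        · rw [hρ2, Equiv.swap_apply_of_ne_of_ne h3 h4] at hyp'
          exact absurd rfl hyp'
    · have h2 : ρ1 y = y := by rw [hρ1, Equiv.swap_apply_of_ne_of_ne hyp h1]
      rw [h2] at hyp' hyq' ⊢
      by_cases h3 : y = ρ1 q
      · exfalso
        have : ρ1 y = ρ1 q := by rw [h2, ← h3]
        exact hyq (ρ1.injective this)
      · by_cases h4 : y = q'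
        · exfalso
          rw [hρ2, h4, Equiv.swap_apply_right] at hyp' hyq'
          by_cases h5 : q = p'
          · exact hyp' (by rw [h5, hρ1, Equiv.swap_apply_right])
          · exact hyq' (by rw [hρ1, Equiv.swap_apply_of_ne_of_ne h.symm h5])
        · rw [hρ2, Equiv.swap_apply_of_ne_of_ne h3 h4]

/-- Single-point version. -/
theorem exists_perm_one (p p' : β) :
    ∃ ρ : Equiv.Perm β, ρ p = p' ∧ ∀ y, y ≠ p → ρ y ≠ p → ρ y = y := by
  refine ⟨Equiv.swap p p', Equiv.swap_apply_left _ _, ?_⟩
  intro y hy hy'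
  by_cases h : y = p'
  · subst h
    rw [Equiv.swap_apply_right] at hy'
    exact absurd rfl hy'
  · exact Equiv.swap_apply_of_ne_of_ne hy h

/-- The switching inequality. -/
theorem lopsided (i : Ix α β) (hi : Valid i) (S : Finset (Ix α β))
    (hS : ∀ j ∈ S, ¬ Conf i j) :
    wt i * ((Av S).filter (Ev i)).card ≤ (Av S).card := by
  -- key: for each target pair, an injection
  have key : ∀ (t t' : β), (i.1.1 = i.2.1 → t = t') → (i.1.1 ≠ i.2.1 → t ≠ t') →
      ((Av S).filter (Ev i)).card ≤
        ((Av S).filter (fun σ => σ i.1.1 = t ∧ σ i.2.1 = t')).card := by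
    intro t t' h1 h2
    obtain ⟨ρ, hρ1, hρ2, hρ3⟩ : ∃ ρ : Equiv.Perm β, ρ i.1.2 = t ∧ ρ i.2.2 = t' ∧
        ∀ y, y ≠ i.1.2 → y ≠ i.2.2 → ρ y ≠ i.1.2 → ρ y ≠ i.2.2 → ρ y = y := by
      rcases hi with ⟨ha, hb⟩ | ⟨ha, hb⟩
      · obtain ⟨ρ, hr1, hr2⟩ := exists_perm_one i.1.2 t
        exact ⟨ρ, hr1, by rw [← hb, hr1, h1 ha], fun y hy _ hy' _ => hr2 y hy hy'⟩
      · exact exists_perm _ _ t t' hb (h2 ha)
    apply Finset.card_le_card_of_injOn (fun σ => σ.trans ρ)
    · intro σ hσ
      simp only [Finset.coe_filter, Set.mem_ofPred_eq, mem_Av] at hσ ⊢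
      obtain ⟨hav, he1, he2⟩ := hσ
      refine ⟨?_, ?_, ?_⟩
      · intro j hj hev
        apply hav j hj
        have hnc := hS j hj
        have aux : ∀ q : α × β, (q = j.1 ∨ q = j.2) → (σ.trans ρ) q.1 = q.2 → σ q.1 = q.2 := by
          intro q hq hqe
          have hc1 : ¬ Clash i.1 q := by
            rcases hq with rfl | rfl
            · exact fun h => hnc (Or.inl h)
            · exact fun h => hnc (Or.inr (Or.inl h))
          have hc2 : ¬ Clash i.2 q := by
            rcases hq with rfl | rfl
            · exact fun h => hnc (Or.inr (Or.inr (Or.inl h)))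
            · exact fun h => hnc (Or.inr (Or.inr (Or.inr h)))
          by_cases hx1 : i.1.1 = q.1
          · have : i.1.2 = q.2 := by
              by_contra hne
              exact hc1 (Or.inl ⟨hx1, hne⟩)
            rw [← hx1, he1, this]
          · by_cases hx2 : i.2.1 = q.1
            · have : i.2.2 = q.2 := by
                by_contra hne
                exact hc2 (Or.inl ⟨hx2, hne⟩)
              rw [← hx2, he2, this]
            · have hy1 : q.2 ≠ i.1.2 := fun h => hc1 (Or.inr ⟨hx1, h.symm⟩)
              have hy2 : q.2 ≠ i.2.2 := fun h => hc2 (Or.inr ⟨hx2, h.symm⟩)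
              have hs1 : σ q.1 ≠ i.1.2 := fun h => hx1 (σ.injective (he1.trans h.symm))
              have hs2 : σ q.1 ≠ i.2.2 := fun h => hx2 (σ.injective (he2.trans h.symm))
              change ρ (σ q.1) = q.2 at hqe
              have := hρ3 (σ q.1) hs1 hs2 (by rw [hqe]; exact hy1) (by rw [hqe]; exact hy2)
              rw [← this, hqe]
        exact ⟨aux j.1 (Or.inl rfl) hev.1, aux j.2 (Or.inr rfl) hev.2⟩
      · show ρ (σ i.1.1) = t
        rw [he1, hρ1]
      · show ρ (σ i.2.1) = t'
        rw [he2, hρ2]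
    · intro σ _ σ' _ h
      ext x
      have := congrArg (fun e : α ≃ β => e x) h
      exact ρ.injective this
  by_cases hcase : i.1.1 = i.2.1
  · -- single assignment
    have h1 : (Av S).card = ∑ t : β, ((Av S).filter (fun σ => σ i.1.1 = t)).card :=
      Finset.card_eq_sum_card_fiberwise (fun _ _ => Finset.mem_univ _)
    rw [wt, if_pos hcase, h1]
    calc Fintype.card β * ((Av S).filter (Ev i)).card
        = ∑ _t : β, ((Av S).filter (Ev i)).card := by simp
      _ ≤ ∑ t : β, ((Av S).filter (fun σ => σ i.1.1 = t)).card := by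
          apply Finset.sum_le_sum
          intro t _
          refine (key t t (fun _ => rfl) (fun h => absurd hcase h)).trans ?_
          apply Finset.card_le_card
          intro σ hσ
          simp only [Finset.mem_filter] at hσ ⊢
          exact ⟨hσ.1, hσ.2.1⟩
  · have h1 : (Av S).card = ∑ t : β × β,
        ((Av S).filter (fun σ => (σ i.1.1, σ i.2.1) = t)).card :=
      Finset.card_eq_sum_card_fiberwise (fun _ _ => Finset.mem_univ _)
    rw [wt, if_neg hcase, h1]
    calc Fintype.card β * (Fintype.card β - 1) * ((Av S).filter (Ev i)).card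
        = ∑ _t ∈ (Finset.univ : Finset β).offDiag, ((Av S).filter (Ev i)).card := by
          rw [Finset.sum_const, Finset.offDiag_card, smul_eq_mul, Nat.mul_sub, Finset.card_univ,
            Nat.mul_one]
      _ ≤ ∑ t ∈ (Finset.univ : Finset β).offDiag,
            ((Av S).filter (fun σ => (σ i.1.1, σ i.2.1) = t)).card := by
          apply Finset.sum_le_sum
          intro t ht
          have ht' : t.1 ≠ t.2 := (Finset.mem_offDiag.mp ht).2.2
          refine (key t.1 t.2 (fun h => absurd h hcase) (fun _ => ht')).trans ?_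
          apply Finset.card_le_card
          intro σ hσ
          simp only [Finset.mem_filter] at hσ ⊢
          exact ⟨hσ.1, Prod.ext hσ.2.1 hσ.2.2⟩
      _ ≤ _ := Finset.sum_le_sum_of_subset (Finset.subset_univ _)

/-- Counting form of the local lemma: the conditional probability bound. -/
theorem cond_bound (I : Finset (Ix α β)) (hv : ∀ i ∈ I, Valid i)
    (hw : ∀ i ∈ I, 0 < wt i)
    (hsum : ∀ i ∈ I, ∑ j ∈ I.filter (Conf i), (1 : ℝ) / wt j ≤ 1 / 4) :
    ∀ (k : ℕ) (S : Finset (Ix α β)), S.card = k → S ⊆ I → ∀ i ∈ I,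
      (wt i : ℝ) * (((Av S).filter (Ev i)).card : ℝ) ≤ 2 * ((Av S).card : ℝ) := by
  intro k
  induction k using Nat.strong_induction_on with
  | _ k ih =>
    intro S hSk hSI i hi
    by_cases hconf : (S.filter (Conf i)).card = 0
    · have h0 : ∀ j ∈ S, ¬ Conf i j := by
        intro j hj hc
        rw [Finset.card_eq_zero] at hconf
        have : j ∈ S.filter (Conf i) := Finset.mem_filter.mpr ⟨hj, hc⟩
        rw [hconf] at this
        exact absurd this (Finset.notMem_empty j)
      have := lopsided i (hv i hi) S h0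
      have h1 : (wt i : ℝ) * (((Av S).filter (Ev i)).card : ℝ) ≤ ((Av S).card : ℝ) := by
        exact_mod_cast this
      have h2 : (0 : ℝ) ≤ ((Av S).card : ℝ) := Nat.cast_nonneg _
      linarith
    · set S2 := S.filter (fun j => ¬ Conf i j) with hS2
      have hS2sub : S2 ⊆ S := Finset.filter_subset _ _
      have hcard : S2.card < k := by
        have hadd : (S.filter (Conf i)).card + S2.card = S.card := by
          rw [hS2]
          exact Finset.card_filter_add_card_filter_not (s := S) (Conf i)
        omega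
      have h0 : ∀ j ∈ S2, ¬ Conf i j := fun j hj => (Finset.mem_filter.mp hj).2
      have h1 : (wt i : ℝ) * (((Av S2).filter (Ev i)).card : ℝ) ≤ ((Av S2).card : ℝ) := by
        exact_mod_cast lopsided i (hv i hi) S2 h0
      have hmono : Av S ⊆ Av S2 := by
        intro σ hσ
        rw [mem_Av] at hσ ⊢
        exact fun j hj => hσ j (hS2sub hj)
      have h2 : (((Av S).filter (Ev i)).card : ℝ) ≤ (((Av S2).filter (Ev i)).card : ℝ) := by
        exact_mod_cast Finset.card_le_card (Finset.filter_subset_filter _ hmono)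
      -- lower bound for |Av S|
      have h3 : Av S2 ⊆ Av S ∪ (S.filter (Conf i)).biUnion (fun j => (Av S2).filter (Ev j)) := by
        intro σ hσ
        by_cases hs : σ ∈ Av S
        · exact Finset.mem_union_left _ hs
        · apply Finset.mem_union_right
          rw [mem_Av] at hs
          push Not at hs
          obtain ⟨j, hj, he⟩ := hs
          rw [Finset.mem_biUnion]
          refine ⟨j, Finset.mem_filter.mpr ⟨hj, ?_⟩, Finset.mem_filter.mpr ⟨hσ, he⟩⟩
          by_contra hc
          exact (mem_Av.mp hσ) j (Finset.mem_filter.mpr ⟨hj, hc⟩) he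
      have h4 : ((Av S2).card : ℝ) ≤ ((Av S).card : ℝ) +
          ∑ j ∈ S.filter (Conf i), (((Av S2).filter (Ev j)).card : ℝ) := by
        have := (Finset.card_le_card h3).trans ((Finset.card_union_le _ _).trans
          (Nat.add_le_add_left Finset.card_biUnion_le _))
        exact_mod_cast this
      have h5 : ∀ j ∈ S.filter (Conf i), (((Av S2).filter (Ev j)).card : ℝ) ≤
          (1 / wt j) * (2 * ((Av S2).card : ℝ)) := by
        intro j hj
        have hjI : j ∈ I := hSI (Finset.mem_filter.mp hj).1
        have := ih S2.card hcard S2 rfl (hS2sub.trans hSI) j hjI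
        have hwj : (0 : ℝ) < wt j := by exact_mod_cast hw j hjI
        rw [one_div, ← div_eq_inv_mul, le_div_iff₀ hwj]
        linarith
      have h6 : ∑ j ∈ S.filter (Conf i), (((Av S2).filter (Ev j)).card : ℝ) ≤
          (1 / 4) * (2 * ((Av S2).card : ℝ)) := by
        calc _ ≤ ∑ j ∈ S.filter (Conf i), (1 / wt j) * (2 * ((Av S2).card : ℝ)) :=
              Finset.sum_le_sum h5
          _ = (∑ j ∈ S.filter (Conf i), (1 : ℝ) / wt j) * (2 * ((Av S2).card : ℝ)) := by
              rw [Finset.sum_mul]
          _ ≤ (1 / 4) * (2 * ((Av S2).card : ℝ)) := by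
              apply mul_le_mul_of_nonneg_right _ (by positivity)
              refine le_trans ?_ (hsum i hi)
              apply Finset.sum_le_sum_of_subset_of_nonneg
              · exact Finset.filter_subset_filter _ hSI
              · intro j _ _
                positivity
      have hwi : (0 : ℝ) < wt i := by exact_mod_cast hw i hi
      have h7 : (wt i : ℝ) * (((Av S).filter (Ev i)).card : ℝ) ≤
          (wt i : ℝ) * (((Av S2).filter (Ev i)).card : ℝ) :=
        mul_le_mul_of_nonneg_left h2 hwi.le
      linarith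

/-- The local lemma for bijections. -/
theorem exists_avoiding (e0 : α ≃ β) (hβ : 3 ≤ Fintype.card β)
    (I : Finset (Ix α β)) (hv : ∀ i ∈ I, Valid i)
    (hsum : ∀ i ∈ I, ∑ j ∈ I.filter (Conf i), (1 : ℝ) / wt j ≤ 1 / 4) :
    ∃ σ : α ≃ β, ∀ j ∈ I, ¬ Ev j σ := by
  have hw3 : ∀ i : Ix α β, 3 ≤ wt i := by
    intro i
    unfold wt
    split_ifs
    · exact hβ
    · calc 3 = 3 * 1 := rfl
        _ ≤ Fintype.card β * (Fintype.card β - 1) := Nat.mul_le_mul hβ (by omega)
  have hpos : ∀ S : Finset (Ix α β), S ⊆ I → 0 < (Av S).card := by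
    intro S
    induction S using Finset.induction_on with
    | empty =>
      intro _
      rw [Finset.card_pos]
      exact ⟨e0, mem_Av.mpr (by simp)⟩
    | insert i S hiS ih =>
      intro hsub
      have hiI : i ∈ I := hsub (Finset.mem_insert_self _ _)
      have hSI : S ⊆ I := (Finset.subset_insert _ _).trans hsub
      have h1 := ih hSI
      have h2 := cond_bound I hv (fun i _ => by have := hw3 i; omega) hsum S.card S rfl hSI i hiI
      have h3 : Av (insert i S) = (Av S).filter (fun σ => ¬ Ev i σ) := by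
        ext σ
        simp only [mem_Av, Finset.mem_insert, Finset.mem_filter, forall_eq_or_imp]
        tauto
      have h4 := Finset.card_filter_add_card_filter_not (s := Av S) (Ev i)
      rw [h3]
      by_contra hcon
      have h5 : ((Av S).filter (Ev i)).card = (Av S).card := by omega
      rw [h5] at h2
      have h6 : (3 : ℝ) ≤ wt i := by exact_mod_cast hw3 i
      have h7 : (0 : ℝ) < ((Av S).card : ℝ) := by exact_mod_cast h1
      nlinarith
  obtain ⟨σ, hσ⟩ := Finset.card_pos.mp (hpos I (Finset.Subset.refl _))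
  exact ⟨σ, mem_Av.mp hσ⟩

end Pool.Agent.Helper852.LLL
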