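import Mathlib

set_option autoImplicit false

/-!
Numerical estimates.
-/

namespace Pool.Agent.Helper852.Grd

theorem num_side (N Q b S : ℝ) (hQ : 1000 ≤ Q) (hN : 1000000 ≤ N)
    (h7 : 1000000 * Q ^ 7 ≤ N) (h12 : 1000000 * Q ^ 12 ≤ N) (h13 : 1000000 * Q ^ 13 ≤ N)
    (h21 : 1000000 * Q ^ 21 ≤ N)
    (hb0 : 0 ≤ b) (hb : b ≤ 3 * Q ^ 6) (hS0 : 0 ≤ S) (hS : S ≤ 2 * (Q * (N + 1))) :
    b * (3 / N * ((3 * Q ^ 6 + 1) * Q)) + b * (3 / N * (2 * (Q * (N + 1)) / Q ^ 9)) +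
      b ^ 2 * ((3 / N) ^ 2 * (N * (Q ^ 9 + 1))) +
      (3 / N) ^ 2 * S ^ 2 * (N / Q ^ 5 * (2 * (Q * (N + 1)))) / (5 * N ^ 2 / 36) < 1 / 2 := by
  have hQ0 : (0 : ℝ) < Q := by linarith
  have hN0 : (0 : ℝ) < N := by linarith
  have hq2 : (1000000 : ℝ) ≤ Q ^ 2 := by nlinarith
  have t1 : b * (3 / N * ((3 * Q ^ 6 + 1) * Q)) ≤ 1 / 10 := by
    calc b * (3 / N * ((3 * Q ^ 6 + 1) * Q))
        ≤ (3 * Q ^ 6) * (3 / N * ((3 * Q ^ 6 + 1) * Q)) :=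
          mul_le_mul_of_nonneg_right hb (by positivity)
      _ = (27 * Q ^ 13 + 9 * Q ^ 7) / N := by
          field_simp
          ring
      _ ≤ 1 / 10 := by
          rw [div_le_iff₀ hN0]
          linarith
  have t2 : b * (3 / N * (2 * (Q * (N + 1)) / Q ^ 9)) ≤ 1 / 10 := by
    calc b * (3 / N * (2 * (Q * (N + 1)) / Q ^ 9))
        ≤ (3 * Q ^ 6) * (3 / N * (2 * (Q * (N + 1)) / Q ^ 9)) :=
          mul_le_mul_of_nonneg_right hb (by positivity)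
      _ = 18 * (N + 1) / (N * Q ^ 2) := by
          field_simp
          ring
      _ ≤ 1 / 10 := by
          rw [div_le_div_iff₀ (by positivity) (by norm_num)]
          have h2 : N * 1000000 ≤ N * Q ^ 2 := mul_le_mul_of_nonneg_left hq2 hN0.le
          linarith
  have t3 : b ^ 2 * ((3 / N) ^ 2 * (N * (Q ^ 9 + 1))) ≤ 1 / 10 := by
    calc b ^ 2 * ((3 / N) ^ 2 * (N * (Q ^ 9 + 1)))
        ≤ (3 * Q ^ 6) ^ 2 * ((3 / N) ^ 2 * (N * (Q ^ 9 + 1))) := by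
          apply mul_le_mul_of_nonneg_right _ (by positivity)
          exact pow_le_pow_left₀ hb0 hb 2
      _ = (81 * Q ^ 21 + 81 * Q ^ 12) / N := by
          field_simp
          ring
      _ ≤ 1 / 10 := by
          rw [div_le_iff₀ hN0]
          linarith
  have t4 : (3 / N) ^ 2 * S ^ 2 * (N / Q ^ 5 * (2 * (Q * (N + 1)))) / (5 * N ^ 2 / 36) ≤
      1 / 10 := by
    have h1 : S ^ 2 ≤ (2 * (Q * (N + 1))) ^ 2 := pow_le_pow_left₀ hS0 hS 2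
    calc (3 / N) ^ 2 * S ^ 2 * (N / Q ^ 5 * (2 * (Q * (N + 1)))) / (5 * N ^ 2 / 36)
        ≤ (3 / N) ^ 2 * (2 * (Q * (N + 1))) ^ 2 *
          (N / Q ^ 5 * (2 * (Q * (N + 1)))) / (5 * N ^ 2 / 36) := by
          apply div_le_div_of_nonneg_right _ (by positivity)
          apply mul_le_mul_of_nonneg_right _ (by positivity)
          exact mul_le_mul_of_nonneg_left h1 (by positivity)
      _ = 2592 * (N + 1) ^ 3 / (5 * N ^ 3 * Q ^ 2) := by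
          field_simp
          ring
      _ ≤ 1 / 10 := by
          rw [div_le_div_iff₀ (by positivity) (by norm_num)]
          have h3 : (5 * N ^ 3) * 1000000 ≤ (5 * N ^ 3) * Q ^ 2 :=
            mul_le_mul_of_nonneg_left hq2 (by positivity)
          have h4 : (N + 1) ^ 3 ≤ (2 * N) ^ 3 :=
            pow_le_pow_left₀ (by positivity) (by linarith) 3
          have h5 : (2 * N) ^ 3 = 8 * N ^ 3 := by ring
          have h6 : (0 : ℝ) < N ^ 3 := by positivity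
          rw [h5] at h4
          linarith
  linarith

theorem num_asm1 (N Q : ℝ) (hQ : 1000 ≤ Q) (hN : 1000000 ≤ N)
    (h6 : 1000000 * Q ^ 6 ≤ N) (h15 : 1000000 * Q ^ 15 ≤ N) (h17 : 1000000 * Q ^ 17 ≤ N) :
    (2 * (3 * Q ^ 6) + 3 * Q ^ 6 * Q ^ 9 + 5 * N / 6 + (N / 300 + N / Q ^ 5)) +
      2 * (Q * (N + 1)) / Q ^ 2 + (3 * Q ^ 6 * Q ^ 9) * (Q ^ 2 + 1) +
      (Q ^ 2 * (2 * (Q * (N + 1))) / (N / 300)) * (N / Q ^ 5) < N := by
  have hQ0 : (0 : ℝ) < Q := by linarith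
  have hN0 : (0 : ℝ) < N := by linarith
  have hq2 : (1000000 : ℝ) ≤ Q ^ 2 := by nlinarith
  have hq5 : (1000 : ℝ) ≤ Q ^ 5 := by
    calc (1000 : ℝ) ≤ Q := hQ
      _ = Q ^ 1 := (pow_one _).symm
      _ ≤ Q ^ 5 := pow_le_pow_right₀ (by linarith) (by norm_num)
  have hdl : N / Q ^ 5 ≤ N / 1000 := div_le_div_of_nonneg_left hN0.le (by norm_num) hq5
  have c1 : 3 * Q ^ 6 * Q ^ 9 = 3 * Q ^ 15 := by ring
  have c2 : 2 * (Q * (N + 1)) / Q ^ 2 ≤ N / 100 := by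
    have c3 : 2 * (Q * (N + 1)) / Q ^ 2 = 2 * (N + 1) / Q := by
      field_simp
    rw [c3, div_le_iff₀ hQ0]
    have c4 : N / 100 * 1000 ≤ N / 100 * Q := mul_le_mul_of_nonneg_left hQ (by positivity)
    linarith
  have c5 : Q ^ 2 * (2 * (Q * (N + 1))) / (N / 300) * (N / Q ^ 5) ≤ N / 100 := by
    have c6 : Q ^ 2 * (2 * (Q * (N + 1))) / (N / 300) * (N / Q ^ 5) =
        600 * (N + 1) / Q ^ 2 := by
      field_simp
      ring
    rw [c6, div_le_iff₀ (by positivity)]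
    have c7 : N / 100 * 1000000 ≤ N / 100 * Q ^ 2 :=
      mul_le_mul_of_nonneg_left hq2 (by positivity)
    linarith
  have c8 : 3 * Q ^ 15 * (Q ^ 2 + 1) = 3 * Q ^ 17 + 3 * Q ^ 15 := by ring
  rw [c1, c8]
  linarith

theorem num_asm3 (N Q : ℝ) (hQ : 1000 ≤ Q) (hN : 1000000 ≤ N)
    (h17 : 1000000 * Q ^ 17 ≤ N) :
    (N / 300 + N / Q ^ 5 + 3 * Q ^ 6 * Q ^ 9 * Q ^ 2) / (N / 2) +
      2 * (N / Q ^ 5 * (2 * (Q * (N + 1)))) / (N / 2 * (N / 2)) ≤ 1 / 16 := by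
  have hQ0 : (0 : ℝ) < Q := by linarith
  have hN0 : (0 : ℝ) < N := by linarith
  have hq2 : (1000000 : ℝ) ≤ Q ^ 2 := by nlinarith
  have hq5 : (1000 : ℝ) ≤ Q ^ 5 := by
    calc (1000 : ℝ) ≤ Q := hQ
      _ = Q ^ 1 := (pow_one _).symm
      _ ≤ Q ^ 5 := pow_le_pow_right₀ (by linarith) (by norm_num)
  have hdl : N / Q ^ 5 ≤ N / 1000 := div_le_div_of_nonneg_left hN0.le (by norm_num) hq5
  have c1 : 3 * Q ^ 6 * Q ^ 9 * Q ^ 2 = 3 * Q ^ 17 := by ring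
  rw [c1]
  have c2 : (N / 300 + N / Q ^ 5 + 3 * Q ^ 17) / (N / 2) ≤ 1 / 32 := by
    rw [div_le_iff₀ (by positivity)]
    linarith
  have c3 : 2 * (N / Q ^ 5 * (2 * (Q * (N + 1)))) / (N / 2 * (N / 2)) ≤ 1 / 32 := by
    have c4 : 2 * (N / Q ^ 5 * (2 * (Q * (N + 1)))) / (N / 2 * (N / 2)) =
        16 * (N + 1) / (N * Q ^ 4) := by
      field_simp
      ring
    rw [c4, div_le_div_iff₀ (by positivity) (by norm_num)]
    have c5 : (1000000 : ℝ) ≤ Q ^ 4 := by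
      calc (1000000 : ℝ) ≤ Q ^ 2 := hq2
        _ ≤ Q ^ 4 := pow_le_pow_right₀ (by linarith) (by norm_num)
    have c6 : N * 1000000 ≤ N * Q ^ 4 := mul_le_mul_of_nonneg_left c5 hN0.le
    linarith
  linarith

end Pool.Agent.Helper852.Grd
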