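import Pool.Agent.Helper852.Kernel
import Pool.Agent.Helper852.CoreSel
import Pool.Agent.Helper852.Assemble
import Pool.Agent.Helper852.NumFacts

set_option autoImplicit false

/-!
Good graphs pack.
-/

namespace Pool.Agent.Helper852.Grd

open Finset Classical Pool.Agent.Helper852.Cnt Pool.Agent.Helper852.LLL Pool.Agent.Helper852.Sel

variable {n : ℕ}

/-- The number of vertices of large degree. -/
theorem card_high (G : SimpleGraph (Fin n)) (q : ℕ) (hG : Good q G) (D : ℕ) (hD : 0 < D) :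
    ((univ.filter (fun t => D < dg G t)).card : ℝ) ≤ 2 * (q * ((n : ℝ) + 1)) / D := by
  have h1 : (univ.filter (fun t => D < dg G t)).card * D ≤ 2 * (q * (n + 1)) := by
    calc (univ.filter (fun t => D < dg G t)).card * D
        = ∑ _t ∈ univ.filter (fun t => D < dg G t), D := by rw [Finset.sum_const, smul_eq_mul]
      _ ≤ ∑ t ∈ univ.filter (fun t => D < dg G t), dg G t :=
          Finset.sum_le_sum (fun t ht => (Finset.mem_filter.mp ht).2.le)
      _ ≤ ∑ t, dg G t := Finset.sum_le_sum_of_subset (Finset.filter_subset _ _)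
      _ ≤ _ := hG.edges
  have hDr : (0 : ℝ) < D := by exact_mod_cast hD
  rw [le_div_iff₀ hDr]
  exact_mod_cast h1

/-- The big vertices. -/
noncomputable def Big (q : ℕ) (G : SimpleGraph (Fin n)) : Finset (Fin n) :=
  univ.filter (fun v => n ≤ q ^ 5 * dg G v)

theorem card_big (G : SimpleGraph (Fin n)) (q : ℕ) (hG : Good q G) (hn : 2 ≤ n) :
    (Big q G).card ≤ 3 * q ^ 6 := by
  have h1 : (Big q G).card * n ≤ q ^ 5 * (2 * (q * (n + 1))) := by
    calc (Big q G).card * n = ∑ _v ∈ Big q G, n := by rw [Finset.sum_const, smul_eq_mul]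
      _ ≤ ∑ v ∈ Big q G, q ^ 5 * dg G v :=
          Finset.sum_le_sum (fun v hv => (Finset.mem_filter.mp hv).2)
      _ = q ^ 5 * ∑ v ∈ Big q G, dg G v := by rw [Finset.mul_sum]
      _ ≤ q ^ 5 * ∑ v, dg G v :=
          Nat.mul_le_mul_left _ (Finset.sum_le_sum_of_subset (Finset.subset_univ _))
      _ ≤ _ := Nat.mul_le_mul_left _ hG.edges
  have h2 : q ^ 5 * (2 * (q * (n + 1))) ≤ (3 * q ^ 6) * n := by
    have e1 : q ^ 5 * (2 * (q * (n + 1))) = q ^ 6 * (2 * n + 2) := by ring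
    have e2 : (3 * q ^ 6) * n = q ^ 6 * (3 * n) := by ring
    rw [e1, e2]
    apply Nat.mul_le_mul_left
    omega
  have h3 := h1.trans h2
  exact Nat.le_of_mul_le_mul_right h3 (by omega)

theorem not_big (G : SimpleGraph (Fin n)) (q : ℕ) (hq : 0 < q) (x : Fin n) (hx : x ∉ Big q G) :
    (dg G x : ℝ) ≤ (n : ℝ) / (q : ℝ) ^ 5 := by
  have h1 : q ^ 5 * dg G x < n := by
    by_contra hcon
    exact hx (Finset.mem_filter.mpr ⟨Finset.mem_univ _, by omega⟩)
  have h2 : (0 : ℝ) < (q : ℝ) ^ 5 := by positivity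
  rw [le_div_iff₀ h2, mul_comm]
  exact_mod_cast h1.le

theorem deg_le (G : SimpleGraph (Fin n)) (q : ℕ) (hG : Good q G) (hn : 200 * q ≤ n) (x : Fin n) :
    (dg G x : ℝ) ≤ 2 * (n : ℝ) / 3 := by
  have h1 := hG.maxdeg x
  have h2 : 3 * dg G x ≤ 2 * n := by omega
  have h3 : (3 : ℝ) * dg G x ≤ 2 * n := by exact_mod_cast h2
  linarith

/-- Numeric facts. -/
theorem num_facts (n q : ℕ) (hq : 1000 ≤ q) (hn : q ^ 40 ≤ n) :
    ∀ k : ℕ, k ≤ 38 → (1000000 : ℝ) * (q : ℝ) ^ k ≤ n := by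
  intro k hk
  have hq' : (1000 : ℝ) ≤ q := by exact_mod_cast hq
  have h1 : (q : ℝ) ^ 40 ≤ n := by exact_mod_cast hn
  have h2 : (q : ℝ) ^ k ≤ (q : ℝ) ^ 38 := pow_le_pow_right₀ (by linarith) hk
  have h3 : (q : ℝ) ^ 40 = (q : ℝ) ^ 2 * (q : ℝ) ^ 38 := by ring
  have h4 : (1000000 : ℝ) ≤ (q : ℝ) ^ 2 := by nlinarith
  calc (1000000 : ℝ) * (q : ℝ) ^ k ≤ 1000000 * (q : ℝ) ^ 38 := by linarith
    _ ≤ (q : ℝ) ^ 2 * (q : ℝ) ^ 38 := mul_le_mul_of_nonneg_right h4 (by positivity)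
    _ ≤ n := by rw [← h3]; exact h1

/-- One side of the selection. -/
theorem side (G H : SimpleGraph (Fin n)) (q : ℕ) (hG : Good q G) (hH : Good q H)
    (hq : 1000 ≤ q) (hn : q ^ 40 ≤ n) (A B : Finset (Fin n)) (hA : A = Big q G)
    (hB : B = Big q H) :
    ∃ κ : (A → Bool) × Fin (n - A.card) → Option (Fin n),
      (∀ p z, κ p = some z → z ∉ A ∧ ∀ u : A, G.Adj z u.1 → p.1 u = true) ∧
      2 * ((univ.filter (fun ω : B → (A → Bool) × Fin (n - A.card) =>
        ¬ GoodSel G κ (fun w => dg H w.1) A (q ^ 9) (5 * (n : ℝ) / 6) ω)).card : ℝ) <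
        Fintype.card (B → (A → Bool) × Fin (n - A.card)) := by
  have hnum := num_facts n q hq hn
  have hq' : (1000 : ℝ) ≤ q := by exact_mod_cast hq
  have hq0 : (0 : ℝ) < q := by linarith
  have hN : (1000000 : ℝ) ≤ n := by
    have := hnum 0 (by norm_num)
    simpa using this
  have hN0 : (0 : ℝ) < n := by linarith
  have hn2 : 2 ≤ n := by
    have : (2 : ℝ) ≤ n := by linarith
    exact_mod_cast this
  have hAc : A.card ≤ 3 * q ^ 6 := by rw [hA]; exact card_big G q hG hn2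
  have hBc : B.card ≤ 3 * q ^ 6 := by rw [hB]; exact card_big H q hH hn2
  have hAcr : (A.card : ℝ) ≤ 3 * (q : ℝ) ^ 6 := by exact_mod_cast hAc
  have hBcr : (B.card : ℝ) ≤ 3 * (q : ℝ) ^ 6 := by exact_mod_cast hBc
  have h6 := hnum 6 (by norm_num)
  have hAn : A.card ≤ n := by
    have : (A.card : ℝ) ≤ n := by linarith
    exact_mod_cast this
  have hmr : ((n - A.card : ℕ) : ℝ) = n - A.card := by rw [Nat.cast_sub hAn]
  have hm23 : 2 * (n : ℝ) ≤ 3 * ((n - A.card : ℕ) : ℝ) := by rw [hmr]; linarith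
  have hmpos : 0 < n - A.card := by
    have : (0 : ℝ) < ((n - A.card : ℕ) : ℝ) := by linarith
    exact_mod_cast this
  obtain ⟨κ, hκ1, hκ2, hκ3⟩ := kernel G q hG A
  refine ⟨κ, hκ1, ?_⟩
  have hPc : Fintype.card ((A → Bool) × Fin (n - A.card)) = 2 ^ A.card * (n - A.card) := by
    rw [Fintype.card_prod, Fintype.card_fun, Fintype.card_bool, Fintype.card_coe,
      Fintype.card_fin]
  have hP0 : 0 < Fintype.card ((A → Bool) × Fin (n - A.card)) := by
    rw [hPc]
    exact Nat.mul_pos (by positivity) hmpos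
  have h2a : (0 : ℝ) < 2 ^ A.card := by positivity
  -- θ = 3 / n
  have hθP : (2 : ℝ) ^ (A.card + 1) ≤ 3 / n *
      Fintype.card ((A → Bool) × Fin (n - A.card)) := by
    rw [hPc, Nat.cast_mul, Nat.cast_pow, Nat.cast_ofNat]
    have e1 : 3 / (n : ℝ) * (2 ^ A.card * ((n - A.card : ℕ) : ℝ)) =
        2 ^ A.card * (3 * ((n - A.card : ℕ) : ℝ) / n) := by ring
    rw [e1, pow_succ]
    apply mul_le_mul_of_nonneg_left _ h2a.le
    rw [le_div_iff₀ hN0]
    exact hm23
  have hcθ : ∀ z, ((univ.filter (fun p => κ p = some z)).card : ℝ) ≤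
      3 / n * Fintype.card ((A → Bool) × Fin (n - A.card)) := by
    intro z
    refine le_trans ?_ hθP
    exact_mod_cast hκ2 z
  have hδ : ((univ.filter (fun p => κ p = none)).card : ℝ) ≤
      (3 / n * ((3 * (q : ℝ) ^ 6 + 1) * q)) *
        Fintype.card ((A → Bool) × Fin (n - A.card)) := by
    have e1 : ((univ.filter (fun p => κ p = none)).card : ℝ) ≤
        2 ^ (A.card + 1) * (((A.card : ℝ) + 1) * q) := by
      exact_mod_cast hκ3
    calc ((univ.filter (fun p => κ p = none)).card : ℝ)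
        ≤ 2 ^ (A.card + 1) * (((A.card : ℝ) + 1) * q) := e1
      _ ≤ (3 / n * Fintype.card ((A → Bool) × Fin (n - A.card))) *
            ((3 * (q : ℝ) ^ 6 + 1) * q) := by
          apply mul_le_mul hθP _ (by positivity) (by positivity)
          apply mul_le_mul_of_nonneg_right _ hq0.le
          linarith
      _ = _ := by ring
  have hhi := card_high G q hG (q ^ 9) (by positivity)
  have hWG : ((∑ x, dg G x : ℕ) : ℝ) ≤ 2 * (q * ((n : ℝ) + 1)) := by exact_mod_cast hG.edges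
  have hWH : ((∑ x, dg H x : ℕ) : ℝ) ≤ 2 * (q * ((n : ℝ) + 1)) := by exact_mod_cast hH.edges
  have hQ : ∑ x ∈ univ.filter (fun x => x ∉ A), ((dg G x : ℝ)) ^ 2 ≤
      (n : ℝ) / (q : ℝ) ^ 5 * (2 * (q * ((n : ℝ) + 1))) := by
    calc ∑ x ∈ univ.filter (fun x => x ∉ A), ((dg G x : ℝ)) ^ 2
        ≤ ∑ x ∈ univ.filter (fun x => x ∉ A), (n : ℝ) / (q : ℝ) ^ 5 * (dg G x : ℝ) := by
          apply Finset.sum_le_sum
          intro x hx
          rw [sq]
          apply mul_le_mul_of_nonneg_right _ (Nat.cast_nonneg _)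
          have := (Finset.mem_filter.mp hx).2
          rw [hA] at this
          exact not_big G q (by omega) x this
      _ ≤ ∑ x, (n : ℝ) / (q : ℝ) ^ 5 * (dg G x : ℝ) := by
          apply Finset.sum_le_sum_of_subset_of_nonneg (Finset.filter_subset _ _)
          intro _ _ _
          positivity
      _ = (n : ℝ) / (q : ℝ) ^ 5 * ((∑ x, dg G x : ℕ) : ℝ) := by
          rw [← Finset.mul_sum, Nat.cast_sum]
      _ ≤ _ := mul_le_mul_of_nonneg_left hWG (by positivity)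
  have h200 : 200 * q ≤ n := by
    have h1 := hnum 1 (by norm_num)
    rw [pow_one] at h1
    have : (200 : ℝ) * q ≤ n := by linarith
    exact_mod_cast this
  have hmwsum : ∑ w : B, (dg H w.1 : ℝ) ≤ 2 * (q * ((n : ℝ) + 1)) := by
    refine le_trans ?_ hWH
    have : ∑ w : B, dg H w.1 ≤ ∑ x, dg H x := by
      rw [Finset.sum_coe_sort B (fun x => dg H x)]
      exact Finset.sum_le_sum_of_subset (Finset.subset_univ _)
    exact_mod_cast this
  have hmwsum0 : (0 : ℝ) ≤ ∑ w : B, (dg H w.1 : ℝ) :=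
    Finset.sum_nonneg (fun _ _ => Nat.cast_nonneg _)
  have hfinal := num_side n q B.card (∑ w : B, (dg H w.1 : ℝ)) hq' hN (hnum 7 (by norm_num))
    (hnum 12 (by norm_num)) (hnum 13 (by norm_num)) (hnum 21 (by norm_num))
    (Nat.cast_nonneg _) hBcr hmwsum0 hmwsum
  have hK : (5 * (n : ℝ) ^ 2 / 36) ≤ 5 * (n : ℝ) / 6 * (5 * (n : ℝ) / 6 - 2 * (n : ℝ) / 3) := by
    apply le_of_eq
    ring
  exact select_side hP0 G κ (fun w : B => dg H w.1) A (q ^ 9) (3 / n)
    (3 / n * ((3 * (q : ℝ) ^ 6 + 1) * q)) (2 * (q * ((n : ℝ) + 1)) / ((q ^ 9 : ℕ) : ℝ))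
    (5 * (n : ℝ) / 6) (2 * (n : ℝ) / 3) (5 * (n : ℝ) ^ 2 / 36)
    ((n : ℝ) / (q : ℝ) ^ 5 * (2 * (q * ((n : ℝ) + 1)))) hcθ hδ hhi hQ (by positivity)
    (fun w => deg_le H q hH h200 w.1) (by positivity) (by linarith) (by positivity)
    hK (by
      rw [Fintype.card_coe, Nat.cast_pow]
      exact hfinal)

theorem main_pack (G H : SimpleGraph (Fin n)) (q : ℕ) (hG : Good q G) (hH : Good q H)
    (hq : 1000 ≤ q) (hn : q ^ 40 ≤ n) (A B : Finset (Fin n)) (hA : A = Big q G)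
    (hB : B = Big q H) :
    ∃ σ : Fin n ≃ Fin n, ∀ u v, H.Adj u v → ¬ G.Adj (σ u) (σ v) := by
  have hnum := num_facts n q hq hn
  have hq' : (1000 : ℝ) ≤ q := by exact_mod_cast hq
  have hq0 : (0 : ℝ) < q := by linarith
  have hN : (1000000 : ℝ) ≤ n := by
    have := hnum 0 (by norm_num)
    simpa using this
  have hN0 : (0 : ℝ) < n := by linarith
  have hn2 : 2 ≤ n := by
    have : (2 : ℝ) ≤ n := by linarith
    exact_mod_cast this
  obtain ⟨κ, hκ, hsel⟩ := side G H q hG hH hq hn A B hA hB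
  obtain ⟨κ', hκ', hsel'⟩ := side H G q hH hG hq hn B A hB hA
  have hAc : A.card ≤ 3 * q ^ 6 := by rw [hA]; exact card_big G q hG hn2
  have hBc : B.card ≤ 3 * q ^ 6 := by rw [hB]; exact card_big H q hH hn2
  have hAcr : (A.card : ℝ) ≤ 3 * (q : ℝ) ^ 6 := by exact_mod_cast hAc
  have hBcr : (B.card : ℝ) ≤ 3 * (q : ℝ) ^ 6 := by exact_mod_cast hBc
  have h6 := hnum 6 (by norm_num)
  have hmA : 0 < n - A.card := by
    have : A.card < n := by
      have : (A.card : ℝ) < n := by linarith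
      exact_mod_cast this
    omega
  have hmB : 0 < n - B.card := by
    have : B.card < n := by
      have : (B.card : ℝ) < n := by linarith
      exact_mod_cast this
    omega
  obtain ⟨z, v, hzA, hvB, hzD, hvD, hz, hv, hLG, hLH, hcross⟩ :=
    core_select G H A B (n - A.card) (n - B.card) hmA hmB κ κ' hκ hκ'
      (fun w => dg H w.1) (fun u => dg G u.1) (q ^ 9) (5 * (n : ℝ) / 6) hsel hsel'
  have hhG := card_high G q hG (q ^ 2) (by positivity)
  have hhH := card_high H q hH (q ^ 2) (by positivity)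
  have hWG : ((∑ x, dg G x : ℕ) : ℝ) ≤ 2 * (q * ((n : ℝ) + 1)) := by exact_mod_cast hG.edges
  have hWH : ((∑ x, dg H x : ℕ) : ℝ) ≤ 2 * (q * ((n : ℝ) + 1)) := by exact_mod_cast hH.edges
  have e15 := hnum 15 (by norm_num)
  have e17 := hnum 17 (by norm_num)
  have a1 := num_asm1 n q hq' hN h6 e15 e17
  have a3 := num_asm3 n q hq' hN e17
  exact assemble G H A B z v (q ^ 9) (q ^ 2) (5 * (n : ℝ) / 6) ((n : ℝ) / 300)
    (2 * (q * ((n : ℝ) + 1))) ((n : ℝ) / (q : ℝ) ^ 5)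
    (2 * (q * ((n : ℝ) + 1)) / ((q ^ 2 : ℕ) : ℝ)) (3 * (q : ℝ) ^ 6) ((n : ℝ) / 2)
    hzA hvB hzD hvD hz hv hLG hLH hcross
    (fun x hx => not_big G q (by omega) x (by rw [← hA]; exact hx))
    (fun x hx => not_big H q (by omega) x (by rw [← hB]; exact hx))
    hWG hWH hhG hhH hAcr hBcr (by positivity) (by positivity) (by positivity)
    (by
      rw [Nat.cast_pow, Nat.cast_pow]
      exact a1)
    (by
      rw [Nat.cast_pow]
      have c1 : 3 * (q : ℝ) ^ 6 * (q : ℝ) ^ 9 = 3 * (q : ℝ) ^ 15 := by ring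
      rw [c1]
      linarith)
    (by
      rw [Nat.cast_pow, Nat.cast_pow]
      exact a3)

end Pool.Agent.Helper852.Grd
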