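import Pool.Agent.Helper852.LLL

set_option autoImplicit false

/-!
Packing two sparse relations while avoiding forbidden assignments.
-/

namespace Pool.Agent.Helper852.LLL

open Finset Classical

variable {α β : Type} [Fintype α] [Fintype β]

theorem sum_le_union {ι : Type} [DecidableEq ι] (f : ι → ℝ) (hf : ∀ i, 0 ≤ f i) (s t1 t2 : Finset ι)
    (h : s ⊆ t1 ∪ t2) : ∑ i ∈ s, f i ≤ ∑ i ∈ t1, f i + ∑ i ∈ t2, f i := by
  have h1 : ∑ i ∈ s, f i ≤ ∑ i ∈ t1 ∪ t2, f i :=
    Finset.sum_le_sum_of_subset_of_nonneg h (fun i _ _ => hf i)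
  have h2 := Finset.sum_union_inter (s₁ := t1) (s₂ := t2) (f := f)
  have h3 : 0 ≤ ∑ i ∈ t1 ∩ t2, f i := Finset.sum_nonneg (fun i _ => hf i)
  linarith

/-- Indices for forbidden single assignments. -/
noncomputable def I1 (forb : α → β → Prop) : Finset (Ix α β) :=
  univ.filter (fun i => i.1 = i.2 ∧ forb i.1.1 i.1.2)

/-- Indices for edge conflicts. -/
noncomputable def I2 (hA : α → α → Prop) (gB : β → β → Prop) : Finset (Ix α β) :=
  univ.filter (fun i => hA i.1.1 i.2.1 ∧ gB i.1.2 i.2.2)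

theorem lll_pack (e0 : α ≃ β) (hβ : 3 ≤ Fintype.card β)
    (hA : α → α → Prop) (gB : β → β → Prop) (forb : α → β → Prop)
    (hAi : ∀ a, ¬ hA a a) (gBi : ∀ b, ¬ gB b b)
    (hAs : ∀ a a', hA a a' → hA a' a) (gBs : ∀ b b', gB b b' → gB b' b)
    (F dl W : ℝ) (hdl : 0 ≤ dl)
    (hF1 : ∀ a, ((univ.filter (fun b => forb a b)).card : ℝ) ≤ F)
    (hF2 : ∀ b, ((univ.filter (fun a => forb a b)).card : ℝ) ≤ F)
    (hd1 : ∀ a, ((univ.filter (fun a' => hA a a')).card : ℝ) ≤ dl)
    (hd2 : ∀ b, ((univ.filter (fun b' => gB b b')).card : ℝ) ≤ dl)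
    (hW1 : ((univ.filter (fun p : α × α => hA p.1 p.2)).card : ℝ) ≤ W)
    (hW2 : ((univ.filter (fun p : β × β => gB p.1 p.2)).card : ℝ) ≤ W)
    (hnum : F / (Fintype.card β : ℝ) +
      2 * (dl * W) / ((Fintype.card β * (Fintype.card β - 1) : ℕ) : ℝ) ≤ 1 / 16) :
    ∃ σ : α ≃ β, (∀ a, ¬ forb a (σ a)) ∧ ∀ a a', hA a a' → ¬ gB (σ a) (σ a') := by
  set m := Fintype.card β with hm
  set J1 := I1 forb with hJ1
  set J2 := I2 hA gB with hJ2
  have hw1 : ∀ j ∈ J1, wt j = m := by
    intro j hj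
    have := (Finset.mem_filter.mp hj).2.1
    rw [wt, if_pos (by rw [this])]
  have hw2 : ∀ j ∈ J2, wt j = m * (m - 1) := by
    intro j hj
    have := (Finset.mem_filter.mp hj).2.1
    rw [wt, if_neg]
    intro h
    rw [h] at this
    exact hAi _ this
  have hf : ∀ j : Ix α β, (0 : ℝ) ≤ 1 / wt j := fun j => by positivity
  have hmpos : (0 : ℝ) < (m : ℝ) := by
    have : 0 < m := by omega
    exact_mod_cast this
  have hm2pos : (0 : ℝ) < ((m * (m - 1) : ℕ) : ℝ) := by
    have : 0 < m * (m - 1) := Nat.mul_pos (by omega) (by omega)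
    exact_mod_cast this
  -- sums over subsets of J1, J2
  have sum1 : ∀ s ⊆ J1, (s.card : ℝ) ≤ F → ∑ j ∈ s, (1 : ℝ) / wt j ≤ F / m := by
    intro s hs hc
    rw [Finset.sum_congr rfl (fun j hj => by rw [hw1 j (hs hj)]), Finset.sum_const, nsmul_eq_mul,
      mul_one_div]
    exact div_le_div_of_nonneg_right hc hmpos.le
  have sum2 : ∀ s ⊆ J2, (s.card : ℝ) ≤ dl * W →
      ∑ j ∈ s, (1 : ℝ) / wt j ≤ (dl * W) / ((m * (m - 1) : ℕ) : ℝ) := by
    intro s hs hc
    rw [Finset.sum_congr rfl (fun j hj => by rw [hw2 j (hs hj)]), Finset.sum_const, nsmul_eq_mul,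
      mul_one_div]
    exact div_le_div_of_nonneg_right hc hm2pos.le
  have card_prod_le : ∀ {γ δ : Type} (s : Finset (Ix α β)) (t1 : Finset γ) (t2 : Finset δ)
      (f : Ix α β → γ × δ), (∀ j ∈ s, (f j).1 ∈ t1 ∧ (f j).2 ∈ t2) → Set.InjOn f s →
      (t1.card : ℝ) ≤ dl → (t2.card : ℝ) ≤ W → (s.card : ℝ) ≤ dl * W := by
    intro γ δ s t1 t2 f h1 h2 h3 h4
    have h5 : s.card ≤ (t1 ×ˢ t2).card := by
      apply Finset.card_le_card_of_injOn f
      · intro j hj
        exact Finset.mem_coe.mpr (Finset.mem_product.mpr (h1 j hj))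
      · exact h2
    rw [Finset.card_product] at h5
    calc (s.card : ℝ) ≤ (t1.card : ℝ) * t2.card := by exact_mod_cast h5
      _ ≤ dl * W := mul_le_mul h3 h4 (Nat.cast_nonneg _) hdl
  -- the sum over indices touching a
  have touchA : ∀ a : α, ∑ j ∈ (J1 ∪ J2).filter (fun j => j.1.1 = a ∨ j.2.1 = a),
      (1 : ℝ) / wt j ≤ 1 / 16 := by
    intro a
    have hsub : (J1 ∪ J2).filter (fun j => j.1.1 = a ∨ j.2.1 = a) ⊆
        J1.filter (fun j => j.1.1 = a) ∪
          (J2.filter (fun j => j.1.1 = a) ∪ J2.filter (fun j => j.2.1 = a)) := by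
      intro j hj
      rw [Finset.mem_filter, Finset.mem_union] at hj
      obtain ⟨hj1 | hj2, hc⟩ := hj
      · apply Finset.mem_union_left
        refine Finset.mem_filter.mpr ⟨hj1, ?_⟩
        have he := (Finset.mem_filter.mp hj1).2.1
        rcases hc with h | h
        · exact h
        · rw [he]; exact h
      · apply Finset.mem_union_right
        rcases hc with h | h
        · exact Finset.mem_union_left _ (Finset.mem_filter.mpr ⟨hj2, h⟩)
        · exact Finset.mem_union_right _ (Finset.mem_filter.mpr ⟨hj2, h⟩)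
    have c1 : ((J1.filter (fun j => j.1.1 = a)).card : ℝ) ≤ F := by
      refine le_trans ?_ (hF1 a)
      have : (J1.filter (fun j => j.1.1 = a)).card ≤ (univ.filter (fun b => forb a b)).card := by
        apply Finset.card_le_card_of_injOn (fun j => j.1.2)
        · intro j hj
          have hj' := Finset.mem_filter.mp (Finset.mem_coe.mp hj)
          have h1 := (Finset.mem_filter.mp hj'.1).2.2
          rw [hj'.2] at h1
          exact Finset.mem_coe.mpr (Finset.mem_filter.mpr ⟨Finset.mem_univ _, h1⟩)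
        · intro j hj j' hj' h
          have hj1 := Finset.mem_filter.mp (Finset.mem_coe.mp hj)
          have hj1' := Finset.mem_filter.mp (Finset.mem_coe.mp hj')
          have e1 := (Finset.mem_filter.mp hj1.1).2.1
          have e1' := (Finset.mem_filter.mp hj1'.1).2.1
          have h2 : j.1 = j'.1 := Prod.ext (hj1.2.trans hj1'.2.symm) h
          exact Prod.ext h2 (e1.symm.trans (h2.trans e1'))
      exact_mod_cast this
    have c2 : ((J2.filter (fun j => j.1.1 = a)).card : ℝ) ≤ dl * W := by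
      apply card_prod_le _ (univ.filter (fun a' => hA a a'))
        (univ.filter (fun p : β × β => gB p.1 p.2)) (fun j => (j.2.1, (j.1.2, j.2.2)))
        _ _ (hd1 a) hW2
      · intro j hj
        have hj' := Finset.mem_filter.mp hj
        have h1 := (Finset.mem_filter.mp hj'.1).2
        rw [hj'.2] at h1
        exact ⟨Finset.mem_filter.mpr ⟨Finset.mem_univ _, h1.1⟩,
          Finset.mem_filter.mpr ⟨Finset.mem_univ _, h1.2⟩⟩
      · intro j hj j' hj' h
        have hj1 := Finset.mem_filter.mp (Finset.mem_coe.mp hj)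
        have hj1' := Finset.mem_filter.mp (Finset.mem_coe.mp hj')
        simp only [Prod.mk.injEq] at h
        exact Prod.ext (Prod.ext (hj1.2.trans hj1'.2.symm) h.2.1) (Prod.ext h.1 h.2.2)
    have c3 : ((J2.filter (fun j => j.2.1 = a)).card : ℝ) ≤ dl * W := by
      apply card_prod_le _ (univ.filter (fun a' => hA a a'))
        (univ.filter (fun p : β × β => gB p.1 p.2)) (fun j => (j.1.1, (j.1.2, j.2.2)))
        _ _ (hd1 a) hW2
      · intro j hj
        have hj' := Finset.mem_filter.mp hj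
        have h1 := (Finset.mem_filter.mp hj'.1).2
        rw [hj'.2] at h1
        exact ⟨Finset.mem_filter.mpr ⟨Finset.mem_univ _, hAs _ _ h1.1⟩,
          Finset.mem_filter.mpr ⟨Finset.mem_univ _, h1.2⟩⟩
      · intro j hj j' hj' h
        have hj1 := Finset.mem_filter.mp (Finset.mem_coe.mp hj)
        have hj1' := Finset.mem_filter.mp (Finset.mem_coe.mp hj')
        simp only [Prod.mk.injEq] at h
        exact Prod.ext (Prod.ext h.1 h.2.1) (Prod.ext (hj1.2.trans hj1'.2.symm) h.2.2)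
    have t1 := sum_le_union (fun j : Ix α β => (1 : ℝ) / wt j) hf _ _ _ hsub
    have t2 := sum_le_union (fun j : Ix α β => (1 : ℝ) / wt j) hf _ _ _
      (Finset.Subset.refl (J2.filter (fun j => j.1.1 = a) ∪ J2.filter (fun j => j.2.1 = a)))
    have u1 := sum1 _ (Finset.filter_subset _ _) c1
    have u2 := sum2 _ (Finset.filter_subset _ _) c2
    have u3 := sum2 _ (Finset.filter_subset _ _) c3
    have e4 : 2 * (dl * W) / ((m * (m - 1) : ℕ) : ℝ) = (dl * W) / ((m * (m - 1) : ℕ) : ℝ) +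
      (dl * W) / ((m * (m - 1) : ℕ) : ℝ) := by ring
    rw [e4] at hnum
    linarith
  have touchB : ∀ b : β, ∑ j ∈ (J1 ∪ J2).filter (fun j => j.1.2 = b ∨ j.2.2 = b),
      (1 : ℝ) / wt j ≤ 1 / 16 := by
    intro b
    have hsub : (J1 ∪ J2).filter (fun j => j.1.2 = b ∨ j.2.2 = b) ⊆
        J1.filter (fun j => j.1.2 = b) ∪
          (J2.filter (fun j => j.1.2 = b) ∪ J2.filter (fun j => j.2.2 = b)) := by
      intro j hj
      rw [Finset.mem_filter, Finset.mem_union] at hj
      obtain ⟨hj1 | hj2, hc⟩ := hj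
      · apply Finset.mem_union_left
        refine Finset.mem_filter.mpr ⟨hj1, ?_⟩
        have he := (Finset.mem_filter.mp hj1).2.1
        rcases hc with h | h
        · exact h
        · rw [he]; exact h
      · apply Finset.mem_union_right
        rcases hc with h | h
        · exact Finset.mem_union_left _ (Finset.mem_filter.mpr ⟨hj2, h⟩)
        · exact Finset.mem_union_right _ (Finset.mem_filter.mpr ⟨hj2, h⟩)
    have c1 : ((J1.filter (fun j => j.1.2 = b)).card : ℝ) ≤ F := by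
      refine le_trans ?_ (hF2 b)
      have : (J1.filter (fun j => j.1.2 = b)).card ≤ (univ.filter (fun a => forb a b)).card := by
        apply Finset.card_le_card_of_injOn (fun j => j.1.1)
        · intro j hj
          have hj' := Finset.mem_filter.mp (Finset.mem_coe.mp hj)
          have h1 := (Finset.mem_filter.mp hj'.1).2.2
          rw [hj'.2] at h1
          exact Finset.mem_coe.mpr (Finset.mem_filter.mpr ⟨Finset.mem_univ _, h1⟩)
        · intro j hj j' hj' h
          have hj1 := Finset.mem_filter.mp (Finset.mem_coe.mp hj)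
          have hj1' := Finset.mem_filter.mp (Finset.mem_coe.mp hj')
          have e1 := (Finset.mem_filter.mp hj1.1).2.1
          have e1' := (Finset.mem_filter.mp hj1'.1).2.1
          have h2 : j.1 = j'.1 := Prod.ext h (hj1.2.trans hj1'.2.symm)
          exact Prod.ext h2 (e1.symm.trans (h2.trans e1'))
      exact_mod_cast this
    have c2 : ((J2.filter (fun j => j.1.2 = b)).card : ℝ) ≤ dl * W := by
      apply card_prod_le _ (univ.filter (fun b' => gB b b'))
        (univ.filter (fun p : α × α => hA p.1 p.2)) (fun j => (j.2.2, (j.1.1, j.2.1)))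
        _ _ (hd2 b) hW1
      · intro j hj
        have hj' := Finset.mem_filter.mp hj
        have h1 := (Finset.mem_filter.mp hj'.1).2
        rw [hj'.2] at h1
        exact ⟨Finset.mem_filter.mpr ⟨Finset.mem_univ _, h1.2⟩,
          Finset.mem_filter.mpr ⟨Finset.mem_univ _, h1.1⟩⟩
      · intro j hj j' hj' h
        have hj1 := Finset.mem_filter.mp (Finset.mem_coe.mp hj)
        have hj1' := Finset.mem_filter.mp (Finset.mem_coe.mp hj')
        simp only [Prod.mk.injEq] at h
        exact Prod.ext (Prod.ext h.2.1 (hj1.2.trans hj1'.2.symm)) (Prod.ext h.2.2 h.1)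
    have c3 : ((J2.filter (fun j => j.2.2 = b)).card : ℝ) ≤ dl * W := by
      apply card_prod_le _ (univ.filter (fun b' => gB b b'))
        (univ.filter (fun p : α × α => hA p.1 p.2)) (fun j => (j.1.2, (j.1.1, j.2.1)))
        _ _ (hd2 b) hW1
      · intro j hj
        have hj' := Finset.mem_filter.mp hj
        have h1 := (Finset.mem_filter.mp hj'.1).2
        rw [hj'.2] at h1
        exact ⟨Finset.mem_filter.mpr ⟨Finset.mem_univ _, gBs _ _ h1.2⟩,
          Finset.mem_filter.mpr ⟨Finset.mem_univ _, h1.1⟩⟩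
      · intro j hj j' hj' h
        have hj1 := Finset.mem_filter.mp (Finset.mem_coe.mp hj)
        have hj1' := Finset.mem_filter.mp (Finset.mem_coe.mp hj')
        simp only [Prod.mk.injEq] at h
        exact Prod.ext (Prod.ext h.2.1 h.1) (Prod.ext h.2.2 (hj1.2.trans hj1'.2.symm))
    have t1 := sum_le_union (fun j : Ix α β => (1 : ℝ) / wt j) hf _ _ _ hsub
    have t2 := sum_le_union (fun j : Ix α β => (1 : ℝ) / wt j) hf _ _ _
      (Finset.Subset.refl (J2.filter (fun j => j.1.2 = b) ∪ J2.filter (fun j => j.2.2 = b)))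
    have u1 := sum1 _ (Finset.filter_subset _ _) c1
    have u2 := sum2 _ (Finset.filter_subset _ _) c2
    have u3 := sum2 _ (Finset.filter_subset _ _) c3
    have e4 : 2 * (dl * W) / ((m * (m - 1) : ℕ) : ℝ) = (dl * W) / ((m * (m - 1) : ℕ) : ℝ) +
      (dl * W) / ((m * (m - 1) : ℕ) : ℝ) := by ring
    rw [e4] at hnum
    linarith
  obtain ⟨σ, hσ⟩ := exists_avoiding e0 hβ (J1 ∪ J2) (by
    intro j hj
    rcases Finset.mem_union.mp hj with hj | hj
    · have he := (Finset.mem_filter.mp hj).2.1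
      exact Or.inl ⟨by rw [he], by rw [he]⟩
    · have he := (Finset.mem_filter.mp hj).2
      refine Or.inr ⟨?_, ?_⟩
      · intro h
        have h1 := he.1
        rw [h] at h1
        exact hAi _ h1
      · intro h
        have h1 := he.2
        rw [h] at h1
        exact gBi _ h1) (by
    intro i _
    have hsub : (J1 ∪ J2).filter (Conf i) ⊆
        ((J1 ∪ J2).filter (fun j => j.1.1 = i.1.1 ∨ j.2.1 = i.1.1) ∪
          (J1 ∪ J2).filter (fun j => j.1.1 = i.2.1 ∨ j.2.1 = i.2.1)) ∪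
        ((J1 ∪ J2).filter (fun j => j.1.2 = i.1.2 ∨ j.2.2 = i.1.2) ∪
          (J1 ∪ J2).filter (fun j => j.1.2 = i.2.2 ∨ j.2.2 = i.2.2)) := by
      intro j hj
      obtain ⟨hjJ, hc⟩ := Finset.mem_filter.mp hj
      simp only [Finset.mem_union, Finset.mem_filter] at hjJ ⊢
      unfold Conf Clash at hc
      rcases hc with (⟨h, _⟩ | ⟨_, h⟩) | (⟨h, _⟩ | ⟨_, h⟩) | (⟨h, _⟩ | ⟨_, h⟩) | (⟨h, _⟩ | ⟨_, h⟩)
      · exact Or.inl (Or.inl ⟨hjJ, Or.inl h.symm⟩)
      · exact Or.inr (Or.inl ⟨hjJ, Or.inl h.symm⟩)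
      · exact Or.inl (Or.inl ⟨hjJ, Or.inr h.symm⟩)
      · exact Or.inr (Or.inl ⟨hjJ, Or.inr h.symm⟩)
      · exact Or.inl (Or.inr ⟨hjJ, Or.inl h.symm⟩)
      · exact Or.inr (Or.inr ⟨hjJ, Or.inl h.symm⟩)
      · exact Or.inl (Or.inr ⟨hjJ, Or.inr h.symm⟩)
      · exact Or.inr (Or.inr ⟨hjJ, Or.inr h.symm⟩)
    have t0 := sum_le_union (fun j : Ix α β => (1 : ℝ) / wt j) hf _ _ _ hsub
    have t1 := sum_le_union (fun j : Ix α β => (1 : ℝ) / wt j) hf _ _ _
      (Finset.Subset.refl ((J1 ∪ J2).filter (fun j => j.1.1 = i.1.1 ∨ j.2.1 = i.1.1) ∪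
          (J1 ∪ J2).filter (fun j => j.1.1 = i.2.1 ∨ j.2.1 = i.2.1)))
    have t2 := sum_le_union (fun j : Ix α β => (1 : ℝ) / wt j) hf _ _ _
      (Finset.Subset.refl ((J1 ∪ J2).filter (fun j => j.1.2 = i.1.2 ∨ j.2.2 = i.1.2) ∪
          (J1 ∪ J2).filter (fun j => j.1.2 = i.2.2 ∨ j.2.2 = i.2.2)))
    have a1 := touchA i.1.1
    have a2 := touchA i.2.1
    have a3 := touchB i.1.2
    have a4 := touchB i.2.2
    linarith)
  refine ⟨σ, ?_, ?_⟩
  · intro a ha
    apply hσ ((a, σ a), (a, σ a))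
    · apply Finset.mem_union_left
      exact Finset.mem_filter.mpr ⟨Finset.mem_univ _, rfl, ha⟩
    · exact ⟨rfl, rfl⟩
  · intro a a' haa hgb
    apply hσ ((a, σ a), (a', σ a'))
    · apply Finset.mem_union_right
      exact Finset.mem_filter.mpr ⟨Finset.mem_univ _, haa, hgb⟩
    · exact ⟨rfl, rfl⟩

end Pool.Agent.Helper852.LLL
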