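import Pool.Agent.Helper852.Counting

set_option autoImplicit false

/-!
Union bounds for a random independent selection.
-/

namespace Pool.Agent.Helper852.Sel

open Finset Classical Pool.Agent.Helper852.Cnt

variable {n : ℕ} {P W : Type} [Fintype P] [Fintype W] [DecidableEq W]

theorem count_pair (w w' : W) (hw : w ≠ w') (P1 P2 : Finset P) :
    (univ.filter (fun ω : W → P => ω w ∈ P1 ∧ ω w' ∈ P2)).card * Fintype.card P ^ 2 =
      P1.card * P2.card * Fintype.card (W → P) := by
  set t : W → Finset P := fun i => if i = w then P1 else if i = w' then P2 else univ with ht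
  have h1 : univ.filter (fun ω : W → P => ω w ∈ P1 ∧ ω w' ∈ P2) = Fintype.piFinset t := by
    ext ω
    rw [Fintype.mem_piFinset, Finset.mem_filter]
    constructor
    · rintro ⟨_, h1, h2⟩ i
      simp only [ht]
      split_ifs with h3 h4
      · rw [h3]; exact h1
      · rw [h4]; exact h2
      · exact Finset.mem_univ _
    · intro h
      refine ⟨Finset.mem_univ _, ?_, ?_⟩
      · have := h w
        simpa [ht] using this
      · have := h w'
        simpa [ht, hw.symm] using this
  have h2 : w' ∈ (univ : Finset W).erase w := Finset.mem_erase.mpr ⟨hw.symm, Finset.mem_univ _⟩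
  have h3 : ∏ i, (t i).card = P1.card * (P2.card *
      Fintype.card P ^ (((univ : Finset W).erase w).erase w').card) := by
    rw [← Finset.mul_prod_erase univ _ (Finset.mem_univ w), ← Finset.mul_prod_erase _ _ h2]
    have e1 : t w = P1 := by simp [ht]
    have e2 : t w' = P2 := by simp [ht, hw.symm]
    rw [e1, e2]
    congr 2
    rw [← Finset.prod_const]
    apply Finset.prod_congr rfl
    intro i hi
    rw [Finset.mem_erase, Finset.mem_erase] at hi
    simp [ht, hi.1, hi.2.1]
  have h4 : Fintype.card (W → P) = Fintype.card P * (Fintype.card P *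
      Fintype.card P ^ (((univ : Finset W).erase w).erase w').card) := by
    rw [Fintype.card_fun, ← Finset.card_univ (α := W), ← Finset.prod_const,
      ← Finset.mul_prod_erase univ _ (Finset.mem_univ w), ← Finset.mul_prod_erase _ _ h2,
      Finset.prod_const]
  rw [h1, Fintype.card_piFinset, h3, h4]
  ring

theorem count_single (w : W) (P1 : Finset P) :
    (univ.filter (fun ω : W → P => ω w ∈ P1)).card * Fintype.card P =
      P1.card * Fintype.card (W → P) := by
  set t : W → Finset P := fun i => if i = w then P1 else univ with ht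
  have h1 : univ.filter (fun ω : W → P => ω w ∈ P1) = Fintype.piFinset t := by
    ext ω
    rw [Fintype.mem_piFinset, Finset.mem_filter]
    constructor
    · rintro ⟨_, h1⟩ i
      simp only [ht]
      split_ifs with h3
      · rw [h3]; exact h1
      · exact Finset.mem_univ _
    · intro h
      refine ⟨Finset.mem_univ _, ?_⟩
      have := h w
      simpa [ht] using this
  have h3 : ∏ i, (t i).card = P1.card *
      Fintype.card P ^ ((univ : Finset W).erase w).card := by
    rw [← Finset.mul_prod_erase univ _ (Finset.mem_univ w)]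
    have e1 : t w = P1 := by simp [ht]
    rw [e1]
    congr 1
    rw [← Finset.prod_const]
    apply Finset.prod_congr rfl
    intro i hi
    rw [Finset.mem_erase] at hi
    simp [ht, hi.1]
  have h4 : Fintype.card (W → P) = Fintype.card P *
      Fintype.card P ^ ((univ : Finset W).erase w).card := by
    rw [Fintype.card_fun, ← Finset.card_univ (α := W), ← Finset.prod_const,
      ← Finset.mul_prod_erase univ _ (Finset.mem_univ w), Finset.prod_const]
  rw [h1, Fintype.card_piFinset, h3, h4]
  ring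

/-- Real version. -/
theorem prob_pair (hP : 0 < Fintype.card P) (w w' : W) (hw : w ≠ w') (P1 P2 : Finset P)
    (x y : ℝ) (hx : (P1.card : ℝ) ≤ x * Fintype.card P) (hy : (P2.card : ℝ) ≤ y * Fintype.card P) :
    ((univ.filter (fun ω : W → P => ω w ∈ P1 ∧ ω w' ∈ P2)).card : ℝ) ≤
      x * y * Fintype.card (W → P) := by
  have h := count_pair w w' hw P1 P2
  have h1 : ((univ.filter (fun ω : W → P => ω w ∈ P1 ∧ ω w' ∈ P2)).card : ℝ) *
      (Fintype.card P : ℝ) ^ 2 = P1.card * P2.card * Fintype.card (W → P) := by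
    exact_mod_cast h
  have hPr : (0 : ℝ) < Fintype.card P := by exact_mod_cast hP
  have hx0 : 0 ≤ x := by
    by_contra hneg
    push Not at hneg
    have : x * Fintype.card P < 0 := mul_neg_of_neg_of_pos hneg hPr
    have h3 : (0 : ℝ) ≤ P1.card := Nat.cast_nonneg _
    linarith
  have h2 : (P1.card : ℝ) * P2.card ≤ (x * Fintype.card P) * (y * Fintype.card P) :=
    mul_le_mul hx hy (Nat.cast_nonneg _) (mul_nonneg hx0 hPr.le)
  have h3 : ((univ.filter (fun ω : W → P => ω w ∈ P1 ∧ ω w' ∈ P2)).card : ℝ) *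
      (Fintype.card P : ℝ) ^ 2 ≤ (x * y * Fintype.card (W → P)) * (Fintype.card P : ℝ) ^ 2 := by
    rw [h1]
    calc (P1.card : ℝ) * P2.card * Fintype.card (W → P)
        ≤ ((x * Fintype.card P) * (y * Fintype.card P)) * Fintype.card (W → P) :=
          mul_le_mul_of_nonneg_right h2 (Nat.cast_nonneg _)
      _ = _ := by ring
  exact le_of_mul_le_mul_right h3 (by positivity)

theorem prob_single (hP : 0 < Fintype.card P) (w : W) (P1 : Finset P)
    (x : ℝ) (hx : (P1.card : ℝ) ≤ x * Fintype.card P) :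
    ((univ.filter (fun ω : W → P => ω w ∈ P1)).card : ℝ) ≤ x * Fintype.card (W → P) := by
  have h := count_single w P1
  have h1 : ((univ.filter (fun ω : W → P => ω w ∈ P1)).card : ℝ) *
      (Fintype.card P : ℝ) = P1.card * Fintype.card (W → P) := by
    exact_mod_cast h
  have hPr : (0 : ℝ) < Fintype.card P := by exact_mod_cast hP
  have h3 : ((univ.filter (fun ω : W → P => ω w ∈ P1)).card : ℝ) *
      (Fintype.card P : ℝ) ≤ (x * Fintype.card (W → P)) * (Fintype.card P : ℝ) := by
    rw [h1]
    calc (P1.card : ℝ) * Fintype.card (W → P)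
        ≤ (x * Fintype.card P) * Fintype.card (W → P) :=
          mul_le_mul_of_nonneg_right hx (Nat.cast_nonneg _)
      _ = _ := by ring
  exact le_of_mul_le_mul_right h3 hPr

/-- The load of `x` under the selection `ω`. -/
noncomputable def load (G : SimpleGraph (Fin n)) (κ : P → Option (Fin n)) (mw : W → ℕ)
    (x : Fin n) (ω : W → P) : ℝ :=
  ∑ w, if ∃ z, κ (ω w) = some z ∧ G.Adj z x then (mw w : ℝ) else 0

/-- Bound on the number of selections overloading `x`. -/
theorem load_bound (hP : 0 < Fintype.card P) (G : SimpleGraph (Fin n))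
    (κ : P → Option (Fin n)) (mw : W → ℕ) (θ L Mx K : ℝ)
    (hc : ∀ z, ((univ.filter (fun p => κ p = some z)).card : ℝ) ≤ θ * Fintype.card P)
    (hθ : 0 ≤ θ) (hmw : ∀ w, (mw w : ℝ) ≤ Mx) (hL : 0 ≤ Mx) (hML : Mx ≤ L) (hK : K ≤ L * (L - Mx))
    (x : Fin n) :
    K * ((univ.filter (fun ω : W → P => L < load G κ mw x ω)).card : ℝ) ≤
      (θ * dg G x) ^ 2 * (∑ w, (mw w : ℝ)) ^ 2 * Fintype.card (W → P) := by
  set Px : Finset P := univ.filter (fun p => ∃ z, κ p = some z ∧ G.Adj z x) with hPx
  have hPxc : (Px.card : ℝ) ≤ (θ * dg G x) * Fintype.card P := by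
    have h1 : Px ⊆ (univ.filter (fun u => G.Adj x u)).biUnion
        (fun z => univ.filter (fun p => κ p = some z)) := by
      intro p hp
      obtain ⟨z, hz, ha⟩ := (Finset.mem_filter.mp hp).2
      exact Finset.mem_biUnion.mpr ⟨z, Finset.mem_filter.mpr ⟨Finset.mem_univ _, ha.symm⟩,
        Finset.mem_filter.mpr ⟨Finset.mem_univ _, hz⟩⟩
    have h2 : (Px.card : ℝ) ≤ ∑ z ∈ univ.filter (fun u => G.Adj x u),
        ((univ.filter (fun p => κ p = some z)).card : ℝ) := by
      exact_mod_cast (Finset.card_le_card h1).trans Finset.card_biUnion_le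
    calc (Px.card : ℝ) ≤ _ := h2
      _ ≤ ∑ _z ∈ univ.filter (fun u => G.Adj x u), θ * Fintype.card P :=
          Finset.sum_le_sum (fun z _ => hc z)
      _ = (θ * dg G x) * Fintype.card P := by
          rw [Finset.sum_const, nsmul_eq_mul]
          unfold dg
          ring
  set I : (W → P) → W → ℝ := fun ω w => if ω w ∈ Px then (mw w : ℝ) else 0 with hI
  have hload : ∀ ω, load G κ mw x ω = ∑ w, I ω w := by
    intro ω
    unfold load
    apply Finset.sum_congr rfl
    intro w _
    simp only [hI, hPx, Finset.mem_filter, Finset.mem_univ, true_and]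
  have hIn : ∀ ω w, 0 ≤ I ω w := by
    intro ω w
    simp only [hI]
    split_ifs
    · exact Nat.cast_nonneg _
    · exact le_refl _
  have hIM : ∀ ω w, I ω w ≤ Mx := by
    intro ω w
    simp only [hI]
    split_ifs
    · exact hmw w
    · exact hL
  -- pointwise second moment bound
  have hpt : ∀ ω, L < load G κ mw x ω → K ≤ ∑ w, ∑ w' ∈ univ.erase w, I ω w * I ω w' := by
    intro ω hω
    rw [hload] at hω
    set T := ∑ w, I ω w with hT
    have h1 : T * T = ∑ w, (I ω w * I ω w + ∑ w' ∈ univ.erase w, I ω w * I ω w') := by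
      rw [hT, Finset.sum_mul]
      apply Finset.sum_congr rfl
      intro w _
      rw [← Finset.mul_sum, ← mul_add, Finset.add_sum_erase _ _ (Finset.mem_univ w)]
    rw [Finset.sum_add_distrib] at h1
    have h2 : ∑ w, I ω w * I ω w ≤ Mx * T := by
      rw [hT, Finset.mul_sum]
      apply Finset.sum_le_sum
      intro w _
      exact mul_le_mul_of_nonneg_right (hIM ω w) (hIn ω w)
    have h3 : L * (L - Mx) ≤ T * (T - Mx) := by
      apply mul_le_mul hω.le (by linarith) (by linarith)
      linarith
    nlinarith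
  have h1 : ∀ w w', w ≠ w' → ∑ ω : W → P, I ω w * I ω w' ≤
      (mw w : ℝ) * (mw w' : ℝ) * ((θ * dg G x) ^ 2 * Fintype.card (W → P)) := by
    intro w w' hww
    have h2 : ∀ ω : W → P, I ω w * I ω w' =
        if ω w ∈ Px ∧ ω w' ∈ Px then (mw w : ℝ) * (mw w' : ℝ) else 0 := by
      intro ω
      simp only [hI]
      by_cases h3 : ω w ∈ Px
      · by_cases h4 : ω w' ∈ Px
        · simp [h3, h4]
        · simp [h3, h4]
      · simp [h3]
    rw [Finset.sum_congr rfl (fun ω _ => h2 ω), ← Finset.sum_filter, Finset.sum_const,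
      nsmul_eq_mul]
    have h3 := prob_pair hP w w' hww Px Px _ _ hPxc hPxc
    have h4 : (0 : ℝ) ≤ (mw w : ℝ) * (mw w' : ℝ) := by positivity
    calc ((univ.filter (fun ω : W → P => ω w ∈ Px ∧ ω w' ∈ Px)).card : ℝ) *
          ((mw w : ℝ) * (mw w' : ℝ))
        ≤ ((θ * dg G x) * (θ * dg G x) * Fintype.card (W → P)) * ((mw w : ℝ) * (mw w' : ℝ)) :=
          mul_le_mul_of_nonneg_right h3 h4
      _ = _ := by ring
  calc K * ((univ.filter (fun ω : W → P => L < load G κ mw x ω)).card : ℝ)
      = ∑ _ω ∈ univ.filter (fun ω : W → P => L < load G κ mw x ω), K := by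
        rw [Finset.sum_const, nsmul_eq_mul]; ring
    _ ≤ ∑ ω ∈ univ.filter (fun ω : W → P => L < load G κ mw x ω),
          ∑ w, ∑ w' ∈ univ.erase w, I ω w * I ω w' :=
        Finset.sum_le_sum (fun ω hω => hpt ω (Finset.mem_filter.mp hω).2)
    _ ≤ ∑ ω : W → P, ∑ w, ∑ w' ∈ univ.erase w, I ω w * I ω w' := by
        apply Finset.sum_le_sum_of_subset_of_nonneg (Finset.filter_subset _ _)
        intro ω _ _
        exact Finset.sum_nonneg (fun w _ => Finset.sum_nonneg
          (fun w' _ => mul_nonneg (hIn ω w) (hIn ω w')))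
    _ = ∑ w, ∑ w' ∈ univ.erase w, ∑ ω : W → P, I ω w * I ω w' := by
        rw [Finset.sum_comm]
        apply Finset.sum_congr rfl
        intro w _
        rw [Finset.sum_comm]
    _ ≤ ∑ w, ∑ w' ∈ univ.erase w,
          (mw w : ℝ) * (mw w' : ℝ) * ((θ * dg G x) ^ 2 * Fintype.card (W → P)) := by
        apply Finset.sum_le_sum
        intro w _
        apply Finset.sum_le_sum
        intro w' hw'
        exact h1 w w' (Finset.ne_of_mem_erase hw').symm
    _ ≤ ∑ w, ∑ w' : W,
          (mw w : ℝ) * (mw w' : ℝ) * ((θ * dg G x) ^ 2 * Fintype.card (W → P)) := by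
        apply Finset.sum_le_sum
        intro w _
        apply Finset.sum_le_sum_of_subset_of_nonneg (Finset.erase_subset _ _)
        intro w' _ _
        positivity
    _ = _ := by
        have h5 : (∑ w : W, (mw w : ℝ)) ^ 2 = ∑ w : W, ∑ w' : W, (mw w : ℝ) * (mw w' : ℝ) := by
          rw [sq, Finset.sum_mul]
          apply Finset.sum_congr rfl
          intro w _
          rw [Finset.mul_sum]
        rw [mul_assoc, mul_comm ((∑ w : W, (mw w : ℝ)) ^ 2), ← mul_assoc, h5, Finset.mul_sum]
        apply Finset.sum_congr rfl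
        intro w _
        rw [Finset.mul_sum]
        apply Finset.sum_congr rfl
        intro w' _
        ring

/-- A selection with all the required properties. -/
def GoodSel (G : SimpleGraph (Fin n)) (κ : P → Option (Fin n)) (mw : W → ℕ)
    (A : Finset (Fin n)) (D : ℕ) (L : ℝ) (ω : W → P) : Prop :=
  ∃ z : W → Fin n, (∀ w, κ (ω w) = some (z w)) ∧ (∀ w, dg G (z w) ≤ D) ∧
    (∀ w w', w ≠ w' → z w ≠ z w' ∧ ¬ G.Adj (z w) (z w')) ∧
    ∀ x, x ∉ A → ∑ w ∈ univ.filter (fun w => G.Adj (z w) x), (mw w : ℝ) ≤ L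

theorem select_side (hP : 0 < Fintype.card P) (G : SimpleGraph (Fin n))
    (κ : P → Option (Fin n)) (mw : W → ℕ) (A : Finset (Fin n)) (D : ℕ)
    (θ δ hi L Mx K Q2 : ℝ)
    (hc : ∀ z, ((univ.filter (fun p => κ p = some z)).card : ℝ) ≤ θ * Fintype.card P)
    (hδ : ((univ.filter (fun p => κ p = none)).card : ℝ) ≤ δ * Fintype.card P)
    (hhi : ((univ.filter (fun z => D < dg G z)).card : ℝ) ≤ hi)
    (hQ : ∑ x ∈ univ.filter (fun x => x ∉ A), ((dg G x : ℝ)) ^ 2 ≤ Q2)
    (hθ : 0 ≤ θ) (hmw : ∀ w, (mw w : ℝ) ≤ Mx) (hL : 0 ≤ Mx) (hML : Mx ≤ L)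
    (hK0 : 0 < K) (hK : K ≤ L * (L - Mx))
    (hnum : (Fintype.card W : ℝ) * δ + (Fintype.card W : ℝ) * (θ * hi) +
      (Fintype.card W : ℝ) ^ 2 * (θ ^ 2 * (n * (D + 1))) +
      θ ^ 2 * (∑ w, (mw w : ℝ)) ^ 2 * Q2 / K < 1 / 2) :
    2 * ((univ.filter (fun ω : W → P => ¬ GoodSel G κ mw A D L ω)).card : ℝ) <
      Fintype.card (W → P) := by
  set N : ℝ := (Fintype.card (W → P) : ℝ) with hN
  have hNpos : 0 < N := by
    have : 0 < Fintype.card (W → P) := by
      rw [Fintype.card_fun]
      exact pow_pos hP _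
    rw [hN]
    exact_mod_cast this
  set b : ℝ := (Fintype.card W : ℝ) with hb
  set E0 : W → Finset (W → P) := fun w => univ.filter
    (fun ω => ω w ∈ univ.filter (fun p => κ p = none)) with hE0
  set P1 : Finset P := univ.filter (fun p => ∃ z, κ p = some z ∧ D < dg G z) with hP1
  set E1 : W → Finset (W → P) := fun w => univ.filter (fun ω => ω w ∈ P1) with hE1
  set Q : Finset (Fin n × Fin n) := univ.filter
    (fun r => dg G r.1 ≤ D ∧ (r.1 = r.2 ∨ G.Adj r.1 r.2)) with hQdef
  set E2 : W → W → Finset (W → P) := fun w w' => Q.biUnion (fun r => univ.filter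
    (fun ω => ω w ∈ univ.filter (fun p => κ p = some r.1) ∧
      ω w' ∈ univ.filter (fun p => κ p = some r.2))) with hE2
  set E3 : Fin n → Finset (W → P) := fun x => univ.filter
    (fun ω : W → P => L < load G κ mw x ω) with hE3
  -- covering
  have hcov : univ.filter (fun ω : W → P => ¬ GoodSel G κ mw A D L ω) ⊆
      ((univ.biUnion E0 ∪ univ.biUnion E1) ∪ (univ.biUnion (fun w => (univ.erase w).biUnion
        (fun w' => E2 w w')))) ∪ (univ.filter (fun x => x ∉ A)).biUnion E3 := by
    intro ω hω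
    by_contra hcon
    simp only [Finset.mem_union, not_or, Finset.mem_biUnion, not_exists, not_and] at hcon
    obtain ⟨⟨⟨h0, h1⟩, h2⟩, h3⟩ := hcon
    apply (Finset.mem_filter.mp hω).2
    have hz : ∀ w, ∃ z, κ (ω w) = some z := by
      intro w
      have h := h0 w (Finset.mem_univ w)
      rcases hk : κ (ω w) with _ | z
      · exact absurd (by simp only [hE0, Finset.mem_filter, Finset.mem_univ, true_and]; exact hk) h
      · exact ⟨z, rfl⟩
    choose z hz using hz
    have hdeg : ∀ w, dg G (z w) ≤ D := by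
      intro w
      by_contra hd
      apply h1 w (Finset.mem_univ w)
      simp only [hE1, hP1, Finset.mem_filter, Finset.mem_univ, true_and]
      exact ⟨z w, hz w, by omega⟩
    refine ⟨z, hz, hdeg, ?_, ?_⟩
    · intro w w' hww
      have h := h2 w (Finset.mem_univ w) w' (Finset.mem_erase.mpr ⟨hww.symm, Finset.mem_univ _⟩)
      have h4 : ¬ (z w = z w' ∨ G.Adj (z w) (z w')) := by
        intro h5
        apply h
        simp only [hE2, Finset.mem_biUnion]
        refine ⟨(z w, z w'), ?_, ?_⟩
        · rw [hQdef, Finset.mem_filter]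
          exact ⟨Finset.mem_univ _, hdeg w, h5⟩
        · simp only [Finset.mem_filter, Finset.mem_univ, true_and]
          exact ⟨hz w, hz w'⟩
      push Not at h4
      exact h4
    · intro x hx
      have h := h3 x (Finset.mem_filter.mpr ⟨Finset.mem_univ _, hx⟩)
      have h4 : load G κ mw x ω ≤ L := by
        by_contra h5
        apply h
        simp only [hE3, Finset.mem_filter, Finset.mem_univ, true_and]
        linarith
      refine le_trans (le_of_eq ?_) h4
      unfold load
      rw [Finset.sum_filter]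
      apply Finset.sum_congr rfl
      intro w _
      have h6 : (∃ z', κ (ω w) = some z' ∧ G.Adj z' x) ↔ G.Adj (z w) x := by
        constructor
        · rintro ⟨z', h7, h8⟩
          rw [hz w] at h7
          rw [Option.some.inj h7]
          exact h8
        · intro h7
          exact ⟨z w, hz w, h7⟩
      simp only [h6]
  -- sizes
  have s0 : ((univ.biUnion E0).card : ℝ) ≤ b * (δ * N) := by
    calc ((univ.biUnion E0).card : ℝ) ≤ ∑ w, ((E0 w).card : ℝ) := by
          exact_mod_cast Finset.card_biUnion_le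
      _ ≤ ∑ _w : W, δ * N := Finset.sum_le_sum (fun w _ => prob_single hP w _ δ hδ)
      _ = b * (δ * N) := by rw [Finset.sum_const, nsmul_eq_mul, Finset.card_univ]
  have hP1c : (P1.card : ℝ) ≤ (θ * hi) * Fintype.card P := by
    have h1 : P1 ⊆ (univ.filter (fun z => D < dg G z)).biUnion
        (fun z => univ.filter (fun p => κ p = some z)) := by
      intro p hp
      obtain ⟨z, hz, hd⟩ := (Finset.mem_filter.mp hp).2
      exact Finset.mem_biUnion.mpr ⟨z, Finset.mem_filter.mpr ⟨Finset.mem_univ _, hd⟩,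
        Finset.mem_filter.mpr ⟨Finset.mem_univ _, hz⟩⟩
    calc (P1.card : ℝ) ≤ ∑ z ∈ univ.filter (fun z => D < dg G z),
          ((univ.filter (fun p => κ p = some z)).card : ℝ) := by
          exact_mod_cast (Finset.card_le_card h1).trans Finset.card_biUnion_le
      _ ≤ ∑ _z ∈ univ.filter (fun z => D < dg G z), θ * Fintype.card P :=
          Finset.sum_le_sum (fun z _ => hc z)
      _ = ((univ.filter (fun z => D < dg G z)).card : ℝ) * (θ * Fintype.card P) := by
          rw [Finset.sum_const, nsmul_eq_mul]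
      _ ≤ hi * (θ * Fintype.card P) := mul_le_mul_of_nonneg_right hhi (by positivity)
      _ = _ := by ring
  have s1 : ((univ.biUnion E1).card : ℝ) ≤ b * ((θ * hi) * N) := by
    calc ((univ.biUnion E1).card : ℝ) ≤ ∑ w, ((E1 w).card : ℝ) := by
          exact_mod_cast Finset.card_biUnion_le
      _ ≤ ∑ _w : W, (θ * hi) * N := Finset.sum_le_sum (fun w _ => prob_single hP w _ _ hP1c)
      _ = b * ((θ * hi) * N) := by rw [Finset.sum_const, nsmul_eq_mul, Finset.card_univ]
  have hQc : (Q.card : ℝ) ≤ n * (D + 1) := by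
    have h1 : Q ⊆ ((univ : Finset (Fin n)).filter (fun z => dg G z ≤ D)).biUnion (fun z =>
        ((insert z (univ.filter (fun u => G.Adj z u))).image (fun u => (z, u)))) := by
      rintro ⟨z, u⟩ hzu
      rw [hQdef, Finset.mem_filter] at hzu
      obtain ⟨_, h1, h2⟩ := hzu
      refine Finset.mem_biUnion.mpr ⟨z, Finset.mem_filter.mpr ⟨Finset.mem_univ _, h1⟩,
        Finset.mem_image.mpr ⟨u, ?_, rfl⟩⟩
      rcases h2 with h2 | h2
      · exact Finset.mem_insert.mpr (Or.inl h2.symm)
      · exact Finset.mem_insert.mpr (Or.inr (Finset.mem_filter.mpr ⟨Finset.mem_univ _, h2⟩))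
    have h2 : Q.card ≤ n * (D + 1) := by
      calc Q.card ≤ ∑ z ∈ (univ : Finset (Fin n)).filter (fun z => dg G z ≤ D),
            ((insert z (univ.filter (fun u => G.Adj z u))).image (fun u => (z, u))).card :=
            (Finset.card_le_card h1).trans Finset.card_biUnion_le
        _ ≤ ∑ _z ∈ (univ : Finset (Fin n)).filter (fun z => dg G z ≤ D), (D + 1) := by
            apply Finset.sum_le_sum
            intro z hz
            refine Finset.card_image_le.trans ((Finset.card_insert_le _ _).trans ?_)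
            have := (Finset.mem_filter.mp hz).2
            unfold dg at this
            omega
        _ ≤ ∑ _z : Fin n, (D + 1) := Finset.sum_le_sum_of_subset (Finset.filter_subset _ _)
        _ = n * (D + 1) := by simp
    exact_mod_cast h2
  have s2' : ∀ w w', w' ∈ univ.erase w → ((E2 w w').card : ℝ) ≤ θ ^ 2 * (n * (D + 1)) * N := by
    intro w w' hw'
    calc ((E2 w w').card : ℝ) ≤ ∑ r ∈ Q, ((univ.filter
          (fun ω : W → P => ω w ∈ univ.filter (fun p => κ p = some r.1) ∧
            ω w' ∈ univ.filter (fun p => κ p = some r.2))).card : ℝ) := by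
          exact_mod_cast Finset.card_biUnion_le
      _ ≤ ∑ _r ∈ Q, θ * θ * N := Finset.sum_le_sum (fun r _ =>
          prob_pair hP w w' (Finset.ne_of_mem_erase hw').symm _ _ θ θ (hc r.1) (hc r.2))
      _ = (Q.card : ℝ) * (θ * θ * N) := by rw [Finset.sum_const, nsmul_eq_mul]
      _ ≤ (n * (D + 1)) * (θ * θ * N) := mul_le_mul_of_nonneg_right hQc (by positivity)
      _ = _ := by ring
  have s2 : ((univ.biUnion (fun w => (univ.erase w).biUnion
        (fun w' => E2 w w'))).card : ℝ) ≤ b ^ 2 * (θ ^ 2 * (n * (D + 1)) * N) := by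
    calc ((univ.biUnion (fun w => (univ.erase w).biUnion
        (fun w' => E2 w w'))).card : ℝ) ≤ ∑ w : W, ∑ w' ∈ univ.erase w, ((E2 w w').card : ℝ) := by
          have h1 : (univ.biUnion (fun w => (univ.erase w).biUnion
            (fun w' => E2 w w'))).card ≤ ∑ w : W, ∑ w' ∈ univ.erase w, (E2 w w').card :=
            Finset.card_biUnion_le.trans (Finset.sum_le_sum (fun w _ => Finset.card_biUnion_le))
          exact_mod_cast h1
      _ ≤ ∑ w : W, ∑ _w' ∈ univ.erase w, θ ^ 2 * (n * (D + 1)) * N :=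
          Finset.sum_le_sum (fun w _ => Finset.sum_le_sum (fun w' hw' => s2' w w' hw'))
      _ ≤ ∑ _w : W, ∑ _w' : W, θ ^ 2 * (n * (D + 1)) * N := by
          apply Finset.sum_le_sum
          intro w _
          apply Finset.sum_le_sum_of_subset_of_nonneg (Finset.erase_subset _ _)
          intro _ _ _
          positivity
      _ = _ := by
          rw [Finset.sum_const, nsmul_eq_mul, Finset.sum_const, nsmul_eq_mul, Finset.card_univ]
          ring
  have s3 : (((univ.filter (fun x => x ∉ A)).biUnion E3).card : ℝ) ≤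
      (θ ^ 2 * (∑ w, (mw w : ℝ)) ^ 2 * Q2 / K) * N := by
    have h1 : (((univ.filter (fun x => x ∉ A)).biUnion E3).card : ℝ) ≤
        ∑ x ∈ univ.filter (fun x => x ∉ A), ((E3 x).card : ℝ) := by
      exact_mod_cast Finset.card_biUnion_le
    have h2 : K * (((univ.filter (fun x => x ∉ A)).biUnion E3).card : ℝ) ≤
        (θ ^ 2 * (∑ w, (mw w : ℝ)) ^ 2 * Q2) * N := by
      calc K * (((univ.filter (fun x => x ∉ A)).biUnion E3).card : ℝ)
          ≤ K * ∑ x ∈ univ.filter (fun x => x ∉ A), ((E3 x).card : ℝ) :=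
            mul_le_mul_of_nonneg_left h1 hK0.le
        _ = ∑ x ∈ univ.filter (fun x => x ∉ A), K * ((E3 x).card : ℝ) := by rw [Finset.mul_sum]
        _ ≤ ∑ x ∈ univ.filter (fun x => x ∉ A),
              (θ * dg G x) ^ 2 * (∑ w, (mw w : ℝ)) ^ 2 * N :=
            Finset.sum_le_sum (fun x _ => load_bound hP G κ mw θ L Mx K hc hθ hmw hL hML hK x)
        _ = (θ ^ 2 * (∑ w, (mw w : ℝ)) ^ 2 * N) *
              ∑ x ∈ univ.filter (fun x => x ∉ A), ((dg G x : ℝ)) ^ 2 := by
            rw [Finset.mul_sum]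
            apply Finset.sum_congr rfl
            intro x _
            ring
        _ ≤ (θ ^ 2 * (∑ w, (mw w : ℝ)) ^ 2 * N) * Q2 :=
            mul_le_mul_of_nonneg_left hQ (by positivity)
        _ = _ := by ring
    rw [div_mul_eq_mul_div, le_div_iff₀ hK0]
    linarith
  have hfin : ((univ.filter (fun ω : W → P => ¬ GoodSel G κ mw A D L ω)).card : ℝ) ≤
      b * (δ * N) + b * ((θ * hi) * N) + b ^ 2 * (θ ^ 2 * (n * (D + 1)) * N) +
        (θ ^ 2 * (∑ w, (mw w : ℝ)) ^ 2 * Q2 / K) * N := by
    have h1 := Finset.card_le_card hcov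
    have h2 : ∀ s1 s2 s3 s4 : Finset (W → P), (((s1 ∪ s2) ∪ s3) ∪ s4).card ≤
        s1.card + s2.card + s3.card + s4.card := by
      intro s1 s2 s3 s4
      have e1 := Finset.card_union_le ((s1 ∪ s2) ∪ s3) s4
      have e2 := Finset.card_union_le (s1 ∪ s2) s3
      have e3 := Finset.card_union_le s1 s2
      omega
    have h3 := h1.trans (h2 _ _ _ _)
    have h4 : ((univ.filter (fun ω : W → P => ¬ GoodSel G κ mw A D L ω)).card : ℝ) ≤
        ((univ.biUnion E0).card : ℝ) + ((univ.biUnion E1).card : ℝ) +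
        ((univ.biUnion (fun w => (univ.erase w).biUnion (fun w' => E2 w w'))).card : ℝ) +
        (((univ.filter (fun x => x ∉ A)).biUnion E3).card : ℝ) := by
      exact_mod_cast h3
    linarith
  have hfin2 : b * (δ * N) + b * ((θ * hi) * N) + b ^ 2 * (θ ^ 2 * (n * (D + 1)) * N) +
        (θ ^ 2 * (∑ w, (mw w : ℝ)) ^ 2 * Q2 / K) * N = (b * δ + b * (θ * hi) +
      b ^ 2 * (θ ^ 2 * (n * (D + 1))) +
      θ ^ 2 * (∑ w, (mw w : ℝ)) ^ 2 * Q2 / K) * N := by ring
  rw [hfin2] at hfin
  have := mul_lt_mul_of_pos_right hnum hNpos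
  linarith

end Pool.Agent.Helper852.Sel
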